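import Pool.Agent.SQG.Defs

/-!
# SQG module Axc: the eight axis-preserving orthogonal maps

PROOF. `ax_card`: `Ax h`, `a * b = 0`, `a * a + b * b = 1`: `(a, b) ∈ {(1, 0), (-1, 0), (0, 1), (0, -1)}`, `s = ± 1`.
`S` is the image of `Finset (Fin 4 × ℤˣ)`-like explicit set under an injective map (or an explicit `{..}` of eight
elements; `Finset.card_image_of_injective`).
`ax_dvd`: the elements of `Γ` with `Ax h` form a subgroup (`Ax` is closed under products and inverses: write
`Ax h ↔ (a = 0 ∨ b = 0)`), of the finite group `Γ`; if `p` divides its order, Cauchy's theorem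
(`exists_prime_orderOf_dvd_card`) gives an element of order `p` in it, but all `h` with `Ax h` satisfy `h ^ 4 = 1`
(8 cases), so `p ∣ 4` and `p = 2`.
-/

set_option autoImplicit false

open AddMonoidAlgebra Filter Topology

namespace Pool.Agent.SQG

private noncomputable def axc_f : Bool × Bool × ℤˣ → O2
  | (true, true, s) => ⟨1, 0, s, by norm_num⟩
  | (true, false, s) => ⟨-1, 0, s, by norm_num⟩
  | (false, true, s) => ⟨0, 1, s, by norm_num⟩
  | (false, false, s) => ⟨0, -1, s, by norm_num⟩

private theorem axc_f_inj : Function.Injective axc_f := by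
  rintro ⟨x, y, s⟩ ⟨x', y', s'⟩ h
  have ha := congrArg O2.a h
  have hb := congrArg O2.b h
  have hs := congrArg O2.s h
  cases x <;> cases y <;> cases x' <;> cases y' <;> simp only [axc_f] at ha hb hs <;>
    first
      | (subst hs; rfl)
      | (exfalso; norm_num at ha; done)
      | (exfalso; norm_num at hb; done)

private theorem axc_sq {x : ℝ} (h : x * x = 1) : x = 1 ∨ x = -1 := mul_self_eq_one_iff.mp h

theorem ax_card : ∃ S : Finset O2, S.card = 8 ∧ ∀ h, h ∈ S ↔ Ax h := by
  classical
  refine ⟨Finset.univ.image axc_f, ?_, ?_⟩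
  · rw [Finset.card_image_of_injective _ axc_f_inj, Finset.card_univ, Fintype.card_prod,
      Fintype.card_prod, Fintype.card_bool, Fintype.card_units_int]
  · intro h
    rw [Finset.mem_image]
    constructor
    · rintro ⟨⟨x, y, s⟩, -, rfl⟩
      cases x <;> cases y <;> simp [axc_f, Ax]
    · intro hh
      have h1 := h.h
      rcases mul_eq_zero.mp hh with h0 | h0
      · rw [h0, mul_zero, zero_add] at h1
        rcases axc_sq h1 with h2 | h2
        · exact ⟨(false, true, h.s), Finset.mem_univ _, O2.ext' h0.symm h2.symm rfl⟩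
        · exact ⟨(false, false, h.s), Finset.mem_univ _, O2.ext' h0.symm h2.symm rfl⟩
      · rw [h0, mul_zero, add_zero] at h1
        rcases axc_sq h1 with h2 | h2
        · exact ⟨(true, true, h.s), Finset.mem_univ _, O2.ext' h2.symm h0.symm rfl⟩
        · exact ⟨(true, false, h.s), Finset.mem_univ _, O2.ext' h2.symm h0.symm rfl⟩

theorem ax_one : Ax 1 := by
  simp [Ax]

private theorem axc_mul {g h : O2} (hg : Ax g) (hh : Ax h) : Ax (g * h) := by
  unfold Ax at *
  simp only [O2.mul_a, O2.mul_b]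
  rcases mul_eq_zero.mp hg with h1 | h1 <;> rcases mul_eq_zero.mp hh with h2 | h2 <;>
    simp [h1, h2]

private theorem axc_inv {g : O2} (hg : Ax g) : Ax g⁻¹ := by
  unfold Ax at *
  simp only [O2.inv_a, O2.inv_b]
  rcases mul_eq_zero.mp hg with h1 | h1 <;> simp [h1]

private theorem axc_pow {h : O2} (hh : Ax h) : h ^ 4 = 1 := by
  have e : h ^ 4 = (h * h) * (h * h) := by
    rw [show (4 : ℕ) = 2 + 2 from rfl, pow_add, pow_two]
  rw [e]
  have h1 := h.h
  have h3 := h.t_sq
  rcases mul_eq_zero.mp hh with h0 | h0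
  · have h2 : h.b * h.b = 1 := by rw [h0] at h1; linarith
    apply O2.ext'
    · simp only [O2.mul_a, O2.mul_b, O2.mul_t, O2.one_a, h0]
      ring_nf
      have h4 : h.t ^ 2 = 1 := by rw [pow_two]; exact h3
      have h5 : h.b ^ 4 = 1 := by
        have : h.b ^ 4 = (h.b * h.b) * (h.b * h.b) := by ring
        rw [this, h2]; norm_num
      rw [h4, h5]; norm_num
    · simp only [O2.mul_a, O2.mul_b, O2.mul_t, O2.one_b, h0]
      ring
    · simp only [O2.mul_s, O2.one_s, Int.units_mul_self]
  · have h2 : h.a * h.a = 1 := by rw [h0] at h1; linarith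
    apply O2.ext'
    · simp only [O2.mul_a, O2.mul_b, O2.mul_t, O2.one_a, h0]
      ring_nf
      have h5 : h.a ^ 4 = (h.a * h.a) * (h.a * h.a) := by ring
      rw [h5, h2]; norm_num
    · simp only [O2.mul_a, O2.mul_b, O2.mul_t, O2.one_b, h0]
      ring
    · simp only [O2.mul_s, O2.one_s, Int.units_mul_self]

theorem ax_dvd {p : ℕ} (hp : p.Prime) (hp2 : p ≠ 2) (Γ : Subgroup O2) [Finite Γ] :
    ¬ p ∣ Nat.card {h : Γ // Ax (h : O2)} := by
  intro hdvd
  let H : Subgroup Γ :=
    { carrier := {h | Ax (h : O2)}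
      mul_mem' := fun ha hb => axc_mul ha hb
      one_mem' := ax_one
      inv_mem' := fun ha => axc_inv ha }
  have : Fact p.Prime := ⟨hp⟩
  have hd : p ∣ Nat.card H := hdvd
  obtain ⟨x, hx⟩ := exists_prime_orderOf_dvd_card' p hd
  have h4 : x ^ 4 = 1 := by
    apply Subtype.ext
    apply Subtype.ext
    change ((x : Γ) : O2) ^ 4 = 1
    exact axc_pow x.2
  have h5 : p ∣ 4 := by
    rw [← hx]
    exact orderOf_dvd_of_pow_eq_one h4
  have h6 : p ∣ 2 ^ 2 := h5
  have h7 := hp.dvd_of_dvd_pow h6
  exact hp2 ((Nat.prime_dvd_prime_iff_eq hp Nat.prime_two).mp h7)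

end Pool.Agent.SQG
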