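import Pool.Agent.SQG.Defs

/-!
# SQG module Cal: calculus of corner values

`Pts Q w`: `Q` holds at the four points `(w.1 ± a, w.2 ± b)` for all small `a > 0` and all `b > 0` small depending
on `a`.
PROOF. `𝓝[>] (0 : ℝ)` is `NeBot`; combine eventual statements (`Filter.Eventually.and`, `.mono`, `eventually_all` for
finite index types).  Uniqueness: `(h.and h')` and two uses of `Eventually.exists`.
`crn_shift`: the two functions `md .. ` are equal by `Prod` computations (`(w.1 + a, w.2 + b) - v =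
((w - v).1 + a, (w - v).2 + b)`).
-/

set_option autoImplicit false

open AddMonoidAlgebra Filter Topology

namespace Pool.Agent.SQG

/-- `Q` holds at the four corner points of small rectangles centred at `w`. -/
def Pts (Q : V → Prop) (w : V) : Prop :=
  ∀ᶠ a in 𝓝[>] (0 : ℝ), ∀ᶠ b in 𝓝[>] (0 : ℝ),
    Q (w.1 + a, w.2 + b) ∧ Q (w.1 + a, w.2 - b) ∧ Q (w.1 - a, w.2 + b) ∧ Q (w.1 - a, w.2 - b)

theorem pts_mono {Q R : V → Prop} {w : V} (h : Pts Q w) (h1 : ∀ z, Q z → R z) : Pts R w := by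
  refine h.mono fun a ha => ha.mono fun b hb => ?_
  exact ⟨h1 _ hb.1, h1 _ hb.2.1, h1 _ hb.2.2.1, h1 _ hb.2.2.2⟩

theorem pts_and {Q R : V → Prop} {w : V} (h : Pts Q w) (h1 : Pts R w) : Pts (fun z => Q z ∧ R z) w := by
  refine (h.and h1).mono fun a ha => (ha.1.and ha.2).mono fun b hb => ?_
  exact ⟨⟨hb.1.1, hb.2.1⟩, ⟨hb.1.2.1, hb.2.2.1⟩, ⟨hb.1.2.2.1, hb.2.2.2.1⟩,
    ⟨hb.1.2.2.2, hb.2.2.2.2⟩⟩

theorem pts_all {ι : Type} [Finite ι] {Q : ι → V → Prop} {w : V} (h : ∀ i, Pts (Q i) w) :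
    Pts (fun z => ∀ i, Q i z) w := by
  refine (eventually_all.2 h).mono fun a ha => (eventually_all.2 ha).mono fun b hb => ?_
  exact ⟨fun i => (hb i).1, fun i => (hb i).2.1, fun i => (hb i).2.2.1, fun i => (hb i).2.2.2⟩

theorem pts_shift {Q : V → Prop} {w v : V} (h : Pts Q (w - v)) : Pts (fun z => Q (z - v)) w := by
  refine h.mono fun a ha => ha.mono fun b hb => ?_
  have e1 : ((w.1 + a, w.2 + b) : V) - v = ((w - v).1 + a, (w - v).2 + b) := by
    ext <;> simp <;> ring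
  have e2 : ((w.1 + a, w.2 - b) : V) - v = ((w - v).1 + a, (w - v).2 - b) := by
    ext <;> simp <;> ring
  have e3 : ((w.1 - a, w.2 + b) : V) - v = ((w - v).1 - a, (w - v).2 + b) := by
    ext <;> simp <;> ring
  have e4 : ((w.1 - a, w.2 - b) : V) - v = ((w - v).1 - a, (w - v).2 - b) := by
    ext <;> simp <;> ring
  show Q _ ∧ Q _ ∧ Q _ ∧ Q _
  rw [e1, e2, e3, e4]
  exact hb

theorem crn_uniq {u : V → ℤ} {w : V} {k k' : ℤ} (h : Crn u w k) (h' : Crn u w k') : k = k' := by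
  obtain ⟨a, ha⟩ := (h.and h').exists
  obtain ⟨b, hb⟩ := (ha.1.and ha.2).exists
  exact hb.1.symm.trans hb.2

theorem crn_congr {u v : V → ℤ} {w : V} {k : ℤ} (h : Pts (fun z => u z = v z) w) (h1 : Crn u w k) :
    Crn v w k := by
  refine (h.and h1).mono fun a ha => (ha.1.and ha.2).mono fun b hb => ?_
  obtain ⟨⟨h2, h3, h4, h5⟩, h6⟩ := hb
  unfold md at h6 ⊢
  rw [← h2, ← h3, ← h4, ← h5]
  exact h6

theorem crn_shift {u : V → ℤ} {w v : V} {k : ℤ} (h : Crn u (w - v) k) : Crn (fun z => u (z - v)) w k := by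
  refine h.mono fun a ha => ha.mono fun b hb => ?_
  have e1 : ((w.1 + a, w.2 + b) : V) - v = ((w - v).1 + a, (w - v).2 + b) := by
    ext <;> simp <;> ring
  have e2 : ((w.1 + a, w.2 - b) : V) - v = ((w - v).1 + a, (w - v).2 - b) := by
    ext <;> simp <;> ring
  have e3 : ((w.1 - a, w.2 + b) : V) - v = ((w - v).1 - a, (w - v).2 + b) := by
    ext <;> simp <;> ring
  have e4 : ((w.1 - a, w.2 - b) : V) - v = ((w - v).1 - a, (w - v).2 - b) := by
    ext <;> simp <;> ring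
  unfold md at hb ⊢
  beta_reduce
  rw [e1, e2, e3, e4]
  exact hb

theorem crn_sum {ι : Type} (s : Finset ι) (u : ι → V → ℤ) (w : V) (k : ι → ℤ) (h : ∀ i ∈ s, Crn (u i) w (k i)) :
    Crn (fun z => ∑ i ∈ s, u i z) w (∑ i ∈ s, k i) := by
  have h1 : ∀ᶠ a in 𝓝[>] (0 : ℝ), ∀ i ∈ s, ∀ᶠ b in 𝓝[>] (0 : ℝ), md (u i) w a b = k i :=
    (Filter.eventually_all_finset s).2 h
  refine h1.mono fun a ha => ((Filter.eventually_all_finset s).2 ha).mono fun b hb => ?_
  have h2 : md (fun z => ∑ i ∈ s, u i z) w a b = ∑ i ∈ s, md (u i) w a b := by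
    unfold md
    rw [Finset.sum_add_distrib, Finset.sum_sub_distrib, Finset.sum_sub_distrib]
  rw [h2]
  exact Finset.sum_congr rfl hb

end Pool.Agent.SQG
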