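import Pool.Agent.SQG.FDefs

/-!
# SQG module Cop: polynomials in a vector do not vanish under the evaluation of an independent vector

PROOF. `cop`: let `v = w - lam' w • w'`.  `ev lam' w' ζ (single w 1) = single v c` with `c = ζ ^ (lam' w) ≠ 0`, so
`ev lam' w' ζ (aeval (single w 1) P) = ∑ k, single (k • v) (P.coeff k * c ^ k)` (`Polynomial.aeval_eq_sum_range`,
`map_sum`, `single_pow`).  `v ≠ 0`: otherwise `1 • w = lam' w • w'` and `Ind w w'` gives `1 = 0`.  `k ↦ k • v` is
injective (`IsAddTorsionFree`), so the coefficient at `k • v` is `P.coeff k * c ^ k`, nonzero for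
`k = P.natDegree`.
`ev_self`: `ev lam w ζ (single w 1) = single 0 ζ` (`hw`), so `ev lam w ζ (aeval (single w 1) P) = single 0
(aeval ζ P)`.
`aug_aeval`: `aug (aeval (single w 1) P) = P.eval 1`; `aug_ev`: by `induction_linear`.
-/

set_option autoImplicit false

open AddMonoidAlgebra

namespace Pool.Agent.SQG

theorem cop {M : Type} [AddCommGroup M] [IsAddTorsionFree M] (w w' : M) (lam' : M →+ ℤ) (h : Ind w w')
    (ζ : ℂˣ) (P : Polynomial ℤ) (hP : P ≠ 0) :
    ev lam' w' ζ (Polynomial.aeval (single w (1 : ℤ) : AddMonoidAlgebra ℤ M) P) ≠ 0 := by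
  intro h0
  set v : M := w - lam' w • w' with hv
  have hv0 : v ≠ 0 := by
    intro h1
    have h2 : (1 : ℤ) • w = lam' w • w' := by
      rw [one_smul]
      exact sub_eq_zero.1 h1
    exact one_ne_zero (h _ _ h2).1
  have h1 : ev lam' w' ζ (Polynomial.aeval (single w (1 : ℤ) : AddMonoidAlgebra ℤ M) P) =
      ∑ k ∈ Finset.range (P.natDegree + 1),
        single (k • v) ((P.coeff k : ℂ) * ((ζ ^ (lam' w) : ℂˣ) : ℂ) ^ k) := by
    rw [Polynomial.aeval_eq_sum_range, map_sum]
    refine Finset.sum_congr rfl fun k _ => ?_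
    rw [map_zsmul, map_pow, ev_single, single_pow, Int.cast_one, one_mul, smul_single, zsmul_eq_mul]
  rw [h1] at h0
  have h2 := congrArg (fun x => x.coeff (P.natDegree • v)) h0
  simp only [coeff_sum, coeff_single, Finsupp.coe_finsetSum, Finset.sum_apply, coeff_zero, Finsupp.coe_zero,
    Pi.zero_apply] at h2
  rw [Finset.sum_eq_single P.natDegree] at h2
  · rw [Finsupp.single_eq_same] at h2
    rcases mul_eq_zero.1 h2 with h3 | h3
    · have h4 : P.coeff P.natDegree = 0 := by exact_mod_cast h3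
      exact hP (Polynomial.leadingCoeff_eq_zero.1 h4)
    · exact pow_ne_zero _ (ζ ^ (lam' w)).ne_zero h3
  · intro k _ hk
    rw [Finsupp.single_eq_of_ne]
    intro h5
    have h6 : ((k : ℤ) - (P.natDegree : ℤ)) • v = 0 := by
      rw [sub_smul, natCast_zsmul, natCast_zsmul, h5, sub_self]
    have h7 := (IsAddTorsionFree.zsmul_eq_zero_iff_left hv0).1 h6
    exact hk (by omega)
  · intro h5
    exact absurd (Finset.mem_range.2 (Nat.lt_succ_self _)) h5

theorem ev_self {M : Type} [AddCommGroup M] (w : M) (lam : M →+ ℤ) (hw : lam w = 1) (ζ : ℂˣ)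
    (P : Polynomial ℤ) (hP : Polynomial.aeval ((ζ : ℂˣ) : ℂ) P = 0) :
    ev lam w ζ (Polynomial.aeval (single w (1 : ℤ) : AddMonoidAlgebra ℤ M) P) = 0 := by
  have h1 : ev lam w ζ (Polynomial.aeval (single w (1 : ℤ) : AddMonoidAlgebra ℤ M) P) =
      single 0 (Polynomial.aeval ((ζ : ℂˣ) : ℂ) P) := by
    have h2 : ∀ x : ℂ, (single 0 x : AddMonoidAlgebra ℂ M) = singleAddHom 0 x := fun _ => rfl
    rw [Polynomial.aeval_eq_sum_range, Polynomial.aeval_eq_sum_range, map_sum, h2, map_sum]
    refine Finset.sum_congr rfl fun k _ => ?_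
    rw [← h2]
    rw [map_zsmul, map_pow, ev_single, single_pow, Int.cast_one, one_mul, smul_single, hw, one_smul, sub_self,
      smul_zero, zpow_one]
  rw [h1, hP, single_zero]

theorem aug_aeval {M : Type} [AddCommGroup M] (w : M) (P : Polynomial ℤ) :
    aug ℤ (Polynomial.aeval (single w (1 : ℤ) : AddMonoidAlgebra ℤ M) P) = P.eval 1 := by
  rw [Polynomial.aeval_eq_sum_range, Polynomial.eval_eq_sum_range, map_sum]
  refine Finset.sum_congr rfl fun k _ => ?_
  rw [map_zsmul, map_pow, aug_single, one_pow, smul_eq_mul]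

theorem aug_ev {M : Type} [AddCommGroup M] (w : M) (lam : M →+ ℤ) (G : AddMonoidAlgebra ℤ M) :
    aug ℂ (ev lam w 1 G) = (aug ℤ G : ℂ) := by
  have h1 : (aug ℂ).comp (ev lam w 1) = (Int.castRingHom ℂ).comp (aug ℤ) := by
    refine AddMonoidAlgebra.ringHom_ext (fun r => ?_) (fun m => ?_)
    · simp
    · simp
  exact congrArg (fun f => f G) h1

end Pool.Agent.SQG
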