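import Pool.Agent.SQG.Defs

/-!
# SQG module Loc: the frontier near a horizontal line

PROOF. `X` is the union of `{x | (x, t) ∈ C}` (finite: `C ∩ Ln (0, 1, t)` is finite, image under `Prod.fst`) and of
`{x | (x, t) ∈ Ln l}` for `l ∈ T` with `l.1 ≠ 0` (at most one point: `x = (l.2.2 - l.2.1 * t) / l.1`).
For `x ∉ X` let `K = C ∪ ⋃ (l ∈ T with (x, t) ∉ Ln l) Ln l`, a closed set not containing `(x, t)` (finite union of
closed sets; `Ln l` is closed: `isClosed_eq`).  So a neighbourhood of `(x, t)` misses `K`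
(`Metric.isOpen_iff`; `dist` on `ℝ × ℝ` is the maximum of the distances of the coordinates: `Prod.dist_eq`,
`Real.dist_eq`).  If `z` is in it and `z ∈ frontier U`, then by `h.fr` `z ∈ Ln l` for some `l ∈ T` with
`(x, t) ∈ Ln l`; as `x ∉ X`, `l.1 = 0`; so `l.2.1 * t = l.2.2` and `l.2.1 * z.2 = l.2.2`, and `l.2.1 ≠ 0`
(`h.nd`), so `z.2 = t`.
-/

set_option autoImplicit false

open AddMonoidAlgebra Filter Topology

namespace Pool.Agent.SQG

private theorem isClosed_Ln (l : ℝ × ℝ × ℝ) : IsClosed (Ln l) := by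
  have h1 : Continuous fun z : V => l.1 * z.1 + l.2.1 * z.2 := by fun_prop
  exact isClosed_eq h1 continuous_const

theorem loc {U : Set V} {T : Finset (ℝ × ℝ × ℝ)} {C : Set V} (h : TB U T C) (t : ℝ) :
    ∃ X : Set ℝ, X.Finite ∧ ∀ x, x ∉ X → ∃ ε > 0, ∀ z : V, |z.1 - x| < ε → |z.2 - t| < ε → z ∈ frontier U →
      z.2 = t ∧ ∃ l ∈ T, l.1 = 0 ∧ l.2.2 = l.2.1 * t := by
  classical
  refine ⟨{x : ℝ | ((x, t) : V) ∈ C} ∪ ⋃ l ∈ T, {x : ℝ | l.1 ≠ 0 ∧ ((x, t) : V) ∈ Ln l}, ?_, ?_⟩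
  · refine Set.Finite.union ?_ ?_
    · have hf := (h.fin (0, 1, t) (Or.inr one_ne_zero)).image Prod.fst
      refine hf.subset ?_
      intro x hx
      refine ⟨(x, t), ⟨hx, ?_⟩, rfl⟩
      change (0 : ℝ) * x + 1 * t = t
      ring
    · refine T.finite_toSet.biUnion ?_
      intro l _
      refine (Set.finite_singleton ((l.2.2 - l.2.1 * t) / l.1)).subset ?_
      rintro x ⟨hl, hx⟩
      have hx' : l.1 * x + l.2.1 * t = l.2.2 := hx
      rw [Set.mem_singleton_iff, eq_div_iff hl]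
      linarith
  · intro x hx
    have hxC : ((x, t) : V) ∉ C := fun hc => hx (Or.inl hc)
    have hxT : ∀ l ∈ T, l.1 ≠ 0 → ((x, t) : V) ∉ Ln l := by
      intro l hl hl0 hm
      exact hx (Or.inr (Set.mem_biUnion hl ⟨hl0, hm⟩))
    have hK : IsClosed (C ∪ ⋃ l ∈ T.filter (fun l => ((x, t) : V) ∉ Ln l), Ln l) := by
      refine h.cl.union ?_
      exact Set.Finite.isClosed_biUnion (Finset.finite_toSet _) (fun l _ => isClosed_Ln l)
    have hnot : ((x, t) : V) ∈ (C ∪ ⋃ l ∈ T.filter (fun l => ((x, t) : V) ∉ Ln l), Ln l)ᶜ := by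
      intro hm
      rcases hm with hm | hm
      · exact hxC hm
      · simp only [Set.mem_iUnion] at hm
        obtain ⟨l, hl, hm⟩ := hm
        exact (Finset.mem_filter.mp hl).2 hm
    obtain ⟨ε, hε, hb⟩ := Metric.isOpen_iff.mp hK.isOpen_compl _ hnot
    refine ⟨ε, hε, ?_⟩
    intro z hz1 hz2 hz
    have hzb : z ∈ Metric.ball ((x, t) : V) ε := by
      rw [Metric.mem_ball, Prod.dist_eq, max_lt_iff, Real.dist_eq, Real.dist_eq]
      exact ⟨hz1, hz2⟩
    have hzK := hb hzb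
    have hfr := h.fr hz
    rcases hfr with hc | hu
    · exact absurd (Or.inl hc) hzK
    · simp only [Set.mem_iUnion] at hu
      obtain ⟨l, hl, hzl⟩ := hu
      have hxl : ((x, t) : V) ∈ Ln l := by
        by_contra hcon
        apply hzK
        refine Or.inr ?_
        simp only [Set.mem_iUnion]
        exact ⟨l, Finset.mem_filter.mpr ⟨hl, hcon⟩, hzl⟩
      have hl0 : l.1 = 0 := by
        by_contra hcon
        exact hxT l hl hcon hxl
      have h1 : l.1 * x + l.2.1 * t = l.2.2 := hxl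
      have h2 : l.1 * z.1 + l.2.1 * z.2 = l.2.2 := hzl
      have h3 : l.2.1 ≠ 0 := by
        rcases h.nd l hl with h4 | h4
        · exact absurd hl0 h4
        · exact h4
      rw [hl0] at h1 h2
      refine ⟨?_, l, hl, hl0, by linarith⟩
      have h5 : l.2.1 * (z.2 - t) = 0 := by linarith
      rcases mul_eq_zero.mp h5 with h6 | h6
      · exact absurd h6 h3
      · linarith

end Pool.Agent.SQG
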