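import Pool.Agent.SQG.Hlf
import Pool.Agent.SQG.Loc

/-!
# SQG module Crz: the corner values vanish outside a finite set

PROOF. `crn_hor`: take `X` from `loc` for `t = w.2`; for small `a > 0` the points `w.1 ± a` are not in `X` (`X` is
finite), and `loc` at `x = w.1 ± a` shows that near `(x, t)` there are no points of the frontier at all (the second
alternative of `loc` contradicts `hw`), so `full` gives `ind U (x, t + b) = ind U (x, t - b)` for small `b`; so
`md = 0`.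
`crn_off`: take `X` from `loc`.  For `x ∉ X`, `loc` and `half` (`τ = 1` and `τ = -1`) at `x`: for `a, b < ε`,
`ind U (x + a, t + b) = ind U (x - a, t + b)` and `ind U (x + a, t - b) = ind U (x - a, t - b)`, so `md = 0`.
`crn_fin`: by `crn_hor` the second coordinate of an exceptional point is one of the finitely many numbers
`l.2.2 / l.2.1`, `l ∈ T`, `l.1 = 0` (`l.2.1 ≠ 0` by `h.nd`), and for each of them the first coordinate lies in a
finite set by `crn_off`: the set is contained in a finite union of sets `X_t ×ˢ {t}`.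
-/

set_option autoImplicit false

open AddMonoidAlgebra Filter Topology

namespace Pool.Agent.SQG

private theorem Crz_small {X : Set ℝ} (hX : X.Finite) (x : ℝ) :
    ∀ᶠ a in 𝓝[>] (0 : ℝ), x + a ∉ X ∧ x - a ∉ X := by
  have h1 : ((fun a : ℝ => x + a) ⁻¹' X).Finite := hX.preimage (by intro a _ b _ h; simpa using h)
  have h2 : ((fun a : ℝ => x - a) ⁻¹' X).Finite := hX.preimage (by intro a _ b _ h; simpa using h)
  have h3 : (((fun a : ℝ => x + a) ⁻¹' X ∪ (fun a : ℝ => x - a) ⁻¹' X) \ {0}).Finite :=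
    (h1.union h2).subset Set.sdiff_subset
  have h4 : ((((fun a : ℝ => x + a) ⁻¹' X ∪ (fun a : ℝ => x - a) ⁻¹' X) \ {0})ᶜ : Set ℝ) ∈ 𝓝 (0 : ℝ) :=
    h3.isClosed.isOpen_compl.mem_nhds (by simp)
  filter_upwards [mem_nhdsWithin_of_mem_nhds h4, self_mem_nhdsWithin] with a ha ha0
  have ha1 : a ≠ 0 := ne_of_gt ha0
  constructor
  · intro h
    exact ha ⟨Or.inl h, ha1⟩
  · intro h
    exact ha ⟨Or.inr h, ha1⟩

private theorem Crz_lt (ε : ℝ) (hε : 0 < ε) : ∀ᶠ a in 𝓝[>] (0 : ℝ), 0 < a ∧ a < ε := by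
  filter_upwards [self_mem_nhdsWithin, mem_nhdsWithin_of_mem_nhds (Iio_mem_nhds hε)] with a h1 h2
  exact ⟨h1, h2⟩

theorem crn_hor {U : Set V} {T : Finset (ℝ × ℝ × ℝ)} {C : Set V} (hU : IsOpen U) (h : TB U T C) (w : V)
    (hw : ∀ l ∈ T, l.1 = 0 → l.2.2 ≠ l.2.1 * w.2) : Crn (ind U) w 0 := by
  obtain ⟨X, hX, hloc⟩ := loc h w.2
  have key : ∀ x, x ∉ X → ∀ᶠ b in 𝓝[>] (0 : ℝ), ind U (x, w.2 + b) = ind U (x, w.2 - b) := by
    intro x hx
    obtain ⟨ε, hε, hz⟩ := hloc x hx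
    obtain ⟨n, hn⟩ := full hU w.2 x ε (fun z h1 h2 h3 => by
      obtain ⟨-, l, hl, hl0, hl1⟩ := hz z h1 h2 h3
      exact hw l hl hl0 hl1)
    filter_upwards [Crz_lt ε hε] with b hb
    rw [hn x (w.2 + b) (by simpa using hε) (by simp [abs_of_pos hb.1, hb.2]),
      hn x (w.2 - b) (by simpa using hε) (by simp [abs_of_pos hb.1, hb.2])]
  unfold Crn
  filter_upwards [Crz_small hX w.1] with a ha
  filter_upwards [key _ ha.1, key _ ha.2] with b h1 h2
  unfold md
  rw [h1, h2]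
  ring

theorem crn_off {U : Set V} {T : Finset (ℝ × ℝ × ℝ)} {C : Set V} (hU : IsOpen U) (h : TB U T C) (t : ℝ) :
    ∃ X : Set ℝ, X.Finite ∧ ∀ x, x ∉ X → Crn (ind U) (x, t) 0 := by
  obtain ⟨X, hX, hloc⟩ := loc h t
  refine ⟨X, hX, fun x hx => ?_⟩
  obtain ⟨ε, hε, hz⟩ := hloc x hx
  have hz' : ∀ z : V, |z.1 - x| < ε → |z.2 - t| < ε → z ∈ frontier U → z.2 = t :=
    fun z h1 h2 h3 => (hz z h1 h2 h3).1
  obtain ⟨n, hn⟩ := half hU t x ε hz' 1 (Or.inl rfl)
  obtain ⟨m, hm⟩ := half hU t x ε hz' (-1) (Or.inr rfl)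
  unfold Crn
  filter_upwards [Crz_lt ε hε] with a ha
  filter_upwards [Crz_lt ε hε] with b hb
  unfold md
  have e1 := hn (x + a) b (by simp [abs_of_pos ha.1, ha.2]) hb.1 hb.2
  have e2 := hn (x - a) b (by simp [abs_of_pos ha.1, ha.2]) hb.1 hb.2
  have e3 := hm (x + a) b (by simp [abs_of_pos ha.1, ha.2]) hb.1 hb.2
  have e4 := hm (x - a) b (by simp [abs_of_pos ha.1, ha.2]) hb.1 hb.2
  have f1 : t + 1 * b = t + b := by ring
  have f2 : t + -1 * b = t - b := by ring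
  rw [f1] at e1 e2
  rw [f2] at e3 e4
  simp only
  rw [e1, e2, e3, e4]
  ring

theorem crn_fin {U : Set V} {T : Finset (ℝ × ℝ × ℝ)} {C : Set V} (hU : IsOpen U) (h : TB U T C) :
    {w | ¬ Crn (ind U) w 0}.Finite := by
  classical
  choose X hX hXc using fun t : ℝ => crn_off hU h t
  have hfin : (⋃ l ∈ T, (X (l.2.2 / l.2.1)) ×ˢ ({l.2.2 / l.2.1} : Set ℝ) : Set V).Finite := by
    refine T.finite_toSet.biUnion ?_
    intro l _
    exact (hX _).prod (Set.finite_singleton _)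
  refine hfin.subset ?_
  intro w hw
  have h1 : ∃ l ∈ T, l.1 = 0 ∧ l.2.2 = l.2.1 * w.2 := by
    by_contra hcon
    push Not at hcon
    exact hw (crn_hor hU h w (fun l hl h0 => hcon l hl h0))
  obtain ⟨l, hl, h0, h2⟩ := h1
  have h3 : l.2.1 ≠ 0 := by
    rcases h.nd l hl with h4 | h4
    · exact absurd h0 h4
    · exact h4
  have h5 : l.2.2 / l.2.1 = w.2 := by
    rw [div_eq_iff h3, h2]
    ring
  refine Set.mem_biUnion hl ⟨?_, ?_⟩
  · by_contra h6
    apply hw
    have h7 := hXc _ _ h6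
    rw [h5] at h7
    exact h7
  · change w.2 = l.2.2 / l.2.1
    exact h5.symm

end Pool.Agent.SQG
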