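import Mathlib

/-!
# SQG module Cyp: cyclotomic polynomials of prime power order

PROOF. `cyp`: `orderOf ζ ∣ p ^ j`, so `orderOf ζ = p ^ i` (`Nat.dvd_prime_pow`), `i ≥ 1` as `ζ ≠ 1`;
`q = Polynomial.cyclotomic (p ^ i) ℤ` is the minimal polynomial of the primitive root `ζ`
(`Polynomial.cyclotomic_eq_minpoly`), so it divides every integer polynomial vanishing at `ζ`
(`minpoly.isIntegrallyClosed_dvd`); `Polynomial.eval_one_cyclotomic_prime_pow`.
`cyN`: see the header of Pool/Agent/SQR/Cyc.lean (`cyc2`).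
-/

set_option autoImplicit false

namespace Pool.Agent.SQG

private theorem cyc_dvd (n : ℕ) (hn : 0 < n) (ζ : ℂˣ) (hζ : IsPrimitiveRoot ζ n) (P : Polynomial ℤ)
    (h : Polynomial.aeval ((ζ : ℂˣ) : ℂ) P = 0) : Polynomial.cyclotomic n ℤ ∣ P := by
  have h1 : IsPrimitiveRoot ((ζ : ℂˣ) : ℂ) n := IsPrimitiveRoot.coe_units_iff.2 hζ
  rw [Polynomial.cyclotomic_eq_minpoly h1 hn]
  exact minpoly.isIntegrallyClosed_dvd (h1.isIntegral hn) h

theorem cyp (p : ℕ) (hp : p.Prime) (j : ℕ) (ζ : ℂˣ) (hζ : ζ ^ (p ^ j) = 1) (h1 : ζ ≠ 1) :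
    ∃ q : Polynomial ℤ, q ≠ 0 ∧ Polynomial.aeval ((ζ : ℂˣ) : ℂ) q = 0 ∧ q.eval 1 = (p : ℤ) ∧
      ∀ P : Polynomial ℤ, Polynomial.aeval ((ζ : ℂˣ) : ℂ) P = 0 → q ∣ P := by
  have : Fact p.Prime := ⟨hp⟩
  obtain ⟨i, -, hi⟩ := (Nat.dvd_prime_pow hp).1 (orderOf_dvd_of_pow_eq_one hζ)
  have hi0 : i ≠ 0 := by
    rintro rfl
    rw [pow_zero, orderOf_eq_one_iff] at hi
    exact h1 hi
  obtain ⟨k, rfl⟩ := Nat.exists_eq_succ_of_ne_zero hi0
  have hpos : 0 < p ^ (k + 1) := pow_pos hp.pos _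
  have h2 : IsPrimitiveRoot ζ (p ^ (k + 1)) := hi ▸ IsPrimitiveRoot.orderOf ζ
  have h3 : IsPrimitiveRoot ((ζ : ℂˣ) : ℂ) (p ^ (k + 1)) := IsPrimitiveRoot.coe_units_iff.2 h2
  refine ⟨Polynomial.cyclotomic (p ^ (k + 1)) ℤ, Polynomial.cyclotomic_ne_zero _ _, ?_,
    Polynomial.eval_one_cyclotomic_prime_pow k, fun P hP => cyc_dvd _ hpos ζ h2 P hP⟩
  rw [Polynomial.cyclotomic_eq_minpoly h3 hpos]
  exact minpoly.aeval ℤ _

theorem cyN (N : ℕ) (hN : 0 < N) (P : Polynomial ℤ)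
    (h : ∀ ζ : ℂˣ, ζ ^ N = 1 → Polynomial.aeval ((ζ : ℂˣ) : ℂ) P = 0) : (Polynomial.X ^ N - 1 : Polynomial ℤ) ∣ P := by
  classical
  have hmon : (Polynomial.X ^ N - 1 : Polynomial ℤ).Monic := by
    have := Polynomial.monic_X_pow_sub_C (1 : ℤ) hN.ne'
    simpa using this
  rw [← Polynomial.map_dvd_map (Int.castRingHom ℂ) (Int.cast_injective) hmon]
  have e1 : (Polynomial.X ^ N - 1 : Polynomial ℤ).map (Int.castRingHom ℂ) = Polynomial.X ^ N - 1 := by simp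
  rw [e1, Polynomial.X_pow_sub_one_eq_prod hN (Complex.isPrimitiveRoot_exp N hN.ne')]
  refine Finset.prod_dvd_of_coprime ?_ ?_
  · intro a _ b _ hab
    exact Polynomial.pairwise_coprime_X_sub_C Function.injective_id hab
  · intro z hz
    rw [Polynomial.dvd_iff_isRoot, Polynomial.IsRoot.def]
    have hz1 : z ^ N = 1 := (Polynomial.mem_nthRootsFinset hN 1).1 hz
    have hz0 : z ≠ 0 := by
      rintro rfl
      rw [zero_pow hN.ne'] at hz1
      exact zero_ne_one hz1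
    have h2 := h (Units.mk0 z hz0) (by
      ext
      simpa using hz1)
    rw [Polynomial.eval_map]
    exact h2

end Pool.Agent.SQG
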