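import Mathlib

/-!
# SQG: definitions

`V` is the plane.  `O2` is the orthogonal group of the plane: `g = ⟨a, b, s⟩` has first column `(a, b)` and
determinant `s`.  `act g` is its action on `V`, `mv g c` the isometry `z ↦ g z + c`.
`TB U T C`: the frontier of `U` is contained in the union of the closed set `C`, which meets every line in finitely
many points, and of the lines of the finite set `T`.
`Crn u w k`: the mixed difference of `u` at the point `w` is `k`.
`Til`: a dissection of the unit square.  `Dat`: the relation between the corner functions.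
-/

set_option autoImplicit false

open AddMonoidAlgebra Filter Topology

noncomputable section

namespace Pool.Agent.SQG

/-- The plane. -/
abbrev V : Type := ℝ × ℝ

/-- The orthogonal group of the plane. -/
structure O2 where
  a : ℝ
  b : ℝ
  s : ℤˣ
  h : a * a + b * b = 1

namespace O2

@[ext] theorem ext' {g h : O2} (h1 : g.a = h.a) (h2 : g.b = h.b) (h3 : g.s = h.s) : g = h := by
  cases g; cases h; simp_all

/-- The determinant as a real number. -/
def t (g : O2) : ℝ := ((g.s : ℤ) : ℝ)

theorem t_sq (g : O2) : g.t * g.t = 1 := by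
  unfold t
  rw [← Int.cast_mul, ← Units.val_mul, Int.units_mul_self]
  simp

instance : Mul O2 :=
  ⟨fun g k => ⟨g.a * k.a - g.t * g.b * k.b, g.b * k.a + g.t * g.a * k.b, g.s * k.s, by
    have h1 := g.h
    have h2 := k.h
    have h3 := g.t_sq
    linear_combination (k.a * k.a + k.b * k.b) * h1 + h2 + (g.a * g.a + g.b * g.b) * k.b * k.b * h3⟩⟩

instance : One O2 := ⟨⟨1, 0, 1, by norm_num⟩⟩

instance : Inv O2 := ⟨fun g => ⟨g.a, -(g.t * g.b), g.s, by
  have h1 := g.h
  have h3 := g.t_sq
  linear_combination h1 + g.b * g.b * h3⟩⟩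

/-- The half turn. -/
instance : Neg O2 := ⟨fun g => ⟨-g.a, -g.b, g.s, by
  have h1 := g.h
  linear_combination h1⟩⟩

@[simp] theorem mul_a (g k : O2) : (g * k).a = g.a * k.a - g.t * g.b * k.b := rfl
@[simp] theorem mul_b (g k : O2) : (g * k).b = g.b * k.a + g.t * g.a * k.b := rfl
@[simp] theorem mul_s (g k : O2) : (g * k).s = g.s * k.s := rfl
@[simp] theorem one_a : (1 : O2).a = 1 := rfl
@[simp] theorem one_b : (1 : O2).b = 0 := rfl
@[simp] theorem one_s : (1 : O2).s = 1 := rfl
@[simp] theorem inv_a (g : O2) : g⁻¹.a = g.a := rfl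
@[simp] theorem inv_b (g : O2) : g⁻¹.b = -(g.t * g.b) := rfl
@[simp] theorem inv_s (g : O2) : g⁻¹.s = g.s := rfl
@[simp] theorem neg_a (g : O2) : (-g).a = -g.a := rfl
@[simp] theorem neg_b (g : O2) : (-g).b = -g.b := rfl
@[simp] theorem neg_s (g : O2) : (-g).s = g.s := rfl
@[simp] theorem one_t : (1 : O2).t = 1 := by simp [t]
@[simp] theorem mul_t (g k : O2) : (g * k).t = g.t * k.t := by simp [t]
@[simp] theorem inv_t (g : O2) : g⁻¹.t = g.t := rfl
@[simp] theorem neg_t (g : O2) : (-g).t = g.t := rfl

instance : Group O2 :=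
  Group.ofLeftAxioms
    (by
      intro x y z
      apply ext'
      · simp only [mul_a, mul_b, mul_t]
        linear_combination (-(x.a * y.b * y.t * z.b)) * x.t_sq
      · simp only [mul_a, mul_b, mul_t]
        linear_combination (-(x.b * y.b * y.t * z.b)) * x.t_sq
      · simp only [mul_s, mul_assoc])
    (by
      intro x
      apply ext' <;> simp)
    (by
      intro x
      have h1 := x.h
      have h3 := x.t_sq
      apply ext'
      · simp only [mul_a, inv_a, inv_b, inv_t, one_a]
        linear_combination h1 + x.b * x.b * h3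
      · simp only [mul_b, inv_a, inv_b, inv_t, one_b]
        ring
      · simp only [mul_s, inv_s, one_s, Int.units_mul_self])

end O2

/-- The action on the plane. -/
def act (g : O2) : V →+ V where
  toFun z := (g.a * z.1 - g.t * g.b * z.2, g.b * z.1 + g.t * g.a * z.2)
  map_zero' := by simp
  map_add' x y := by
    ext
    · simp; ring
    · simp; ring

theorem act_apply (g : O2) (z : V) : act g z = (g.a * z.1 - g.t * g.b * z.2, g.b * z.1 + g.t * g.a * z.2) := rfl

@[simp] theorem act_one (z : V) : act 1 z = z := by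
  ext <;> simp [act_apply]

theorem act_mul (g k : O2) (z : V) : act (g * k) z = act g (act k z) := by
  ext
  · simp only [act_apply, O2.mul_a, O2.mul_b, O2.mul_t]
    linear_combination (-(g.a * k.b * k.t * z.2)) * g.t_sq
  · simp only [act_apply, O2.mul_a, O2.mul_b, O2.mul_t]
    linear_combination (-(g.b * k.b * k.t * z.2)) * g.t_sq

@[simp] theorem act_inv_act (g : O2) (z : V) : act g⁻¹ (act g z) = z := by
  rw [← act_mul, inv_mul_cancel, act_one]

@[simp] theorem act_act_inv (g : O2) (z : V) : act g (act g⁻¹ z) = z := by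
  rw [← act_mul, mul_inv_cancel, act_one]

/-- The isometry `z ↦ g z + c`. -/
def mv (g : O2) (c : V) (z : V) : V := act g z + c

/-- The closed unit square. -/
def sq : Set V := {z | (0 ≤ z.1 ∧ z.1 ≤ 1) ∧ (0 ≤ z.2 ∧ z.2 ≤ 1)}

/-- The open unit square. -/
def sqo : Set V := {z | (0 < z.1 ∧ z.1 < 1) ∧ (0 < z.2 ∧ z.2 < 1)}

/-- The line `α x + β y = γ`. -/
def Ln (l : ℝ × ℝ × ℝ) : Set V := {z | l.1 * z.1 + l.2.1 * z.2 = l.2.2}

/-- `Ln l` is a line. -/
def Nd (l : ℝ × ℝ × ℝ) : Prop := l.1 ≠ 0 ∨ l.2.1 ≠ 0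

/-- The frontier of `U` is contained in the union of the closed set `C`, which meets every line in finitely many
points, and of the lines of `T`. -/
structure TB (U : Set V) (T : Finset (ℝ × ℝ × ℝ)) (C : Set V) : Prop where
  cl : IsClosed C
  fin : ∀ l : ℝ × ℝ × ℝ, Nd l → (C ∩ Ln l).Finite
  nd : ∀ l ∈ T, Nd l
  fr : frontier U ⊆ C ∪ ⋃ l ∈ T, Ln l

/-- The indicator function. -/
def ind (U : Set V) (z : V) : ℤ := by
  classical
  exact if z ∈ U then 1 else 0

/-- The mixed difference. -/
def md (u : V → ℤ) (w : V) (a b : ℝ) : ℤ :=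
  u (w.1 + a, w.2 + b) - u (w.1 + a, w.2 - b) - u (w.1 - a, w.2 + b) + u (w.1 - a, w.2 - b)

/-- The corner value of `u` at `w` is `k`. -/
def Crn (u : V → ℤ) (w : V) (k : ℤ) : Prop :=
  ∀ᶠ a in 𝓝[>] (0 : ℝ), ∀ᶠ b in 𝓝[>] (0 : ℝ), md u w a b = k

/-- A dissection of the unit square into the closures of `p` images of `U`. -/
structure Til (p : ℕ) (U : Set V) (g : Fin p → O2) (c : Fin p → V) : Prop where
  opn : IsOpen U
  reg : interior (closure U) ⊆ U
  disj : ∀ i j, i ≠ j → Disjoint (mv (g i) (c i) '' U) (mv (g j) (c j) '' U)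
  cover : ⋃ i, mv (g i) (c i) '' closure U = sq

/-- `h` maps the axes to the axes. -/
def Ax (h : O2) : Prop := h.a * h.b = 0

/-- For `Ax h`: the vector with `h (0,1)² = (0,1)² + shf h`. -/
def shf (h : O2) : V := (min h.a 0 + min (-(h.t * h.b)) 0, min h.b 0 + min (h.t * h.a) 0)

/-- The corner function of a parallelogram. -/
def qq (K : Type*) [CommRing K] {M : Type*} [AddCommGroup M] (e1 e2 : M) : AddMonoidAlgebra K M :=
  (single e1 (1 : K) - 1) * (single e2 (1 : K) - 1)

open Classical in
/-- The corner function of `h (0,1)²`. -/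
def BB (h : O2) : AddMonoidAlgebra ℤ V := if Ax h then single (shf h) 1 * qq ℤ ((1, 0) : V) (0, 1) else 0

/-- The relation between the corner functions. -/
structure Dat (p : ℕ) (g : Fin p → O2) (c : Fin p → V) (F : O2 → AddMonoidAlgebra ℤ V) : Prop where
  rel : ∀ h, ∑ i, single (act h (c i)) 1 * F (h * g i) = BB h
  fin : {h | F h ≠ 0}.Finite

/-- The sum of the linear parts is no left zero divisor modulo `p`. -/
def Inj (p : ℕ) (g : Fin p → O2) : Prop :=
  ∀ X : O2 →₀ ZMod p, (∀ h, ∑ i, X (h * g i) = 0) → X = 0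

/-- The sum of the coefficients. -/
def aug (K : Type*) [CommRing K] {M : Type*} [AddCommGroup M] : AddMonoidAlgebra K M →+* K :=
  ((AddMonoidAlgebra.lift K K M) 1 : AddMonoidAlgebra K M →ₐ[K] K).toRingHom

@[simp] theorem aug_single (K : Type*) [CommRing K] {M : Type*} [AddCommGroup M] (w : M) (a : K) :
    aug K (single w a) = a := by
  simp [aug, AddMonoidAlgebra.lift_single]

/-! ### Basic facts -/

theorem continuous_act (g : O2) : Continuous (act g : V → V) := by
  have h1 : Continuous fun z : V => (g.a * z.1 - g.t * g.b * z.2, g.b * z.1 + g.t * g.a * z.2) := by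
    fun_prop
  exact h1

theorem mv_mul (g h : O2) (c d z : V) : mv g c (mv h d z) = mv (g * h) (act g d + c) z := by
  unfold mv
  rw [map_add, act_mul, add_assoc]

theorem mv_inv_mv (g : O2) (c z : V) : mv g⁻¹ (-(act g⁻¹ c)) (mv g c z) = z := by
  unfold mv
  rw [map_add, act_inv_act]
  abel

theorem mv_mv_inv (g : O2) (c z : V) : mv g c (mv g⁻¹ (-(act g⁻¹ c)) z) = z := by
  unfold mv
  rw [map_add, map_neg, act_act_inv, act_act_inv]
  abel

theorem continuous_mv (g : O2) (c : V) : Continuous (mv g c) := by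
  unfold mv
  exact (continuous_act g).add continuous_const

/-- `mv g c` as a homeomorphism. -/
def mvH (g : O2) (c : V) : V ≃ₜ V where
  toFun := mv g c
  invFun := mv g⁻¹ (-(act g⁻¹ c))
  left_inv := mv_inv_mv g c
  right_inv := mv_mv_inv g c
  continuous_toFun := continuous_mv g c
  continuous_invFun := continuous_mv _ _

theorem mem_mv_image (g : O2) (c : V) (U : Set V) (z : V) : z ∈ mv g c '' U ↔ act g⁻¹ (z - c) ∈ U := by
  have h1 : mv g⁻¹ (-(act g⁻¹ c)) z = act g⁻¹ (z - c) := by
    unfold mv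
    rw [map_sub, sub_eq_add_neg]
  constructor
  · rintro ⟨u, hu, rfl⟩
    rw [← h1, mv_inv_mv]
    exact hu
  · intro h
    exact ⟨_, h, by rw [← h1, mv_mv_inv]⟩

theorem mem_act_image (g : O2) (U : Set V) (z : V) : z ∈ act g '' U ↔ act g⁻¹ z ∈ U := by
  constructor
  · rintro ⟨u, hu, rfl⟩
    rw [act_inv_act]
    exact hu
  · intro h
    exact ⟨_, h, act_act_inv g z⟩

end Pool.Agent.SQG
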