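import Pool.Agent.SQG.FDefs

/-!
# SQG module Dtm: the determinant of the system

PROOF. `rel` says `(mm p ρ g c).mulVec f = fun h => β h * qq ℤ e1 e2` (exchange the sums).  Multiply by the adjugate:
`adjugate * mm = det • 1` (`Matrix.adjugate_mul`), so `DD * f h = ∑ k, adjugate h k * β k * qq`.
`dd_inv`: `sg ρ γ` applied to the entries: `sg ρ γ (mm h k) = mm (γ * h) (γ * k)` (`ρ γ (ρ h (c i)) = ρ (γ * h) (c i)`,
`h * g i = k ↔ γ * h * g i = γ * k`), so `sg ρ γ DD = det (mm.submatrix (γ * ·) (γ * ·)) = DD`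
(`RingHom.map_det`, `Matrix.det_submatrix_equiv_self (Equiv.mulLeft γ)`).
`dd_aug`: `aug` applied to the entries of `mm` gives `nn` (`RingHom.map_det`).
-/

set_option autoImplicit false

open AddMonoidAlgebra

namespace Pool.Agent.SQG

theorem dd_rel {p : ℕ} {Γ M : Type} [Group Γ] [Fintype Γ] [AddCommGroup M] {ρ : Γ → M →+ M} {g : Fin p → Γ}
    {c : Fin p → M} {e1 e2 : M} {β f : Γ → AddMonoidAlgebra ℤ M} (D : FD p ρ g c e1 e2 β f) (h : Γ) :
    ∃ W, DD p ρ g c * f h = W * qq ℤ e1 e2 := by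
  classical
  have hm : ∀ h, ∑ k, mm p ρ g c h k * f k = β h * qq ℤ e1 e2 := by
    intro h
    rw [← D.rel h]
    simp only [mm, Finset.sum_mul]
    rw [Finset.sum_comm]
    refine Finset.sum_congr rfl fun i _ => ?_
    rw [Finset.sum_eq_single (h * g i)]
    · simp
    · intro b _ hb
      rw [if_neg (fun e => hb e.symm), zero_mul]
    · intro hb
      exact absurd (Finset.mem_univ _) hb
  have hmv : (mm p ρ g c).mulVec f = fun k => β k * qq ℤ e1 e2 := by
    funext k
    exact hm k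
  refine ⟨∑ k, (mm p ρ g c).adjugate h k * β k, ?_⟩
  have h1 : (mm p ρ g c).adjugate.mulVec ((mm p ρ g c).mulVec f) = (DD p ρ g c) • f := by
    rw [Matrix.mulVec_mulVec, Matrix.adjugate_mul, Matrix.smul_mulVec, Matrix.one_mulVec]
    rfl
  rw [hmv] at h1
  have h2 := congrFun h1 h
  simp only [Pi.smul_apply, smul_eq_mul] at h2
  rw [← h2]
  simp only [Matrix.mulVec, dotProduct, Finset.sum_mul, mul_assoc]

theorem dd_inv {p : ℕ} {Γ M : Type} [Group Γ] [Fintype Γ] [AddCommGroup M] {ρ : Γ → M →+ M} {g : Fin p → Γ}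
    {c : Fin p → M} {e1 e2 : M} {β f : Γ → AddMonoidAlgebra ℤ M} (D : FD p ρ g c e1 e2 β f) (γ : Γ) :
    sg ρ γ (DD p ρ g c) = DD p ρ g c := by
  classical
  have h1 : (sg ρ γ).mapMatrix (mm p ρ g c) = (mm p ρ g c).submatrix (Equiv.mulLeft γ) (Equiv.mulLeft γ) := by
    ext1 h k
    simp only [RingHom.mapMatrix_apply, Matrix.map_apply, Matrix.submatrix_apply, mm, map_sum, Equiv.coe_mulLeft]
    refine Finset.sum_congr rfl fun i _ => ?_
    by_cases hk : h * g i = k
    · have hk' : γ * h * g i = γ * k := by rw [← hk, mul_assoc]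
      rw [if_pos hk, if_pos hk', sg_single, D.mul]
    · have hk' : ¬ (γ * h * g i = γ * k) := by
        intro e
        apply hk
        rw [mul_assoc] at e
        exact mul_left_cancel e
      rw [if_neg hk, if_neg hk', map_zero]
  have h2 : sg ρ γ (mm p ρ g c).det = ((sg ρ γ).mapMatrix (mm p ρ g c)).det := RingHom.map_det _ _
  have h3 : DD p ρ g c = (mm p ρ g c).det := rfl
  rw [h3, h2, h1, Matrix.det_submatrix_equiv_self]

theorem dd_aug {Γ M : Type} [Group Γ] [Fintype Γ] [AddCommGroup M] (p : ℕ) (ρ : Γ → M →+ M) (g : Fin p → Γ)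
    (c : Fin p → M) : aug ℤ (DD p ρ g c) = ND p g := by
  classical
  have h1 : ((aug ℤ) : AddMonoidAlgebra ℤ M →+* ℤ).mapMatrix (mm p ρ g c) = nn p g := by
    ext1 h k
    simp only [RingHom.mapMatrix_apply, Matrix.map_apply, mm, nn, map_sum]
    rw [Finset.card_filter]
    push_cast
    refine Finset.sum_congr rfl fun i _ => ?_
    by_cases hk : h * g i = k
    · rw [if_pos hk, if_pos hk]
      simp
    · rw [if_neg hk, if_neg hk, map_zero]
  have h2 : (aug ℤ) (mm p ρ g c).det = (((aug ℤ) : AddMonoidAlgebra ℤ M →+* ℤ).mapMatrix (mm p ρ g c)).det :=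
    RingHom.map_det _ _
  have h3 : DD p ρ g c = (mm p ρ g c).det := rfl
  have h4 : ND p g = (nn p g).det := rfl
  rw [h3, h2, h1, h4]

end Pool.Agent.SQG
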