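import Pool.Agent.SQG.Rwm
import Pool.Agent.SQG.Cop
import Pool.Agent.SQG.Cyp
import Pool.Agent.SQG.Dtm

/-!
# SQG module Dvd: divisibility of the corner functions

PROOF. `ev` of `qq ℤ e1 e2`: for `ζ ^ N1 = 1`, `ev lam1 w1 ζ (single e1 1 - 1) = 0` as `e1 = n1 • w1`,
`single e1 1 = (single w1 1) ^ n1 = aeval (single w1 1) (X ^ n1)`, `ζ ^ n1 = 1` (`N1 ∣ n1`); use `ev_self` with
`P = X ^ n1 - 1`.  From `dd_rel`: `ev (DD) * ev (f h) = 0`, so `ev lam1 w1 ζ (f h) = 0` (`k1`, domain).  `rowm` with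
`q = X ^ N1 - 1`, `Z = {ζ | ζ ^ N1 = 1}` (`cyN`): `f h = aeval (single w1 1) (X ^ N1 - 1) * f'`.  The same for
`lam2, w2`: `ev lam2 w2 ζ (f h) = 0`, and `ev lam2 w2 ζ (aeval (single w1 1) (X ^ N1 - 1)) ≠ 0` by `cop`
(`Ind w1 w2`), so `ev lam2 w2 ζ f' = 0` and `rowm` gives the second factor.
-/

set_option autoImplicit false

open AddMonoidAlgebra

namespace Pool.Agent.SQG

private theorem ev_e {M : Type} [AddCommGroup M] (w e : M) (lam : M →+ ℤ) (hw : lam w = 1) (n N : ℕ) (d : N ∣ n)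
    (he : e = n • w) (ζ : ℂˣ) (hζ : ζ ^ N = 1) : ev lam w ζ (single e (1 : ℤ) - 1) = 0 := by
  have h1 : lam e = (n : ℤ) := by rw [he, map_nsmul, hw]; simp
  have h2 : ζ ^ n = 1 := by
    obtain ⟨k, rfl⟩ := d
    rw [pow_mul, hζ, one_pow]
  rw [map_sub, map_one, ev_single, h1, zpow_natCast, h2, he, natCast_zsmul, sub_self, Int.cast_one, Units.val_one,
    mul_one, ← AddMonoidAlgebra.one_def, sub_self]

private theorem aeval_X {M : Type} [AddCommGroup M] (w : M) (N : ℕ) :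
    Polynomial.aeval (single w (1 : ℤ) : AddMonoidAlgebra ℤ M) (Polynomial.X ^ N - 1 : Polynomial ℤ) =
      single (N • w) (1 : ℤ) - 1 := by
  rw [map_sub, map_pow, Polynomial.aeval_X, map_one, AddMonoidAlgebra.single_pow, one_pow]

theorem dvdf {p : ℕ} {Γ M : Type} [Group Γ] [Fintype Γ] [AddCommGroup M] [AddMonoid.FG M]
    [IsAddTorsionFree M] {ρ : Γ → M →+ M} {g : Fin p → Γ} {c : Fin p → M} {e1 e2 : M}
    {β f : Γ → AddMonoidAlgebra ℤ M} (D : FD p ρ g c e1 e2 β f) (w1 w2 : M) (lam1 lam2 : M →+ ℤ)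
    (h1 : lam1 w1 = 1) (h2 : lam2 w2 = 1) (n1 n2 N1 N2 : ℕ) (hN1 : 0 < N1) (hN2 : 0 < N2) (d1 : N1 ∣ n1)
    (d2 : N2 ∣ n2) (he1 : e1 = n1 • w1) (he2 : e2 = n2 • w2) (hI : Ind w1 w2)
    (k1 : ∀ ζ : ℂˣ, ζ ^ N1 = 1 → ev lam1 w1 ζ (DD p ρ g c) ≠ 0)
    (k2 : ∀ ζ : ℂˣ, ζ ^ N2 = 1 → ev lam2 w2 ζ (DD p ρ g c) ≠ 0) (h : Γ) :
    ∃ Q, f h = qq ℤ (N1 • w1) (N2 • w2) * Q := by
  obtain ⟨W, hW⟩ := dd_rel D h
  have z1 : ∀ ζ : ℂˣ, ζ ^ N1 = 1 → ev lam1 w1 ζ (f h) = 0 := by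
    intro ζ hζ
    have a1 : ev lam1 w1 ζ (DD p ρ g c) * ev lam1 w1 ζ (f h) = 0 := by
      rw [← map_mul, hW]
      unfold qq
      rw [map_mul, map_mul, ev_e w1 e1 lam1 h1 n1 N1 d1 he1 ζ hζ, zero_mul, mul_zero]
    rcases mul_eq_zero.1 a1 with a2 | a2
    · exact absurd a2 (k1 ζ hζ)
    · exact a2
  have z2 : ∀ ζ : ℂˣ, ζ ^ N2 = 1 → ev lam2 w2 ζ (f h) = 0 := by
    intro ζ hζ
    have a1 : ev lam2 w2 ζ (DD p ρ g c) * ev lam2 w2 ζ (f h) = 0 := by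
      rw [← map_mul, hW]
      unfold qq
      rw [map_mul, map_mul, ev_e w2 e2 lam2 h2 n2 N2 d2 he2 ζ hζ, mul_zero, mul_zero]
    rcases mul_eq_zero.1 a1 with a2 | a2
    · exact absurd a2 (k2 ζ hζ)
    · exact a2
  obtain ⟨f', hf'⟩ := rowm w1 lam1 h1 (Polynomial.X ^ N1 - 1) {ζ | ζ ^ N1 = 1} (fun P hP => cyN N1 hN1 P hP) (f h) z1
  have z3 : ∀ ζ : ℂˣ, ζ ^ N2 = 1 → ev lam2 w2 ζ f' = 0 := by
    intro ζ hζ
    have a1 := z2 ζ hζ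
    rw [hf', map_mul] at a1
    rcases mul_eq_zero.1 a1 with a2 | a2
    · exact absurd a2 (cop w1 w2 lam2 hI ζ _ (Polynomial.X_pow_sub_C_ne_zero hN1 1))
    · exact a2
  obtain ⟨Q, hQ⟩ := rowm w2 lam2 h2 (Polynomial.X ^ N2 - 1) {ζ | ζ ^ N2 = 1} (fun P hP => cyN N2 hN2 P hP) f' z3
  refine ⟨Q, ?_⟩
  rw [hf', hQ, aeval_X, aeval_X, qq, mul_assoc]

end Pool.Agent.SQG
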