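import Pool.Agent.SQG.Defs

/-!
# SQG: definitions for the finite case

`M` is a finitely generated torsion free abelian group with an action `ρ` of a finite group `Γ`.
`FD`: the linear system between the corner functions.  `mm` is its matrix, `nn` the matrix of its augmentations.
`ev lam w ζ` (for `lam w = 1`) is the evaluation `[w] = ζ`.
-/

set_option autoImplicit false

open AddMonoidAlgebra

noncomputable section

namespace Pool.Agent.SQG

variable {Γ M : Type} [Group Γ] [AddCommGroup M]

/-- The linear system between the corner functions. -/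
structure FD (p : ℕ) (ρ : Γ → M →+ M) (g : Fin p → Γ) (c : Fin p → M) (e1 e2 : M)
    (β f : Γ → AddMonoidAlgebra ℤ M) : Prop where
  one : ∀ m, ρ 1 m = m
  mul : ∀ h k m, ρ (h * k) m = ρ h (ρ k m)
  rel : ∀ h, ∑ i, single (ρ h (c i)) 1 * f (h * g i) = β h * qq ℤ e1 e2

/-- The matrix of the system. -/
def mm (p : ℕ) (ρ : Γ → M →+ M) (g : Fin p → Γ) (c : Fin p → M) : Matrix Γ Γ (AddMonoidAlgebra ℤ M) := by
  classical
  exact fun h k => ∑ i, if h * g i = k then single (ρ h (c i)) 1 else 0

/-- The matrix of the numbers of pieces. -/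
def nn (p : ℕ) (g : Fin p → Γ) : Matrix Γ Γ ℤ := by
  classical
  exact fun h k => ((Finset.univ.filter fun i => h * g i = k).card : ℤ)

/-- The determinant of the system. -/
def DD [Fintype Γ] (p : ℕ) (ρ : Γ → M →+ M) (g : Fin p → Γ) (c : Fin p → M) : AddMonoidAlgebra ℤ M := by
  classical
  exact (mm p ρ g c).det

/-- The group determinant. -/
def ND [Fintype Γ] (p : ℕ) (g : Fin p → Γ) : ℤ := by
  classical
  exact (nn p g).det

/-- The evaluation `[w] = ζ` (if `lam w = 1`). -/
def ev (lam : M →+ ℤ) (w : M) (ζ : ℂˣ) : AddMonoidAlgebra ℤ M →+* AddMonoidAlgebra ℂ M :=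
  ((AddMonoidAlgebra.lift ℤ (AddMonoidAlgebra ℂ M) M)
    { toFun := fun m => single (m.toAdd - lam m.toAdd • w) ((ζ ^ (lam m.toAdd) : ℂˣ) : ℂ)
      map_one' := by
        rw [AddMonoidAlgebra.one_def]
        simp only [toAdd_one, map_zero, zpow_zero, Units.val_one, zero_smul, sub_zero]
      map_mul' := fun m n => by
        rw [single_mul_single, ← Units.val_mul, ← zpow_add]
        simp only [toAdd_mul, map_add, add_smul]
        congr 1
        abel }).toRingHom

@[simp] theorem ev_single (lam : M →+ ℤ) (w : M) (ζ : ℂˣ) (m : M) (a : ℤ) :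
    ev lam w ζ (single m a) = single (m - lam m • w) ((a : ℂ) * ((ζ ^ (lam m) : ℂˣ) : ℂ)) := by
  have h1 : ev lam w ζ (single m a) = a • (single (m - lam m • w) ((ζ ^ (lam m) : ℂˣ) : ℂ) :
      AddMonoidAlgebra ℂ M) :=
    AddMonoidAlgebra.lift_single _ _ _
  rw [h1, ← zsmul_eq_mul]
  exact smul_single a _ _

/-- The endomorphism of the group ring induced by `ρ h`. -/
def sg (ρ : Γ → M →+ M) (h : Γ) : AddMonoidAlgebra ℤ M →+* AddMonoidAlgebra ℤ M :=
  mapDomainRingHom ℤ (ρ h)

omit [Group Γ] in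
@[simp] theorem sg_single (ρ : Γ → M →+ M) (h : Γ) (m : M) (a : ℤ) :
    sg ρ h (single m a) = single (ρ h m) a := by
  simp [sg]

/-- `e1` and `e2` are linearly independent over `ℤ`. -/
def Ind (e1 e2 : M) : Prop := ∀ a b : ℤ, a • e1 = b • e2 → a = 0 ∧ b = 0

end Pool.Agent.SQG
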