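import Pool.Agent.SQG.Top
import Pool.Agent.SQR.Fin

/-!
# SQG: transport to `EuclideanSpace ℝ (Fin 2)`
-/

set_option autoImplicit false

namespace Pool.Agent.SQG

open SQR (eV eV_apply mem_sq)

theorem ax_int (g : O2) (h : Ax g) : ∃ x y : ℤ, (x : ℝ) = g.a ∧ (y : ℝ) = g.b ∧ x * y = 0 ∧ x * x + y * y = 1 := by
  have h1 := g.h
  rcases mul_eq_zero.1 h with h2 | h2
  · rw [h2] at h1
    have h3 : g.b * g.b = 1 := by linarith
    rcases mul_self_eq_one_iff.1 h3 with h4 | h4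
    · exact ⟨0, 1, by simp [h2], by simp [h4], by norm_num, by norm_num⟩
    · exact ⟨0, -1, by simp [h2], by simp [h4], by norm_num, by norm_num⟩
  · rw [h2] at h1
    have h3 : g.a * g.a = 1 := by linarith
    rcases mul_self_eq_one_iff.1 h3 with h4 | h4
    · exact ⟨1, 0, by simp [h4], by simp [h2], by norm_num, by norm_num⟩
    · exact ⟨-1, 0, by simp [h4], by simp [h2], by norm_num, by norm_num⟩

/-- The integer matrix. -/
def iM (x y s : ℤ) : Matrix (Fin 2) (Fin 2) ℤ := !![x, -(s * y); y, s * x]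

theorem iM_orth (x y s : ℤ) (h : x * x + y * y = 1) (hs : s * s = 1) : iM x y s * (iM x y s).transpose = 1 := by
  ext i j
  fin_cases i <;> fin_cases j <;> simp [iM, Matrix.mul_apply, Fin.sum_univ_two]
  · linear_combination h + y * y * hs
  · linear_combination (-(x * y)) * hs
  · linear_combination (-(x * y)) * hs
  · linear_combination h + x * x * hs

theorem sqr_hyp {p : ℕ} (hp : p.Prime) (hp2 : p ≠ 2) (x y : Fin p → ℤ) (s : Fin p → ℤ)
    (h0 : ∀ i, x i * y i = 0) (h1 : ∀ i, x i * x i + y i * y i = 1)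
    (h : (∀ i, y i = 0) ∨ (p % 4 = 3 ∧ ∀ i, s i = 1)) :
    (∀ i j, ((iM (x i) (y i) (s i)).transpose * iM (x j) (y j) (s j)).transpose =
      (iM (x i) (y i) (s i)).transpose * iM (x j) (y j) (s j)) ∨
      ¬ (p : ℤ) ∣ (∑ i, iM (x i) (y i) (s i)).det := by
  rcases h with h | ⟨hp4, hs⟩
  · left
    intro i j
    ext k l
    fin_cases k <;> fin_cases l <;> simp [iM, Matrix.mul_apply, Fin.sum_univ_two, h i, h j]
  · by_cases hd : (p : ℤ) ∣ (∑ i, iM (x i) (y i) (s i)).det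
    · left
      have hpar : ∀ i, |x i| + |y i| = 1 ∧ (x i + y i) % 2 = 1 := by
        intro i
        have h4 := h1 i
        rcases mul_eq_zero.1 (h0 i) with h2 | h2
        · rw [h2, mul_zero, zero_add] at h4
          rcases mul_self_eq_one_iff.1 h4 with h5 | h5 <;> rw [h2, h5] <;> norm_num
        · rw [h2, mul_zero, add_zero] at h4
          rcases mul_self_eq_one_iff.1 h4 with h5 | h5 <;> rw [h2, h5] <;> norm_num
      have hdet : (∑ i, iM (x i) (y i) (s i)).det = (∑ i, x i) ^ 2 + (∑ i, y i) ^ 2 := by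
        have h5 : (∑ i, iM (x i) (y i) (s i)) = iM (∑ i, x i) (∑ i, y i) 1 := by
          ext k l
          fin_cases k <;> fin_cases l <;> simp [iM, Matrix.sum_apply, hs]
        rw [h5]
        simp only [iM, Matrix.det_fin_two_of]
        ring
      rw [hdet] at hd
      have hXY : (p : ℤ) ∣ (∑ i, x i) ∧ (p : ℤ) ∣ ∑ i, y i := by
        have : Fact p.Prime := ⟨hp⟩
        set X : ℤ := ∑ i, x i
        set Y : ℤ := ∑ i, y i
        have h6 : ((X : ZMod p)) ^ 2 + (Y : ZMod p) ^ 2 = 0 := by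
          have := (ZMod.intCast_zmod_eq_zero_iff_dvd (X ^ 2 + Y ^ 2) p).2 hd
          simpa using this
        have h7 : ¬ IsSquare (-1 : ZMod p) := by
          rw [ZMod.exists_sq_eq_neg_one_iff]
          simp [hp4]
        have h8 : (Y : ZMod p) = 0 := by
          by_contra hY
          apply h7
          refine ⟨(X : ZMod p) / Y, ?_⟩
          field_simp
          linear_combination -h6
        have h9 : (X : ZMod p) = 0 := by
          rw [h8] at h6
          simpa using h6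
        exact ⟨(ZMod.intCast_zmod_eq_zero_iff_dvd X p).1 h9, (ZMod.intCast_zmod_eq_zero_iff_dvd Y p).1 h8⟩
      have hsum : (∑ i, |x i|) + ∑ i, |y i| = p := by
        rw [← Finset.sum_add_distrib, Finset.sum_congr rfl fun i _ => (hpar i).1]
        simp
      have hX := Finset.abs_sum_le_sum_abs x Finset.univ
      have hY := Finset.abs_sum_le_sum_abs y Finset.univ
      have hx0 : 0 ≤ ∑ i, |x i| := Finset.sum_nonneg fun i _ => abs_nonneg _
      have hy0 : 0 ≤ ∑ i, |y i| := Finset.sum_nonneg fun i _ => abs_nonneg _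
      have hne : (∑ i, x i) ≠ 0 ∨ (∑ i, y i) ≠ 0 := by
        by_contra hc
        push Not at hc
        have h6 : (∑ i, (x i + y i)) % 2 = (p : ℤ) % 2 := by
          rw [Finset.sum_int_mod, Finset.sum_congr rfl fun i _ => (hpar i).2]
          simp
        rw [Finset.sum_add_distrib, hc.1, hc.2] at h6
        have h7 : p % 2 = 1 := (hp.eq_two_or_odd).resolve_left hp2
        omega
      rcases hne with hne | hne
      · have h6 : (p : ℤ) ≤ |∑ i, x i| := Int.le_of_dvd (abs_pos.2 hne) ((dvd_abs _ _).2 hXY.1)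
        have h7 : ∑ i, |y i| = 0 := by linarith
        have h8 : ∀ i, y i = 0 := fun i =>
          abs_eq_zero.1 ((Finset.sum_eq_zero_iff_of_nonneg fun i _ => abs_nonneg _).1 h7 i (Finset.mem_univ i))
        intro i j
        ext k l
        fin_cases k <;> fin_cases l <;> simp [iM, Matrix.mul_apply, Fin.sum_univ_two, h8 i, h8 j]
      · have h6 : (p : ℤ) ≤ |∑ i, y i| := Int.le_of_dvd (abs_pos.2 hne) ((dvd_abs _ _).2 hXY.2)
        have h7 : ∑ i, |x i| = 0 := by linarith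
        have h8 : ∀ i, x i = 0 := fun i =>
          abs_eq_zero.1 ((Finset.sum_eq_zero_iff_of_nonneg fun i _ => abs_nonneg _).1 h7 i (Finset.mem_univ i))
        intro i j
        ext k l
        fin_cases k <;> fin_cases l <;> simp [iM, Matrix.mul_apply, Fin.sum_univ_two, h8 i, h8 j]
    · right
      exact hd

theorem mv_toM (g : O2) (a c x : EuclideanSpace ℝ (Fin 2)) :
    (∀ k, x k = (∑ l, toM g k l * a l) + c k) ↔ eV x = mv g (eV c) (eV a) := by
  rw [Fin.forall_fin_two]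
  simp only [toM, Fin.sum_univ_two, eV_apply, mv, act_apply, Prod.ext_iff, Prod.fst_add, Prod.snd_add,
    Matrix.of_apply, Matrix.cons_val', Matrix.cons_val_zero, Matrix.cons_val_one, Matrix.cons_val_fin_one]
  constructor
  · rintro ⟨h1, h2⟩
    exact ⟨by linear_combination h1, by linear_combination h2⟩
  · rintro ⟨h1, h2⟩
    exact ⟨by linear_combination h1, by linear_combination h2⟩

theorem iM_cast (g : O2) (x y : ℤ) (hx : (x : ℝ) = g.a) (hy : (y : ℝ) = g.b) (k l : Fin 2) :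
    ((iM x y (g.s : ℤ) k l : ℤ) : ℝ) = toM g k l := by
  fin_cases k <;> fin_cases l <;> simp [iM, toM, hx, hy, O2.t]

/-- The pieces in coordinates. -/
theorem top_til (p : ℕ) (A : Set (EuclideanSpace ℝ (Fin 2)))
    (γ : Fin p → O2)
    (c : Fin p → EuclideanSpace ℝ (Fin 2)) (P : Fin p → Set (EuclideanSpace ℝ (Fin 2)))
    (hP : ∀ i, P i = {x | ∃ a ∈ A, ∀ k, x k = (∑ l, toM (γ i) k l * a l) + c i k})
    (hreg : ∀ i, closure (interior (P i)) = P i)
    (hdisj : ∀ i j, i ≠ j → Disjoint (interior (P i)) (interior (P j)))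
    (hcov : (⋃ i, P i) = {x : EuclideanSpace ℝ (Fin 2) | ∀ c, 0 ≤ x c ∧ x c ≤ 1})
    (C : Set (EuclideanSpace ℝ (Fin 2))) (hC : IsClosed C)
    (hCl : ∀ l : ℝ × ℝ × ℝ, (l.1 ≠ 0 ∨ l.2.1 ≠ 0) → (C ∩ {x | l.1 * x 0 + l.2.1 * x 1 = l.2.2}).Finite)
    (T : Finset (ℝ × ℝ × ℝ)) (hTn : ∀ l ∈ T, l.1 ≠ 0 ∨ l.2.1 ≠ 0)
    (hfr : frontier A ⊆ C ∪ ⋃ l ∈ T, {x | l.1 * x 0 + l.2.1 * x 1 = l.2.2})
    (i0 : Fin p) :
    ∃ (U : Set V) (c' : Fin p → V) (T' : Finset (ℝ × ℝ × ℝ)) (C' : Set V),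
      Til p U (fun i => γ i * (γ i0)⁻¹) c' ∧ TB U T' C' ∧
      ∀ i, eV '' P i = mv (γ i * (γ i0)⁻¹) (c' i) '' (eV '' P i0) := by
  set A' : Set V := eV '' A with hA'
  -- the pieces in the plane
  have hP' : ∀ i, eV '' P i = mv (γ i) (eV (c i)) '' A' := by
    intro i
    rw [hP i]
    ext z
    constructor
    · rintro ⟨x, ⟨a, ha, hx⟩, rfl⟩
      refine ⟨eV a, ⟨a, ha, rfl⟩, ?_⟩
      exact ((mv_toM (γ i) a (c i) x).1 hx).symm
    · rintro ⟨_, ⟨a, ha, rfl⟩, rfl⟩
      refine ⟨eV.symm (mv (γ i) (eV (c i)) (eV a)), ⟨a, ha, ?_⟩, by simp⟩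
      rw [mv_toM, Homeomorph.apply_symm_apply]
  have him : ∀ i (B : Set V), mv (γ i) (eV (c i)) '' B = mvH (γ i) (eV (c i)) '' B := fun i B => rfl
  -- `A'` is regular closed
  have hA1 : closure (interior A') = A' := by
    have h1 : eV '' closure (interior (P i0)) = eV '' P i0 := by rw [hreg]
    rw [eV.image_closure, eV.image_interior, hP', him, ← Homeomorph.image_interior,
      ← Homeomorph.image_closure] at h1
    exact (mvH (γ i0) (eV (c i0))).injective.image_injective h1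
  have hInt : ∀ i, eV '' interior (P i) = mv (γ i) (eV (c i)) '' interior A' := by
    intro i
    rw [eV.image_interior, hP', him, him, ← Homeomorph.image_interior]
  set U : Set V := mv (γ i0) (eV (c i0)) '' interior A' with hU
  set g' : Fin p → O2 := fun i => γ i * (γ i0)⁻¹ with hg'
  set c' : Fin p → V := fun i => eV (c i) - act (g' i) (eV (c i0)) with hc'
  have hmv : ∀ i z, mv (g' i) (c' i) (mv (γ i0) (eV (c i0)) z) = mv (γ i) (eV (c i)) z := by
    intro i z
    rw [mv_mul]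
    congr 1
    · rw [hg']
      simp only [inv_mul_cancel_right]
    · rw [hc']
      simp only
      abel
  have hmv' : ∀ i (B : Set V), mv (g' i) (c' i) '' (mv (γ i0) (eV (c i0)) '' B) = mv (γ i) (eV (c i)) '' B := by
    intro i B
    rw [← Set.image_comp]
    exact Set.image_congr fun z _ => hmv i z
  have hcl : closure U = eV '' P i0 := by
    rw [hU, him, ← Homeomorph.image_closure, hA1, hP', him]
  have hT : Til p U g' c' := by
    refine ⟨?_, ?_, ?_, ?_⟩
    · rw [hU, him]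
      exact (Homeomorph.isOpen_image _).2 isOpen_interior
    · rw [hcl, ← eV.image_interior, hInt]
    · intro i j hij
      rw [hU, hmv', hmv', ← hInt, ← hInt]
      exact (Set.disjoint_image_iff eV.injective).2 (hdisj i j hij)
    · rw [hcl]
      have h1 : ⋃ i, mv (g' i) (c' i) '' (eV '' P i0) = eV '' ⋃ i, P i := by
        rw [Set.image_iUnion]
        simp only [hP', hmv']
      rw [h1, hcov]
      ext z
      constructor
      · rintro ⟨x, hx, rfl⟩
        exact (mem_sq x).1 hx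
      · intro hz
        refine ⟨eV.symm z, ?_, by simp⟩
        rw [Set.mem_ofPred_eq, mem_sq, Homeomorph.apply_symm_apply]
        exact hz
  have hTB : TB (interior A') T (eV '' C) := by
    refine ⟨(Homeomorph.isClosed_image _).2 hC, ?_, hTn, ?_⟩
    · intro l hl
      have h1 : eV '' C ∩ Ln l = eV '' (C ∩ {x | l.1 * x 0 + l.2.1 * x 1 = l.2.2}) := by
        ext z
        constructor
        · rintro ⟨⟨x, hx, rfl⟩, h2⟩
          exact ⟨x, ⟨hx, h2⟩, rfl⟩
        · rintro ⟨x, ⟨hx, h2⟩, rfl⟩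
          exact ⟨⟨x, hx, rfl⟩, h2⟩
      rw [h1]
      exact (hCl l hl).image _
    · refine frontier_interior_subset.trans ?_
      rw [hA', ← Homeomorph.image_frontier]
      rintro _ ⟨x, hx, rfl⟩
      rcases hfr hx with h1 | h1
      · exact Or.inl ⟨x, h1, rfl⟩
      · right
        rw [Set.mem_iUnion₂] at h1 ⊢
        obtain ⟨l, hl, h2⟩ := h1
        exact ⟨l, hl, h2⟩
  obtain ⟨T', C', hTB'⟩ := tb_mv hTB (γ i0) (eV (c i0))
  exact ⟨U, c', T', C', hT, hTB', fun i => by rw [hP' i, hP' i0, hmv']⟩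

theorem top_main (p : ℕ) (hp : p.Prime) (hp2 : p ≠ 2) (A : Set (EuclideanSpace ℝ (Fin 2)))
    (γ : Fin p → O2)
    (c : Fin p → EuclideanSpace ℝ (Fin 2)) (P : Fin p → Set (EuclideanSpace ℝ (Fin 2)))
    (hP : ∀ i, P i = {x | ∃ a ∈ A, ∀ k, x k = (∑ l, toM (γ i) k l * a l) + c i k})
    (hreg : ∀ i, closure (interior (P i)) = P i)
    (hconn : ∀ i, IsConnected (interior (P i)))
    (hdisj : ∀ i j, i ≠ j → Disjoint (interior (P i)) (interior (P j)))
    (hcov : (⋃ i, P i) = {x : EuclideanSpace ℝ (Fin 2) | ∀ c, 0 ≤ x c ∧ x c ≤ 1})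
    (C : Set (EuclideanSpace ℝ (Fin 2))) (hC : IsClosed C)
    (hCl : ∀ l : ℝ × ℝ × ℝ, (l.1 ≠ 0 ∨ l.2.1 ≠ 0) → (C ∩ {x | l.1 * x 0 + l.2.1 * x 1 = l.2.2}).Finite)
    (T : Finset (ℝ × ℝ × ℝ)) (hTn : ∀ l ∈ T, l.1 ≠ 0 ∨ l.2.1 ≠ 0)
    (hfr : frontier A ⊆ C ∪ ⋃ l ∈ T, {x | l.1 * x 0 + l.2.1 * x 1 = l.2.2})
    (i0 : Fin p) (hyp : HypG p (fun i => γ i * (γ i0)⁻¹)) :
    ∃ σ : Equiv.Perm (Fin p),
      (∀ k : Fin p, P (σ k) =
        {x : EuclideanSpace ℝ (Fin 2) | (∀ c, 0 ≤ x c ∧ x c ≤ 1) ∧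
          ((k : ℕ) : ℝ) / p ≤ x 1 ∧ x 1 ≤ (((k : ℕ) : ℝ) + 1) / p}) ∨
      (∀ k : Fin p, P (σ k) =
        {x : EuclideanSpace ℝ (Fin 2) | (∀ c, 0 ≤ x c ∧ x c ≤ 1) ∧
          ((k : ℕ) : ℝ) / p ≤ x 0 ∧ x 0 ≤ (((k : ℕ) : ℝ) + 1) / p}) := by
  obtain ⟨U, c', T', C', hT, hTB', hPi⟩ := top_til p A γ c P hP hreg hdisj hcov C hC hCl T hTn hfr i0
  set g' : Fin p → O2 := fun i => γ i * (γ i0)⁻¹ with hg'
  have h1 : g' i0 = 1 := mul_inv_cancel _
  have hres := gen hp hp2 hT hTB' i0 h1 hyp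
  have hAx : ∀ i, Ax (g' i) := by
    intro i
    rcases hres with h | h
    · unfold Ax
      rw [h i, mul_zero]
    · exact h.2.2 i
  choose x y hx hy h0 h11 using fun i => ax_int (g' i) (hAx i)
  refine SQR.fin_main p hp hp2 (P i0) (fun i => iM (x i) (y i) ((g' i).s : ℤ))
    (fun i => iM_orth _ _ _ (h11 i) ?_) (fun i => eV.symm (c' i)) P ?_ hreg hconn hdisj hcov ?_
  · rw [← Units.val_mul, Int.units_mul_self]
    rfl
  · intro i
    have h2 : eV '' P i = mv (g' i) (c' i) '' (eV '' P i0) := hPi i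
    have h3 : P i = eV ⁻¹' (mv (g' i) (c' i) '' (eV '' P i0)) := by
      rw [← h2, Set.preimage_image_eq _ eV.injective]
    rw [h3]
    ext z
    simp only [Set.mem_preimage, Set.mem_ofPred_eq, iM_cast (g' i) _ _ (hx i) (hy i)]
    constructor
    · rintro ⟨_, ⟨a, ha, rfl⟩, h4⟩
      refine ⟨a, ha, ?_⟩
      rw [mv_toM, Homeomorph.apply_symm_apply]
      exact h4.symm
    · rintro ⟨a, ha, h4⟩
      rw [mv_toM, Homeomorph.apply_symm_apply] at h4
      exact ⟨_, ⟨a, ha, rfl⟩, h4.symm⟩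
  · refine sqr_hyp hp hp2 x y (fun i => ((g' i).s : ℤ)) h0 h11 ?_
    rcases hres with h | ⟨hp4, hs, -⟩
    · left
      intro i
      have := hy i
      rw [h i] at this
      exact_mod_cast this
    · right
      exact ⟨hp4, fun i => by simp [hs i]⟩

end Pool.Agent.SQG
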