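import Pool.Agent.SQG.Fin

/-!
# SQG: the main theorem for matrices
-/

set_option autoImplicit false

namespace Pool.Agent.SQG

theorem toM_pow (g : O2) (n : ℕ) : toM (g ^ n) = toM g ^ n := by
  induction n with
  | zero => rw [pow_zero, pow_zero, toM_one]
  | succ n ih => rw [pow_succ, pow_succ, toM_mul, ih]

theorem fin_ord (k : O2) (h : IsOfFinOrder k) : ∃ n : ℕ, 0 < n ∧ toM k ^ n = 1 := by
  obtain ⟨n, hn, h1⟩ := isOfFinOrder_iff_pow_eq_one.1 h
  exact ⟨n, hn, by rw [← toM_pow, h1, toM_one]⟩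

theorem ax_of_pow (k : O2) (hs : k.s = 1) (h : k ^ 4 = 1) : Ax k := by
  have ht : k.t = 1 := by simp [O2.t, hs]
  have h1 : (k * k) * (k * k) = 1 := by
    rw [← h]
    simp only [pow_succ, pow_zero, one_mul, mul_assoc]
  have h2 := congrArg O2.a h1
  have h3 := k.h
  simp only [O2.mul_a, O2.mul_b, O2.mul_t, ht, O2.one_a] at h2
  have h4 : (k.a * k.b) * (k.a * k.b) = 0 := by
    nlinarith
  exact mul_self_eq_zero.1 h4

/-- The group generated by the quotients. -/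
theorem mem_gen {p : ℕ} (γ : Fin p → O2) (i0 : Fin p) (Γ : Submonoid (Matrix (Fin 2) (Fin 2) ℝ))
    (hΓ : Γ = Submonoid.closure {m | ∃ i j, m = toM (γ i) * (toM (γ j)).transpose}) (k : O2) :
    k ∈ Subgroup.closure (Set.range fun i => γ i * (γ i0)⁻¹) ↔ toM k ∈ Γ := by
  have hT : ∀ m ∈ Γ, m.transpose ∈ Γ := by
    intro m hm
    rw [hΓ] at hm
    refine Submonoid.closure_induction ?_ ?_ ?_ hm
    · rintro _ ⟨i, j, rfl⟩
      rw [Matrix.transpose_mul, Matrix.transpose_transpose, hΓ]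
      exact Submonoid.subset_closure ⟨j, i, rfl⟩
    · rw [Matrix.transpose_one]
      exact Γ.one_mem
    · intro x y _ _ hx hy
      rw [Matrix.transpose_mul]
      exact Γ.mul_mem hy hx
  constructor
  · intro hk
    refine Subgroup.closure_induction (p := fun x _ => toM x ∈ Γ) ?_ ?_ ?_ ?_ hk
    · rintro _ ⟨i, rfl⟩
      simp only [toM_mul, toM_tr]
      rw [hΓ]
      exact Submonoid.subset_closure ⟨i, i0, rfl⟩
    · rw [toM_one]
      exact Γ.one_mem
    · intro x y _ _ hx hy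
      rw [toM_mul]
      exact Γ.mul_mem hx hy
    · intro x _ hx
      rw [toM_tr]
      exact hT _ hx
  · intro hk
    have h1 : ∀ m ∈ Γ, ∃ x : O2, x ∈ Subgroup.closure (Set.range fun i => γ i * (γ i0)⁻¹) ∧ toM x = m := by
      intro m hm
      rw [hΓ] at hm
      refine Submonoid.closure_induction ?_ ?_ ?_ hm
      · rintro _ ⟨i, j, rfl⟩
        refine ⟨(γ i * (γ i0)⁻¹) * (γ j * (γ i0)⁻¹)⁻¹, ?_, ?_⟩
        · exact Subgroup.mul_mem _ (Subgroup.subset_closure ⟨i, rfl⟩)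
            (Subgroup.inv_mem _ (Subgroup.subset_closure ⟨j, rfl⟩))
        · rw [← toM_tr, ← toM_mul]
          congr 1
          group
      · exact ⟨1, Subgroup.one_mem _, toM_one⟩
      · rintro _ _ _ _ ⟨x, hx, rfl⟩ ⟨y, hy, rfl⟩
        exact ⟨x * y, Subgroup.mul_mem _ hx hy, toM_mul x y⟩
    obtain ⟨x, hx, hxk⟩ := h1 _ hk
    rwa [← toM_inj hxk]

theorem ln_span (g k : O2) : ln g = ln k ↔
    Submodule.span ℝ {fun i => toM g i 0} = Submodule.span ℝ {fun i => toM k i 0} := by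
  have hg := g.h
  have hk := k.h
  have e : ∀ g : O2, (fun i => toM g i 0) = ![g.a, g.b] := by
    intro g
    ext i
    fin_cases i <;> simp [toM]
  rw [e, e]
  constructor
  · intro h
    rw [ln, ln, Prod.mk.injEq] at h
    obtain ⟨h1, h2⟩ := h
    have h3 : g.b * g.b = k.b * k.b := by linarith
    have ht : (g.a * k.a + g.b * k.b) * (g.a * k.a + g.b * k.b) = 1 := by
      have : (g.a * k.a + g.b * k.b) * (g.a * k.a + g.b * k.b) =
        (g.a * g.a) * (k.a * k.a) + 2 * (g.a * g.b) * (k.a * k.b) + (g.b * g.b) * (k.b * k.b) := by ring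
      rw [this, h1, h2, h3]
      linear_combination (k.a * k.a + k.b * k.b + 1) * hk
    have hv : ![g.a, g.b] = (g.a * k.a + g.b * k.b) • ![k.a, k.b] := by
      ext i
      fin_cases i
      · simp
        linear_combination (-g.a) * hg + g.a * h1 + g.b * h2
      · simp
        linear_combination (-g.b) * hg + g.a * h2 + g.b * h3
    rw [hv]
    refine Submodule.span_singleton_smul_eq (IsUnit.mk0 _ ?_) _
    intro h0
    rw [h0] at ht
    norm_num at ht
  · intro h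
    have h1 : ![g.a, g.b] ∈ Submodule.span ℝ {![k.a, k.b]} := by
      rw [← h]
      exact Submodule.mem_span_singleton_self _
    obtain ⟨t, ht⟩ := Submodule.mem_span_singleton.1 h1
    have h2 : t * k.a = g.a := by simpa using congrFun ht 0
    have h3 : t * k.b = g.b := by simpa using congrFun ht 1
    have h4 : t * t = 1 := by
      rw [← h2, ← h3] at hg
      linear_combination hg - t * t * hk
    rw [ln, ln, Prod.mk.injEq, ← h2, ← h3]
    constructor
    · linear_combination k.a * k.a * h4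
    · linear_combination k.a * k.b * h4

theorem det_inst {n : Type} [Fintype n] (d1 d2 : DecidableEq n) (M : Matrix n n ℤ) :
    @Matrix.det n d1 _ ℤ _ M = @Matrix.det n d2 _ ℤ _ M := by
  rw [Subsingleton.elim d1 d2]

/-- Transfer of the condition for a finite group. -/
theorem fin_grp {p : ℕ} (γ : Fin p → O2) (i0 : Fin p) (n : ℕ) (e : Fin n → Matrix (Fin 2) (Fin 2) ℝ)
    (he : Function.Injective e) (ho : ∀ a, e a * (e a).transpose = 1) (hm : ∀ a b, ∃ d, e d = e a * e b)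
    (ht : ∀ a, ∃ d, e d = (e a).transpose) (hg : ∀ i, ∃ d, e d = toM (γ i) * (toM (γ i0)).transpose)
    (hd : ¬ (p : ℤ) ^ (Set.ncard (Set.range fun a => Submodule.span ℝ {fun k => e a k 0})) ∣
      (Matrix.of fun a b : Fin n =>
        ((Set.ncard {i | e a * (toM (γ i) * (toM (γ i0)).transpose) = e b} : ℕ) : ℤ)).det) :
    ∃ (Γ : Subgroup O2) (_ : Fintype Γ) (g' : Fin p → Γ), (∀ i, (g' i : O2) = γ i * (γ i0)⁻¹) ∧
      ¬ ((p : ℤ) ^ (Set.ncard (Set.range fun h : Γ => ln (h : O2)))) ∣ ND p g' := by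
  classical
  choose x hx using fun a => ex_toM (e a) (ho a)
  have hxi : Function.Injective x := by
    intro a b h
    apply he
    rw [← hx, ← hx, h]
  have hq : ∀ i, toM (γ i * (γ i0)⁻¹) = toM (γ i) * (toM (γ i0)).transpose := fun i => by
    rw [toM_mul, toM_tr]
  let Γ : Subgroup O2 :=
    { carrier := Set.range x
      mul_mem' := by
        rintro _ _ ⟨a, rfl⟩ ⟨b, rfl⟩
        obtain ⟨d, hd'⟩ := hm a b
        exact ⟨d, toM_inj (by rw [toM_mul, hx, hx, hx, hd'])⟩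
      one_mem' := by
        obtain ⟨d, hd'⟩ := hg i0
        refine ⟨d, toM_inj ?_⟩
        rw [hx, hd', ← hq, mul_inv_cancel]
      inv_mem' := by
        rintro _ ⟨a, rfl⟩
        obtain ⟨d, hd'⟩ := ht a
        exact ⟨d, toM_inj (by rw [toM_tr, hx, hx, hd'])⟩ }
  let E : Fin n ≃ Γ := Equiv.ofInjective x hxi
  have hE : ∀ a, ((E a : Γ) : O2) = x a := fun a => rfl
  have hg' : ∀ i, γ i * (γ i0)⁻¹ ∈ Γ := by
    intro i
    obtain ⟨d, hd'⟩ := hg i
    exact ⟨d, toM_inj (by rw [hx, hd', hq])⟩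
  refine ⟨Γ, Fintype.ofEquiv _ E, fun i => ⟨_, hg' i⟩, fun i => rfl, ?_⟩
  have h1 : (Set.range fun h : Γ => ln (h : O2)).ncard =
      (Set.range fun a => Submodule.span ℝ {fun k => e a k 0}).ncard := by
    have h2 : (Set.range fun h : Γ => ln (h : O2)) = Set.range fun a => ln (x a) := by
      ext z
      constructor
      · rintro ⟨h, rfl⟩
        obtain ⟨a, rfl⟩ := E.surjective h
        exact ⟨a, rfl⟩
      · rintro ⟨a, rfl⟩
        exact ⟨E a, rfl⟩
    rw [h2]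
    have h3 : ∀ a, (Submodule.span ℝ {fun k => e a k 0}) = Submodule.span ℝ {fun k => toM (x a) k 0} := by
      intro a
      rw [hx]
    simp only [h3]
    symm
    refine Set.ncard_congr (fun s hs => ln (x (Classical.choose hs))) ?_ ?_ ?_
    · intro s hs
      exact ⟨_, rfl⟩
    · intro s t hs ht' h
      have h4 := Classical.choose_spec hs
      have h5 := Classical.choose_spec ht'
      simp only at h4 h5
      rw [← h4, ← h5]
      exact (ln_span _ _).1 h
    · rintro _ ⟨a, rfl⟩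
      refine ⟨_, ⟨a, rfl⟩, ?_⟩
      rw [ln_span]
      exact Classical.choose_spec (p := fun b => Submodule.span ℝ {fun k => toM (x b) k 0} =
        Submodule.span ℝ {fun k => toM (x a) k 0}) ⟨a, rfl⟩
  intro hdv
  apply hd
  rw [← h1]
  have h4 : ∀ (inst : Fintype Γ), (Matrix.of fun a b : Fin n =>
        ((Set.ncard {i | e a * (toM (γ i) * (toM (γ i0)).transpose) = e b} : ℕ) : ℤ)).det =
      @ND Γ _ inst p (fun i => (⟨_, hg' i⟩ : Γ)) := by
    intro inst
    have h5 : (Matrix.of fun a b : Fin n =>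
        ((Set.ncard {i | e a * (toM (γ i) * (toM (γ i0)).transpose) = e b} : ℕ) : ℤ)) =
        (nn p (fun i => (⟨_, hg' i⟩ : Γ))).submatrix E E := by
      ext a b
      rw [Matrix.submatrix_apply]
      unfold nn
      rw [Matrix.of_apply, Set.ncard_eq_toFinset_card']
      congr 2
      ext i
      simp only [Set.mem_toFinset, Set.mem_ofPred_eq, Finset.mem_filter, Finset.mem_univ, true_and]
      rw [← hq, ← hx, ← hx, ← toM_mul]
      constructor
      · intro h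
        apply Subtype.ext
        exact toM_inj h
      · intro h
        have := congrArg (fun k : Γ => toM (k : O2)) h
        exact this
    rw [h5]
    unfold ND
    exact (Matrix.det_submatrix_equiv_self E (nn p (fun i => (⟨_, hg' i⟩ : Γ)))).trans (det_inst _ _ _)
  rw [h4]
  exact hdv

/-- Transfer of the condition on zero divisors. -/
theorem fin_inj {p : ℕ} (γ : Fin p → O2) (i0 : Fin p) (Γ : Submonoid (Matrix (Fin 2) (Fin 2) ℝ))
    (hΓ : Γ = Submonoid.closure {m | ∃ i j, m = toM (γ i) * (toM (γ j)).transpose})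
    (h : ∀ X : Matrix (Fin 2) (Fin 2) ℝ →₀ ZMod p, (∀ k, k ∉ Γ → X k = 0) →
      (∀ k ∈ Γ, ∑ i, X (k * (toM (γ i) * (toM (γ i0)).transpose)) = 0) → X = 0) :
    Inj p (fun i => γ i * (γ i0)⁻¹) := by
  classical
  intro X hX
  by_contra hne
  obtain ⟨k0, hk0⟩ : ∃ k0, X k0 ≠ 0 := by
    by_contra hc
    push Not at hc
    exact hne (Finsupp.ext hc)
  let f : Matrix (Fin 2) (Fin 2) ℝ → ZMod p := fun m =>
    if hm : ∃ x : O2, toM x = m ∧ m ∈ Γ then X (k0 * Classical.choose hm) else 0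
  have hf : ∀ x : O2, toM x ∈ Γ → f (toM x) = X (k0 * x) := by
    intro x hx
    have hm : ∃ y : O2, toM y = toM x ∧ toM x ∈ Γ := ⟨x, rfl, hx⟩
    have h1 : f (toM x) = X (k0 * Classical.choose hm) := dif_pos hm
    rw [h1, toM_inj (Classical.choose_spec hm).1]
  have hf0 : ∀ m, m ∉ Γ → f m = 0 := by
    intro m hm
    exact dif_neg fun ⟨x, _, h2⟩ => hm h2
  let Y : Matrix (Fin 2) (Fin 2) ℝ →₀ ZMod p :=
    Finsupp.onFinset (X.support.image (fun k => toM (k0⁻¹ * k))) f (by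
      intro m hm
      by_cases h1 : ∃ x : O2, toM x = m ∧ m ∈ Γ
      · obtain ⟨x, rfl, h2⟩ := h1
        rw [hf x h2] at hm
        rw [Finset.mem_image]
        exact ⟨k0 * x, Finsupp.mem_support_iff.2 hm, by rw [inv_mul_cancel_left]⟩
      · exact absurd (dif_neg h1) hm)
  have hY : Y = 0 := by
    apply h
    · intro k hk
      exact hf0 k hk
    · intro k hk
      obtain ⟨x, hx, rfl⟩ : ∃ x : O2, x ∈ Subgroup.closure (Set.range fun i => γ i * (γ i0)⁻¹) ∧ toM x = k := by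
        have hk' := hk
        have ho : k * k.transpose = 1 := by
          rw [hΓ] at hk'
          refine Submonoid.closure_induction ?_ ?_ ?_ hk'
          · rintro _ ⟨i, j, rfl⟩
            rw [← toM_tr, ← toM_mul, ← toM_tr, ← toM_mul, mul_inv_cancel, toM_one]
          · simp
          · intro a b _ _ ha hb
            rw [Matrix.transpose_mul]
            calc a * b * (b.transpose * a.transpose) = a * (b * b.transpose) * a.transpose := by
                  simp only [Matrix.mul_assoc]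
              _ = 1 := by rw [hb, mul_one, ha]
        obtain ⟨x, rfl⟩ := ex_toM k ho
        exact ⟨x, (mem_gen γ i0 Γ hΓ x).2 hk, rfl⟩
      have h2 : ∀ i, Y (toM x * (toM (γ i) * (toM (γ i0)).transpose)) = X (k0 * x * (γ i * (γ i0)⁻¹)) := by
        intro i
        rw [← toM_tr, ← toM_mul, ← toM_mul, mul_assoc]
        apply hf
        rw [← mem_gen γ i0 Γ hΓ]
        exact Subgroup.mul_mem _ hx (Subgroup.subset_closure ⟨i, rfl⟩)
      rw [Finset.sum_congr rfl fun i _ => h2 i]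
      exact hX (k0 * x)
  apply hk0
  have h3 : Y (toM 1) = 0 := by rw [hY]; rfl
  have h4 : Y (toM 1) = X (k0 * 1) := hf 1 (by rw [toM_one]; exact Γ.one_mem)
  rw [mul_one] at h4
  rw [← h4, h3]

theorem sq_one (k : O2) (hs : k.s = 1) (h : k ^ 2 = 1) : k = 1 ∨ k = -1 := by
  have ht : k.t = 1 := by simp [O2.t, hs]
  rw [pow_two] at h
  have h2 := congrArg O2.a h
  have h3 := k.h
  simp only [O2.mul_a, ht, O2.one_a] at h2
  have hb : k.b * k.b = 0 := by linarith
  have hb' : k.b = 0 := mul_self_eq_zero.1 hb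
  have ha : k.a * k.a = 1 := by linarith
  rcases mul_self_eq_one_iff.1 ha with h4 | h4
  · left
    exact O2.ext' h4 hb' hs
  · right
    exact O2.ext' (by rw [h4, O2.neg_a, O2.one_a]) (by rw [hb', O2.neg_b, O2.one_b, neg_zero])
      (by rw [hs, O2.neg_s, O2.one_s])

theorem fin_a (p : ℕ) (hp : p.Prime) (hp2 : p ≠ 2) (A : Set (EuclideanSpace ℝ (Fin 2)))
    (g : Fin p → Matrix (Fin 2) (Fin 2) ℝ) (hg : ∀ i, g i * (g i).transpose = 1)
    (c : Fin p → EuclideanSpace ℝ (Fin 2)) (P : Fin p → Set (EuclideanSpace ℝ (Fin 2)))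
    (hP : ∀ i, P i = {x | ∃ a ∈ A, ∀ k, x k = (∑ l, g i k l * a l) + c i k})
    (hreg : ∀ i, closure (interior (P i)) = P i)
    (hconn : ∀ i, IsConnected (interior (P i)))
    (hdisj : ∀ i j, i ≠ j → Disjoint (interior (P i)) (interior (P j)))
    (hcov : (⋃ i, P i) = {x : EuclideanSpace ℝ (Fin 2) | ∀ c, 0 ≤ x c ∧ x c ≤ 1})
    (C : Set (EuclideanSpace ℝ (Fin 2))) (hC : IsClosed C)
    (hCl : ∀ l : ℝ × ℝ × ℝ, (l.1 ≠ 0 ∨ l.2.1 ≠ 0) → (C ∩ {x | l.1 * x 0 + l.2.1 * x 1 = l.2.2}).Finite)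
    (T : Finset (ℝ × ℝ × ℝ)) (hTn : ∀ l ∈ T, l.1 ≠ 0 ∨ l.2.1 ≠ 0)
    (hfr : frontier A ⊆ C ∪ ⋃ l ∈ T, {x | l.1 * x 0 + l.2.1 * x 1 = l.2.2})
    (Γ : Submonoid (Matrix (Fin 2) (Fin 2) ℝ))
    (hΓ : Γ = Submonoid.closure {m | ∃ i j, m = g i * (g j).transpose})
    (m : ℕ) (hm : m = 2 ∨ (m = 4 ∧ p % 4 = 3 ∧ ∀ i j, (g i).det = (g j).det))
    (hyp : ∀ k ∈ Γ, k.det = 1 → (∃ n : ℕ, 0 < n ∧ k ^ n = 1) → k ^ m = 1) :
    ∃ σ : Equiv.Perm (Fin p),
      (∀ k : Fin p, P (σ k) =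
        {x : EuclideanSpace ℝ (Fin 2) | (∀ c, 0 ≤ x c ∧ x c ≤ 1) ∧
          ((k : ℕ) : ℝ) / p ≤ x 1 ∧ x 1 ≤ (((k : ℕ) : ℝ) + 1) / p}) ∨
      (∀ k : Fin p, P (σ k) =
        {x : EuclideanSpace ℝ (Fin 2) | (∀ c, 0 ≤ x c ∧ x c ≤ 1) ∧
          ((k : ℕ) : ℝ) / p ≤ x 0 ∧ x 0 ≤ (((k : ℕ) : ℝ) + 1) / p}) := by
  choose γ hγ using fun i => ex_toM (g i) (hg i)
  obtain rfl : (fun i => toM (γ i)) = g := funext hγ
  let i0 : Fin p := ⟨0, hp.pos⟩
  refine top_main p hp hp2 A γ c P hP hreg hconn hdisj hcov C hC hCl T hTn hfr i0 ?_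
  have key : ∀ k ∈ Subgroup.closure (Set.range fun i => γ i * (γ i0)⁻¹), k.s = 1 → IsOfFinOrder k →
      k ^ m = 1 := by
    intro k hk hs hfo
    have hdet : (toM k).det = 1 := by
      rw [toM_det]
      simp [O2.t, hs]
    apply toM_inj
    rw [toM_pow, toM_one]
    exact hyp _ ((mem_gen γ i0 Γ hΓ k).1 hk) hdet (fin_ord k hfo)
  rcases hm with rfl | ⟨rfl, h4, hd⟩
  · left
    intro k hk hs hfo
    exact sq_one k hs (key k hk hs hfo)
  · right
    left
    have hs1 : ∀ i, (γ i * (γ i0)⁻¹).s = 1 := by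
      intro i
      apply t_one
      have h5 := hd i i0
      simp only [toM_det] at h5
      rw [O2.mul_t, O2.inv_t, h5, O2.t_sq]
    have hs : ∀ k ∈ Subgroup.closure (Set.range fun i => γ i * (γ i0)⁻¹), k.s = 1 := by
      intro k hk
      refine Subgroup.closure_induction (p := fun y _ => y.s = 1) ?_ ?_ ?_ ?_ hk
      · rintro _ ⟨i, rfl⟩
        exact hs1 i
      · rfl
      · intro x y _ _ h h'
        rw [O2.mul_s, h, h', one_mul]
      · intro x _ h
        rw [O2.inv_s, h]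
    refine ⟨h4, hs1, ?_⟩
    intro k hk hfo
    exact ax_of_pow k (hs k hk) (key k hk (hs k hk) hfo)

theorem fin_b (p : ℕ) (hp : p.Prime) (hp2 : p ≠ 2) (A : Set (EuclideanSpace ℝ (Fin 2)))
    (g : Fin p → Matrix (Fin 2) (Fin 2) ℝ) (hg : ∀ i, g i * (g i).transpose = 1)
    (c : Fin p → EuclideanSpace ℝ (Fin 2)) (P : Fin p → Set (EuclideanSpace ℝ (Fin 2)))
    (hP : ∀ i, P i = {x | ∃ a ∈ A, ∀ k, x k = (∑ l, g i k l * a l) + c i k})
    (hreg : ∀ i, closure (interior (P i)) = P i)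
    (hdisj : ∀ i j, i ≠ j → Disjoint (interior (P i)) (interior (P j)))
    (hcov : (⋃ i, P i) = {x : EuclideanSpace ℝ (Fin 2) | ∀ c, 0 ≤ x c ∧ x c ≤ 1})
    (C : Set (EuclideanSpace ℝ (Fin 2))) (hC : IsClosed C)
    (hCl : ∀ l : ℝ × ℝ × ℝ, (l.1 ≠ 0 ∨ l.2.1 ≠ 0) → (C ∩ {x | l.1 * x 0 + l.2.1 * x 1 = l.2.2}).Finite)
    (T : Finset (ℝ × ℝ × ℝ)) (hTn : ∀ l ∈ T, l.1 ≠ 0 ∨ l.2.1 ≠ 0)
    (hfr : frontier A ⊆ C ∪ ⋃ l ∈ T, {x | l.1 * x 0 + l.2.1 * x 1 = l.2.2})
    (Γ : Submonoid (Matrix (Fin 2) (Fin 2) ℝ))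
    (hΓ : Γ = Submonoid.closure {m | ∃ i j, m = g i * (g j).transpose}) (i0 : Fin p)
    (hyp : (∃ (n : ℕ) (e : Fin n → Matrix (Fin 2) (Fin 2) ℝ), Function.Injective e ∧
        (∀ a, e a * (e a).transpose = 1) ∧ (∀ a b, ∃ d, e d = e a * e b) ∧
        (∀ a, ∃ d, e d = (e a).transpose) ∧ (∀ i, ∃ d, e d = g i * (g i0).transpose) ∧
        ¬ (p : ℤ) ^ (Set.ncard (Set.range fun a => Submodule.span ℝ {fun k => e a k 0})) ∣
          (Matrix.of fun a b : Fin n => ((Set.ncard {i | e a * (g i * (g i0).transpose) = e b} : ℕ) : ℤ)).det) ∨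
      (∀ X : Matrix (Fin 2) (Fin 2) ℝ →₀ ZMod p, (∀ k, k ∉ Γ → X k = 0) →
        (∀ k ∈ Γ, ∑ i, X (k * (g i * (g i0).transpose)) = 0) → X = 0)) :
    False := by
  choose γ hγ using fun i => ex_toM (g i) (hg i)
  obtain rfl : (fun i => toM (γ i)) = g := funext hγ
  obtain ⟨U, c', T', C', hT, hTB', -⟩ := top_til p A γ c P hP hreg hdisj hcov C hC hCl T hTn hfr i0
  obtain ⟨F, D⟩ := geo hT hTB'
  rcases hyp with ⟨n, e, he, ho, hm, ht, hg', hd⟩ | h
  · obtain ⟨Γ', inst, g', hg2, hd2⟩ := fin_grp γ i0 n e he ho hm ht hg' hd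
    have D' : Dat p (fun i => (g' i : O2)) c' F := by
      simpa only [hg2] using D
    exact fnb hp hp2 Γ' g' c' F D' hd2
  · exact inf hp hp2 D (fin_inj γ i0 Γ hΓ h)

end Pool.Agent.SQG
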