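import Pool.Agent.SQG.Rwm
import Pool.Agent.SQG.Cop
import Pool.Agent.SQG.Cyp
import Pool.Agent.SQG.Dtm

/-!
# SQG module Key: the determinant does not vanish at roots of unity of order a power of p

PROOF. `key1` (one vector): suppose `ev lam w ζ G = 0`.  If `ζ = 1`, `aug_ev` gives `aug G = 0`, contradiction to
`hd`.  Otherwise take `q` from `cyp`.  Claim, by induction on `k ≤ o`: the product over the first `k` indices `j` of
`aeval (single (v j) 1) q` divides `G`.  Step: `G = Π * E`; with `w' = v k`, `lam' = l k`: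
`ev lam' w' ζ G = 0` (hypothesis `h0`), `ev lam' w' ζ Π ≠ 0` (a product of nonzero elements by `cop`, domain), so
`ev lam' w' ζ E = 0`, and `rowm` (with `Z = {ζ}`) gives `aeval (single w' 1) q ∣ E`.  For `k = o` apply `aug`:
`aug_aeval`, `q.eval 1 = p`: `p ^ o ∣ aug G`, contradiction.
`key`: apply `key1` to `G = DD p ρ g c`, `v j = ρ (t j) w`, `l j = lam ∘ ρ (t j)⁻¹` (`l j (v j) = lam w = 1`).  The
hypothesis `h0`: `ev (l j) (v j) ζ (sg ρ (t j) G)` is the image of `ev lam w ζ G` under `mapDomain (ρ (t j))`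
(check on `single`), so it vanishes, and `sg ρ (t j) G = G` by `dd_inv`.  Independence of the `v j`: `Ind (ρ (t i) w)
(ρ (t j) w)` follows from `Ind (ρ (t i) e) (ρ (t j) e)` with `e = n • w`: multiply `a • .. = b • ..` by `n`.
(The case `o = 0` is trivial for `key1`, as `p ^ 0 ∣ aug G`.)
-/

set_option autoImplicit false

open AddMonoidAlgebra

namespace Pool.Agent.SQG

theorem key1 {p : ℕ} (hp : p.Prime) {M : Type} [AddCommGroup M] [AddMonoid.FG M] [IsAddTorsionFree M]
    (G : AddMonoidAlgebra ℤ M) (j : ℕ) (ζ : ℂˣ) (hζ : ζ ^ (p ^ j) = 1) (o : ℕ) (v : Fin o → M)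
    (l : Fin o → M →+ ℤ) (hl : ∀ i, l i (v i) = 1) (hv : ∀ i k, i ≠ k → Ind (v i) (v k))
    (h0 : ∀ i, ev (l i) (v i) ζ G = 0) : ((p : ℤ) ^ o) ∣ aug ℤ G := by
  classical
  by_cases hζ1 : ζ = 1
  · subst hζ1
    rcases Nat.eq_zero_or_pos o with ho | ho
    · subst ho
      simp
    · have h1 := aug_ev (v ⟨0, ho⟩) (l ⟨0, ho⟩) G
      rw [h0, map_zero] at h1
      have h2 : aug ℤ G = 0 := by exact_mod_cast h1.symm
      rw [h2]
      exact dvd_zero _
  · obtain ⟨q, hq0, hqζ, hq1, hqd⟩ := cyp p hp j ζ hζ hζ1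
    have claim : ∀ s : Finset (Fin o), ∃ E : AddMonoidAlgebra ℤ M,
        G = (∏ i ∈ s, Polynomial.aeval (single (v i) (1 : ℤ) : AddMonoidAlgebra ℤ M) q) * E := by
      intro s
      induction s using Finset.induction_on with
      | empty => exact ⟨G, by simp⟩
      | insert a s ha ih =>
        obtain ⟨E, hE⟩ := ih
        have h1 := h0 a
        rw [hE, map_mul, map_prod] at h1
        have h2 : (∏ i ∈ s, ev (l a) (v a) ζ
            (Polynomial.aeval (single (v i) (1 : ℤ) : AddMonoidAlgebra ℤ M) q)) ≠ 0 := by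
          rw [Finset.prod_ne_zero_iff]
          intro i hi
          have hia : i ≠ a := fun h => ha (h ▸ hi)
          exact cop (v i) (v a) (l a) (hv i a hia) ζ q hq0
        have h3 : ev (l a) (v a) ζ E = 0 := (mul_eq_zero.mp h1).resolve_left h2
        obtain ⟨Q, hQ⟩ := rowm (v a) (l a) (hl a) q {ζ}
          (fun P hP => hqd P (hP ζ (Set.mem_singleton ζ))) E (by
            intro ζ' hζ'
            rw [Set.mem_singleton_iff.mp hζ']
            exact h3)
        refine ⟨Q, ?_⟩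
        rw [Finset.prod_insert ha]
        calc G = (∏ i ∈ s, Polynomial.aeval (single (v i) (1 : ℤ) : AddMonoidAlgebra ℤ M) q) * E := hE
          _ = _ := by
            rw [hQ]
            ring
    obtain ⟨E, hE⟩ := claim Finset.univ
    have h4 : aug ℤ G = (p : ℤ) ^ o * aug ℤ E := by
      rw [hE, map_mul, map_prod]
      congr 1
      rw [Finset.prod_congr rfl (fun i _ => (aug_aeval (v i) q).trans hq1)]
      simp
    rw [h4]
    exact dvd_mul_right _ _

theorem ev_sg {Γ M : Type} [Group Γ] [AddCommGroup M] (ρ : Γ → M →+ M) (h1 : ∀ m, ρ 1 m = m)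
    (h2 : ∀ h k m, ρ (h * k) m = ρ h (ρ k m)) (w : M) (lam : M →+ ℤ) (ζ : ℂˣ) (t : Γ)
    (G : AddMonoidAlgebra ℤ M) :
    ev (lam.comp (ρ t⁻¹)) (ρ t w) ζ (sg ρ t G) = mapDomainRingHom ℂ (ρ t) (ev lam w ζ G) := by
  have hinv : ∀ m, ρ t⁻¹ (ρ t m) = m := fun m => by
    rw [← h2, inv_mul_cancel, h1]
  induction G using AddMonoidAlgebra.induction_linear with
  | zero => simp only [map_zero]
  | add f g hf hg => simp only [map_add, hf, hg]
  | single m a =>
    rw [sg_single, ev_single, ev_single]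
    simp only [AddMonoidHom.comp_apply, hinv]
    simp [mapDomainRingHom_apply, map_sub, map_zsmul]

theorem key {p : ℕ} (hp : p.Prime) {Γ M : Type} [Group Γ] [Fintype Γ] [AddCommGroup M] [AddMonoid.FG M]
    [IsAddTorsionFree M] {ρ : Γ → M →+ M} {g : Fin p → Γ} {c : Fin p → M} {e1 e2 : M}
    {β f : Γ → AddMonoidAlgebra ℤ M} (D : FD p ρ g c e1 e2 β f) (e w : M) (lam : M →+ ℤ) (n : ℕ)
    (hn : 0 < n) (hw : lam w = 1) (he : e = n • w) (o : ℕ) (t : Fin o → Γ)
    (ht : ∀ i k, i ≠ k → Ind (ρ (t i) e) (ρ (t k) e)) (hd : ¬ ((p : ℤ) ^ o) ∣ ND p g) (j : ℕ) (ζ : ℂˣ)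
    (hζ : ζ ^ (p ^ j) = 1) : ev lam w ζ (DD p ρ g c) ≠ 0 := by
  intro hz
  apply hd
  rw [← dd_aug p ρ g c]
  refine key1 hp (DD p ρ g c) j ζ hζ o (fun i => ρ (t i) w) (fun i => lam.comp (ρ (t i)⁻¹)) ?_ ?_ ?_
  · intro i
    change lam (ρ (t i)⁻¹ (ρ (t i) w)) = 1
    rw [← D.mul, inv_mul_cancel, D.one, hw]
  · intro i k hik a b hab
    apply ht i k hik a b
    rw [he, map_nsmul, map_nsmul, smul_comm a n, smul_comm b n]
    exact congrArg (fun x => n • x) hab
  · intro i
    have h1 := ev_sg ρ D.one D.mul w lam ζ (t i) (DD p ρ g c)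
    rw [dd_inv D, hz, map_zero] at h1
    exact h1

end Pool.Agent.SQG
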