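import Pool.Agent.SQG.Prm
import Pool.Agent.SQG.Key
import Pool.Agent.SQG.Dvd

/-!
# SQG module Fna: the contradiction in the finite case

PROOF. `prm` for `e1` and `e2` (nonzero: `Ind e1 e2` with `(a, b) = (1, 0)`) gives `w1, lam1, n1`, `w2, lam2, n2`.
Write `nj = pj^(aj) * mj` with `p ∤ mj` (`Nat.exists_eq_pow_mul_and_not_dvd`), `Nj = p ^ aj`.  By `key` the
hypotheses `k1, k2` of `dvdf` hold (`ζ ^ Nj = 1`); `Ind w1 w2` from `Ind e1 e2`.  So `f h = qq ℤ (N1 • w1) (N2 • w2) *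
Q h`.  `single ej 1 - 1 = (single (Nj • wj) 1 - 1) * κj`, `κj = ∑ k < mj, (single (Nj • wj) 1) ^ k`,
`aug κj = mj`.  Insert in `D.rel h` and cancel `qq ℤ (N1 • w1) (N2 • w2) ≠ 0` (domain; `Nj • wj ≠ 0`):
`∑ i, single (ρ h (c i)) 1 * Q (h * g i) = β h * κ1 * κ2`.  Apply `aug` and sum over `h : Γ`
(`Fintype.sum_equiv (Equiv.mulRight (g i))`): `p * ∑ h, aug (Q h) = (∑ h, aug (β h)) * m1 * m2`, so `p` divides
`∑ h, aug (β h)`, contradiction (`Nat.Prime` dividing a product).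
-/

set_option autoImplicit false

open AddMonoidAlgebra

namespace Pool.Agent.SQG

private theorem fna_kap {M : Type} [AddCommGroup M] (w e : M) (N m : ℕ) (he : e = (N * m) • w) :
    (single e (1 : ℤ) - 1 : AddMonoidAlgebra ℤ M) =
      (single (N • w) (1 : ℤ) - 1) * ∑ k ∈ Finset.range m, (single (N • w) (1 : ℤ)) ^ k := by
  rw [mul_geom_sum, AddMonoidAlgebra.single_pow, one_pow, he, mul_comm, mul_smul]

private theorem fna_aug {M : Type} [AddCommGroup M] (v : M) (m : ℕ) :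
    aug ℤ (∑ k ∈ Finset.range m, (single v (1 : ℤ) : AddMonoidAlgebra ℤ M) ^ k) = m := by
  rw [map_sum]
  simp only [map_pow, aug_single, one_pow]
  simp

private theorem fna_ne {M : Type} [AddCommGroup M] (v : M) (lam : M →+ ℤ) (hv : lam v ≠ 0) :
    (single v (1 : ℤ) - 1 : AddMonoidAlgebra ℤ M) ≠ 0 := by
  intro h
  rw [sub_eq_zero, AddMonoidAlgebra.one_def] at h
  have h1 : AddMonoidAlgebra.of ℤ M (Multiplicative.ofAdd v) =
      AddMonoidAlgebra.of ℤ M (Multiplicative.ofAdd (0 : M)) := h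
  have h2 := AddMonoidAlgebra.of_injective h1
  have h3 : v = 0 := Multiplicative.ofAdd.injective h2
  apply hv
  rw [h3, map_zero]

theorem fna {p : ℕ} (hp : p.Prime) {Γ M : Type} [Group Γ] [Fintype Γ] [AddCommGroup M] [AddMonoid.FG M]
    [IsAddTorsionFree M] {ρ : Γ → M →+ M} {g : Fin p → Γ} {c : Fin p → M} {e1 e2 : M}
    {β f : Γ → AddMonoidAlgebra ℤ M} (D : FD p ρ g c e1 e2 β f) (hI : Ind e1 e2) (o : ℕ) (t : Fin o → Γ)
    (ht1 : ∀ i k, i ≠ k → Ind (ρ (t i) e1) (ρ (t k) e1)) (ht2 : ∀ i k, i ≠ k → Ind (ρ (t i) e2) (ρ (t k) e2))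
    (hd : ¬ ((p : ℤ) ^ o) ∣ ND p g) (hβ : ¬ (p : ℤ) ∣ ∑ h, aug ℤ (β h)) : False := by
  classical
  have he1 : e1 ≠ 0 := by
    intro h
    have := (hI 1 0 (by rw [h, smul_zero, zero_smul])).1
    exact one_ne_zero this
  have he2 : e2 ≠ 0 := by
    intro h
    have := (hI 0 1 (by rw [h, smul_zero, zero_smul])).2
    exact one_ne_zero this
  obtain ⟨w1, lam1, n1, hn1, hw1, hew1⟩ := prm e1 he1
  obtain ⟨w2, lam2, n2, hn2, hw2, hew2⟩ := prm e2 he2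
  obtain ⟨a1, m1, hm1, hnm1⟩ := Nat.exists_eq_pow_mul_and_not_dvd hn1.ne' p hp.ne_one
  obtain ⟨a2, m2, hm2, hnm2⟩ := Nat.exists_eq_pow_mul_and_not_dvd hn2.ne' p hp.ne_one
  have hIw : Ind w1 w2 := by
    intro a b hab
    have g1 : e1 = (n1 : ℤ) • w1 := by rw [natCast_zsmul]; exact hew1
    have g2 : e2 = (n2 : ℤ) • w2 := by rw [natCast_zsmul]; exact hew2
    have h1 : (a * n2) • e1 = (b * n1) • e2 := by
      have h2 : (a * n2) • e1 = ((n1 : ℤ) * n2) • (a • w1) := by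
        rw [g1, smul_smul, smul_smul]
        congr 1
        ring
      have h3 : (b * n1) • e2 = ((n1 : ℤ) * n2) • (b • w2) := by
        rw [g2, smul_smul, smul_smul]
        congr 1
        ring
      rw [h2, h3, hab]
    obtain ⟨h2, h3⟩ := hI _ _ h1
    have h4 : (n1 : ℤ) ≠ 0 := by exact_mod_cast hn1.ne'
    have h5 : (n2 : ℤ) ≠ 0 := by exact_mod_cast hn2.ne'
    exact ⟨(mul_eq_zero.1 h2).resolve_right h5, (mul_eq_zero.1 h3).resolve_right h4⟩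
  have hQ : ∀ h : Γ, ∃ Q, f h = qq ℤ (p ^ a1 • w1) (p ^ a2 • w2) * Q := fun h =>
    dvdf D w1 w2 lam1 lam2 hw1 hw2 n1 n2 (p ^ a1) (p ^ a2) (pow_pos hp.pos _) (pow_pos hp.pos _)
      ⟨m1, hnm1⟩ ⟨m2, hnm2⟩ hew1 hew2 hIw
      (fun ζ hζ => key hp D e1 w1 lam1 n1 hn1 hw1 hew1 o t ht1 hd a1 ζ hζ)
      (fun ζ hζ => key hp D e2 w2 lam2 n2 hn2 hw2 hew2 o t ht2 hd a2 ζ hζ) h
  choose Q hQ using hQ
  have hq0 : (qq ℤ (p ^ a1 • w1) (p ^ a2 • w2) : AddMonoidAlgebra ℤ M) ≠ 0 := by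
    unfold qq
    refine mul_ne_zero (fna_ne _ lam1 ?_) (fna_ne _ lam2 ?_)
    · rw [map_nsmul, hw1]
      simp only [nsmul_eq_mul, mul_one]
      exact_mod_cast (pow_pos hp.pos a1).ne'
    · rw [map_nsmul, hw2]
      simp only [nsmul_eq_mul, mul_one]
      exact_mod_cast (pow_pos hp.pos a2).ne'
  set κ1 : AddMonoidAlgebra ℤ M := ∑ k ∈ Finset.range m1, (single (p ^ a1 • w1) (1 : ℤ)) ^ k with hκ1
  set κ2 : AddMonoidAlgebra ℤ M := ∑ k ∈ Finset.range m2, (single (p ^ a2 • w2) (1 : ℤ)) ^ k with hκ2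
  have hqe : (qq ℤ e1 e2 : AddMonoidAlgebra ℤ M) = qq ℤ (p ^ a1 • w1) (p ^ a2 • w2) * (κ1 * κ2) := by
    unfold qq
    rw [fna_kap w1 e1 (p ^ a1) m1 (by rw [← hnm1]; exact hew1),
      fna_kap w2 e2 (p ^ a2) m2 (by rw [← hnm2]; exact hew2), ← hκ1, ← hκ2]
    ring
  have hrel : ∀ h : Γ, ∑ i, single (ρ h (c i)) (1 : ℤ) * Q (h * g i) = β h * (κ1 * κ2) := by
    intro h
    have h1 := D.rel h
    rw [hqe] at h1
    apply mul_left_cancel₀ hq0
    rw [Finset.mul_sum]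
    calc ∑ i, qq ℤ (p ^ a1 • w1) (p ^ a2 • w2) * (single (ρ h (c i)) (1 : ℤ) * Q (h * g i))
        = ∑ i, single (ρ h (c i)) 1 * f (h * g i) := by
          refine Finset.sum_congr rfl fun i _ => ?_
          rw [hQ (h * g i)]
          ring
      _ = β h * (qq ℤ (p ^ a1 • w1) (p ^ a2 • w2) * (κ1 * κ2)) := h1
      _ = _ := by ring
  have haug : ∀ h : Γ, ∑ i, aug ℤ (Q (h * g i)) = aug ℤ (β h) * (m1 * m2) := by
    intro h
    have h1 := congrArg (aug ℤ) (hrel h)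
    rw [map_sum, map_mul, map_mul, hκ1, hκ2, fna_aug, fna_aug] at h1
    simpa only [map_mul, aug_single, one_mul] using h1
  have hsum : (p : ℤ) * ∑ h, aug ℤ (Q h) = (∑ h, aug ℤ (β h)) * (m1 * m2) := by
    rw [Finset.sum_mul, ← Finset.sum_congr rfl fun h _ => haug h, Finset.sum_comm]
    have h1 : ∀ i : Fin p, ∑ h : Γ, aug ℤ (Q (h * g i)) = ∑ h, aug ℤ (Q h) := fun i =>
      Fintype.sum_equiv (Equiv.mulRight (g i)) _ _ fun h => rfl
    rw [Finset.sum_congr rfl fun i _ => h1 i, Finset.sum_const, Finset.card_univ, Fintype.card_fin,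
      nsmul_eq_mul]
  have hpz : Prime (p : ℤ) := Nat.prime_iff_prime_int.1 hp
  have hdvd : (p : ℤ) ∣ (∑ h, aug ℤ (β h)) * (m1 * m2) := ⟨_, hsum.symm⟩
  rcases hpz.dvd_or_dvd hdvd with h1 | h1
  · exact hβ h1
  · rcases hpz.dvd_or_dvd h1 with h2 | h2
    · exact hm1 (Int.natCast_dvd_natCast.1 h2)
    · exact hm2 (Int.natCast_dvd_natCast.1 h2)

end Pool.Agent.SQG
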