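import Pool.Agent.SQG.FDefs

/-!
# SQG module Lns: different lines give independent vectors

PROOF. `lns`: suppose `a • act g (1, 0) = b • act k (1, 0)`, i.e. `a * g.a = b * k.a`, `a * g.b = b * k.b` (real
numbers).  Squares: `a² = b²` (`g.h`, `k.h`).  If `a ≠ 0` then `g.a * g.a = k.a * k.a` and `g.a * g.b = k.a * k.b`
(multiply by `a²`), contradiction.  So `a = 0`, `b = 0`.  For `(0, 1)`: `act g (0, 1) = (- g.t * g.b, g.t * g.a)`:
the same with `a * g.t`, `b * k.t`.
`lns_fin`: choose a preimage for each of the `o` elements of the (finite) image of `Γ` under `ln`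
(`Set.ncard`, `Finset.equivFin`).
-/

set_option autoImplicit false

open AddMonoidAlgebra

namespace Pool.Agent.SQG

/-- The line spanned by `h (1, 0)`. -/
noncomputable def ln (h : O2) : ℝ × ℝ := (h.a * h.a, h.a * h.b)

theorem lns_aux (g k : O2) (h : ln g ≠ ln k) (a b : ℝ) (h1 : a * g.a = b * k.a) (h2 : a * g.b = b * k.b) :
    a = 0 ∧ b = 0 := by
  have h3 : a * a = b * b := by
    have e1 := g.h
    have e2 := k.h
    have e3 : (a * g.a) * (a * g.a) + (a * g.b) * (a * g.b) =
        (b * k.a) * (b * k.a) + (b * k.b) * (b * k.b) := by rw [h1, h2]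
    have e4 : (a * a) * (g.a * g.a + g.b * g.b) = (b * b) * (k.a * k.a + k.b * k.b) := by
      linear_combination e3
    rw [e1, e2, mul_one, mul_one] at e4
    exact e4
  by_cases ha : a = 0
  · subst ha
    refine ⟨rfl, ?_⟩
    rw [zero_mul] at h3
    exact mul_self_eq_zero.mp h3.symm
  · exfalso
    apply h
    have haa : a * a ≠ 0 := mul_ne_zero ha ha
    unfold ln
    refine Prod.ext ?_ ?_
    · apply mul_left_cancel₀ haa
      change a * a * (g.a * g.a) = a * a * (k.a * k.a)
      have e3 : (a * g.a) * (a * g.a) = (b * k.a) * (b * k.a) := by rw [h1]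
      linear_combination e3 - k.a * k.a * h3
    · apply mul_left_cancel₀ haa
      change a * a * (g.a * g.b) = a * a * (k.a * k.b)
      have e3 : (a * g.a) * (a * g.b) = (b * k.a) * (b * k.b) := by rw [h1, h2]
      linear_combination e3 - k.a * k.b * h3

theorem lns1 (g k : O2) (h : ln g ≠ ln k) : Ind (act g ((1, 0) : V)) (act k (1, 0)) := by
  intro a b hab
  have h1 := congrArg Prod.fst hab
  have h2 := congrArg Prod.snd hab
  simp [act_apply] at h1 h2
  have := lns_aux g k h (a : ℝ) (b : ℝ) h1 h2
  exact_mod_cast this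

theorem lns2 (g k : O2) (h : ln g ≠ ln k) : Ind (act g ((0, 1) : V)) (act k (0, 1)) := by
  intro a b hab
  have h1 := congrArg Prod.fst hab
  have h2 := congrArg Prod.snd hab
  simp [act_apply] at h1 h2
  have := lns_aux g k h ((a : ℝ) * g.t) ((b : ℝ) * k.t) (by linear_combination h2) (by linear_combination h1)
  have hg : g.t ≠ 0 := fun h0 => by
    have := g.t_sq
    rw [h0] at this
    norm_num at this
  have hk : k.t ≠ 0 := fun h0 => by
    have := k.t_sq
    rw [h0] at this
    norm_num at this
  obtain ⟨ha, hb⟩ := this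
  have ha' := (mul_eq_zero.mp ha).resolve_right hg
  have hb' := (mul_eq_zero.mp hb).resolve_right hk
  exact_mod_cast And.intro ha' hb'

theorem lns_fin (Γ : Subgroup O2) [Finite Γ] :
    ∃ t : Fin (Set.ncard (Set.range fun h : Γ => ln (h : O2))) → Γ, ∀ i k, i ≠ k → ln (t i : O2) ≠ ln (t k : O2) := by
  set S : Set (ℝ × ℝ) := Set.range fun h : Γ => ln (h : O2) with hS
  have hfin : S.Finite := Set.finite_range _
  haveI : Fintype S := hfin.fintype
  have hcard : Fintype.card S = S.ncard := by
    rw [Set.ncard_eq_toFinset_card', Set.toFinset_card]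
  let e : Fin S.ncard ≃ S := (finCongr hcard.symm).trans (Fintype.equivFin S).symm
  have hch : ∀ s : S, ∃ h : Γ, ln (h : O2) = s := fun s => s.2
  choose f hf using hch
  refine ⟨fun i => f (e i), fun i k hik h => hik ?_⟩
  rw [hf, hf] at h
  exact e.injective (Subtype.ext h)

end Pool.Agent.SQG
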