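import Pool.Agent.SQG.FDefs

/-!
# SQG module Mgr: a finitely generated invariant subgroup

PROOF. Let `T ⊆ V` be the finite set of `(1, 0)`, `(0, 1)`, the `c i`, the `shf h` (`h ∈ Γ`) and the points of the
supports of `F h` (`h ∈ Γ`), `T' = ⋃ γ ∈ Γ, act γ '' T` (finite) and `M = AddSubgroup.closure T'`, a finitely
generated group (instance for closures of finite sets), invariant under `act γ`, `γ ∈ Γ` (`AddSubgroup.closure_induction`,
`act γ '' T' ⊆ T'`).  `ρ γ : M →+ M` is the restriction of `act γ` (`AddMonoidHom.codRestrict`/`AddMonoidHom.mk'`).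
`ι : AddMonoidAlgebra ℤ M → AddMonoidAlgebra ℤ V`, the ring homomorphism induced by the inclusion
(`mapDomainRingHom`), is injective (`mapDomain_injective`).  For `h ∈ Γ`: `F h = ι (f h)` with
`f h` the restriction of the coefficients to `M` (`Finsupp.comapDomain`; or `f h = ∑ x ∈ support.attach, single ⟨x, _⟩
(F h).coeff x`), `BB h = ι (β h) * ι (qq ℤ e1 e2)` with `β h = single (shf h) 1` if `Ax h` and `0` otherwise.  The
relation holds after applying `ι`, hence in `AddMonoidAlgebra ℤ M`.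
`Ind` for elements of `M` is `Ind` for their images in `V`.  `∑ h, aug (β h)` is the number of `h ∈ Γ` with `Ax h`.
-/

set_option autoImplicit false

open AddMonoidAlgebra

namespace Pool.Agent.SQG

private theorem gen_sub {p : ℕ} (Γ : Subgroup O2) [Fintype Γ] (c : Fin p → V) (F : O2 → AddMonoidAlgebra ℤ V) :
    ∃ M : AddSubgroup V, AddMonoid.FG M ∧ (∀ (h : Γ) (m : V), m ∈ M → act (h : O2) m ∈ M) ∧
      ((1, 0) : V) ∈ M ∧ ((0, 1) : V) ∈ M ∧ (∀ i, c i ∈ M) ∧ (∀ h : Γ, shf (h : O2) ∈ M) ∧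
      ∀ h : Γ, ((F (h : O2)).coeff.support : Set V) ⊆ M := by
  classical
  let T : Set V := {((1, 0) : V), (0, 1)} ∪ Set.range c ∪ Set.range (fun h : Γ => shf (h : O2)) ∪
    ⋃ h : Γ, ((F (h : O2)).coeff.support : Set V)
  have hT : T.Finite := by
    refine Set.Finite.union (Set.Finite.union (Set.Finite.union (Set.toFinite _) (Set.finite_range _))
      (Set.finite_range _)) ?_
    exact Set.finite_iUnion fun h => Finset.finite_toSet _
  let T' : Set V := ⋃ h : Γ, act (h : O2) '' T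
  have hT' : T'.Finite := Set.finite_iUnion fun h => hT.image _
  have hsub : T ⊆ T' := by
    intro x hx
    refine Set.mem_iUnion.2 ⟨1, x, hx, ?_⟩
    simp
  have hinv : ∀ (h : Γ) (x : V), x ∈ T' → act (h : O2) x ∈ T' := by
    intro h x hx
    obtain ⟨k, y, hy, rfl⟩ := Set.mem_iUnion.1 hx
    refine Set.mem_iUnion.2 ⟨h * k, y, hy, ?_⟩
    rw [Subgroup.coe_mul, act_mul]
  refine ⟨AddSubgroup.closure T', ?_, ?_, ?_, ?_, ?_, ?_, ?_⟩
  · have : Finite T' := hT'.to_subtype
    rw [← AddGroup.fg_iff_addMonoid_fg]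
    exact AddGroup.closure_finite_fg T'
  · intro h m hm
    induction hm using AddSubgroup.closure_induction with
    | mem x hx => exact AddSubgroup.subset_closure (hinv h x hx)
    | zero => rw [map_zero]; exact AddSubgroup.zero_mem _
    | add x y _ _ hx hy => rw [map_add]; exact AddSubgroup.add_mem _ hx hy
    | neg x _ hx => rw [map_neg]; exact AddSubgroup.neg_mem _ hx
  · exact AddSubgroup.subset_closure (hsub (Or.inl (Or.inl (Or.inl (Or.inl rfl)))))
  · exact AddSubgroup.subset_closure (hsub (Or.inl (Or.inl (Or.inl (Or.inr rfl)))))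
  · intro i
    exact AddSubgroup.subset_closure (hsub (Or.inl (Or.inl (Or.inr ⟨i, rfl⟩))))
  · intro h
    exact AddSubgroup.subset_closure (hsub (Or.inl (Or.inr ⟨h, rfl⟩)))
  · intro h x hx
    exact AddSubgroup.subset_closure (hsub (Or.inr (Set.mem_iUnion.2 ⟨h, hx⟩)))

theorem mgr {p : ℕ} (Γ : Subgroup O2) [Fintype Γ] (g : Fin p → Γ) (c : Fin p → V)
    (F : O2 → AddMonoidAlgebra ℤ V) (D : Dat p (fun i => (g i : O2)) c F) :
    ∃ (M : AddSubgroup V) (_ : AddMonoid.FG M) (ρ : Γ → M →+ M) (c' : Fin p → M) (e1 e2 : M)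
      (β f : Γ → AddMonoidAlgebra ℤ M), FD p ρ g c' e1 e2 β f ∧ (∀ h m, ((ρ h m : M) : V) = act (h : O2) (m : V)) ∧
      (e1 : V) = (1, 0) ∧ (e2 : V) = (0, 1) ∧ ∑ h, aug ℤ (β h) = (Nat.card {h : Γ // Ax (h : O2)} : ℤ) := by
  classical
  obtain ⟨M, hfg, hinv, he1, he2, hc, hs, hF⟩ := gen_sub Γ c F
  let ρ : Γ → M →+ M := fun h => ((act (h : O2)).comp M.subtype).codRestrict M fun m => hinv h m m.2
  have hρ : ∀ h m, ((ρ h m : M) : V) = act (h : O2) (m : V) := fun h m => rfl
  let ι : AddMonoidAlgebra ℤ M →+* AddMonoidAlgebra ℤ V := mapDomainRingHom ℤ M.subtype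
  have hι : ∀ x, ι x = mapDomain (M.subtype : M → V) x := fun x => rfl
  have hιs : ∀ (m : M) (a : ℤ), ι (single m a) = single (m : V) a := by
    intro m a
    rw [hι, mapDomain_single]
    rfl
  have hinj : Function.Injective ι := mapDomain_injective M.subtype_injective
  let f : Γ → AddMonoidAlgebra ℤ M := fun h => comapDomain (M.subtype : M → V) M.subtype_injective (F (h : O2))
  have hf : ∀ h, ι (f h) = F (h : O2) := by
    intro h
    rw [hι]
    refine mapDomain_comapDomain ?_ _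
    intro x hx
    exact ⟨⟨x, hF h hx⟩, rfl⟩
  let β : Γ → AddMonoidAlgebra ℤ M := fun h => if Ax (h : O2) then single ⟨shf (h : O2), hs h⟩ 1 else 0
  refine ⟨M, hfg, ρ, fun i => ⟨c i, hc i⟩, ⟨(1, 0), he1⟩, ⟨(0, 1), he2⟩, β, f, ⟨?_, ?_, ?_⟩, hρ, rfl, rfl, ?_⟩
  · intro m
    apply Subtype.ext
    rw [hρ]
    simp
  · intro h k m
    apply Subtype.ext
    rw [hρ, hρ, hρ, Subgroup.coe_mul, act_mul]
  · intro h
    apply hinj
    rw [map_sum, map_mul]
    have h1 : ι (qq ℤ (⟨(1, 0), he1⟩ : M) ⟨(0, 1), he2⟩) = qq ℤ ((1, 0) : V) (0, 1) := by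
      unfold qq
      rw [map_mul, map_sub, map_sub, hιs, hιs, map_one]
    have h2 : ∀ i, ι (single (ρ h ⟨c i, hc i⟩) 1 * f (h * g i)) =
        single (act (h : O2) (c i)) 1 * F ((h : O2) * (g i : O2)) := by
      intro i
      rw [map_mul, hιs, hf, hρ]
      rfl
    rw [Finset.sum_congr rfl fun i _ => h2 i, D.rel (h : O2), h1]
    unfold BB
    by_cases h3 : Ax (h : O2)
    · simp only [β, if_pos h3]
      rw [hιs]
    · simp only [β, if_neg h3]
      rw [map_zero, zero_mul]
  · have h1 : ∀ h : Γ, aug ℤ (β h) = if Ax (h : O2) then 1 else 0 := by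
      intro h
      by_cases h3 : Ax (h : O2)
      · simp only [β, if_pos h3, aug_single]
      · simp only [β, if_neg h3, map_zero]
    rw [Finset.sum_congr rfl fun h _ => h1 h, Finset.sum_boole, Nat.card_eq_fintype_card, Fintype.card_subtype]

end Pool.Agent.SQG
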