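import Pool.Agent.SQG.Fna
import Pool.Agent.SQG.Lns
import Pool.Agent.SQG.Mgr
import Pool.Agent.SQG.Axc

/-!
# SQG module Fnb: the finite case

PROOF. `mgr` gives `M, ρ, c', e1, e2, β, f`; `lns_fin` gives `t`.  Apply `fna`: `Ind e1 e2` since `(1, 0)` and
`(0, 1)` are independent; `Ind (ρ (t i) e1) (ρ (t k) e1)` in `M` follows from `lns1` in `V` (apply the injective
inclusion `M → V`), the same for `e2`; `hβ` from `ax_dvd`.  (`IsAddTorsionFree M` is an instance.)
-/

set_option autoImplicit false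

open AddMonoidAlgebra

namespace Pool.Agent.SQG

theorem fnb {p : ℕ} (hp : p.Prime) (hp2 : p ≠ 2) (Γ : Subgroup O2) [Fintype Γ] (g : Fin p → Γ)
    (c : Fin p → V) (F : O2 → AddMonoidAlgebra ℤ V) (D : Dat p (fun i => (g i : O2)) c F)
    (hd : ¬ ((p : ℤ) ^ (Set.ncard (Set.range fun h : Γ => ln (h : O2)))) ∣ ND p g) : False := by
  classical
  obtain ⟨M, hM, ρ, c', e1, e2, β, f, hD, hρ, he1, he2, hβ⟩ := mgr Γ g c F D
  obtain ⟨t, ht⟩ := lns_fin Γ
  have hI : Ind e1 e2 := by
    intro a b hab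
    have h1 := congrArg (fun m : M => (m : V)) hab
    simp only [AddSubgroup.coe_zsmul, he1, he2] at h1
    have h2 := congrArg Prod.fst h1
    have h3 := congrArg Prod.snd h1
    rw [Prod.smul_fst, Prod.smul_fst, smul_zero, zsmul_eq_mul, mul_one] at h2
    rw [Prod.smul_snd, Prod.smul_snd, smul_zero, zsmul_eq_mul, mul_one] at h3
    exact ⟨by exact_mod_cast h2, by exact_mod_cast h3.symm⟩
  have h1 : ∀ i k, i ≠ k → Ind (ρ (t i) e1) (ρ (t k) e1) := by
    intro i k hik a b hab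
    have h1 := congrArg (fun m : M => (m : V)) hab
    simp only [AddSubgroup.coe_zsmul, hρ, he1] at h1
    exact lns1 _ _ (ht i k hik) a b h1
  have h2 : ∀ i k, i ≠ k → Ind (ρ (t i) e2) (ρ (t k) e2) := by
    intro i k hik a b hab
    have h1 := congrArg (fun m : M => (m : V)) hab
    simp only [AddSubgroup.coe_zsmul, hρ, he2] at h1
    exact lns2 _ _ (ht i k hik) a b h1
  refine fna hp hD hI _ t h1 h2 hd ?_
  rw [hβ]
  intro h3
  exact ax_dvd hp hp2 Γ (by exact_mod_cast h3)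

end Pool.Agent.SQG
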