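import Pool.Agent.SQG.Tbm

/-!
# SQG module Hfin: finitely many rotations make a line horizontal

PROOF. `(rl h l).1 = h.a * n1 - h.t * h.b * n2` with `n = (l.1, l.2.1) ≠ 0`.  If it is `0` then, with `r = √(n1² +
n2²) > 0`, `(h.a, h.b) = ± (h.t * n2, n1) / r` (both are unit vectors orthogonal to the same vector; e.g.
`(h.a * r) ^ 2 = n2 ^ 2` and `(h.b * r) ^ 2 = n1 ^ 2` follow by `nlinarith`/`linear_combination` from
`h.a * n1 = h.t * h.b * n2`, `h.a ^ 2 + h.b ^ 2 = 1`, `h.t ^ 2 = 1`).  So `h` lies in the image of a finite set of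
values of `(a, b, s)` : it is enough that `h.a ∈ {n2 / r, - n2 / r}`, `h.b ∈ {n1 / r, - n1 / r}`, `h.s ∈ {1, -1}` and
that `h ↦ (h.a, h.b, h.s)` is injective (`O2.ext'`): `Set.Finite.preimage` with `Set.InjOn`.
-/

set_option autoImplicit false

open AddMonoidAlgebra Filter Topology

namespace Pool.Agent.SQG

private theorem Hfin_sq {x y r : ℝ} (hr : 0 < r) (h : (x * r) ^ 2 = y ^ 2) : x = y / r ∨ x = -y / r := by
  have hr' : r ≠ 0 := ne_of_gt hr
  rcases sq_eq_sq_iff_eq_or_eq_neg.mp h with h1 | h1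
  · left
    rw [eq_div_iff hr', h1]
  · right
    rw [eq_div_iff hr', h1]

theorem hfin (l : ℝ × ℝ × ℝ) (hl : Nd l) : {h : O2 | (rl h l).1 = 0}.Finite := by
  have hpos : 0 < l.1 ^ 2 + l.2.1 ^ 2 := by
    rcases hl with h | h
    · have h1 := sq_pos_of_ne_zero h
      have h2 := sq_nonneg l.2.1
      linarith
    · have h1 := sq_pos_of_ne_zero h
      have h2 := sq_nonneg l.1
      linarith
  have hr : 0 < Real.sqrt (l.1 ^ 2 + l.2.1 ^ 2) := Real.sqrt_pos.mpr hpos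
  have hr2 : Real.sqrt (l.1 ^ 2 + l.2.1 ^ 2) ^ 2 = l.1 ^ 2 + l.2.1 ^ 2 := Real.sq_sqrt hpos.le
  generalize Real.sqrt (l.1 ^ 2 + l.2.1 ^ 2) = r at hr hr2
  have hfin : ((({l.2.1 / r, -l.2.1 / r} : Set ℝ) ×ˢ (({l.1 / r, -l.1 / r} : Set ℝ) ×ˢ
      (Set.univ : Set ℤˣ)))).Finite := by
    refine Set.Finite.prod ?_ (Set.Finite.prod ?_ ?_)
    · exact (Set.finite_singleton _).insert _
    · exact (Set.finite_singleton _).insert _
    · exact Set.finite_univ
  have hinj : Function.Injective (fun h : O2 => (h.a, h.b, h.s)) := by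
    intro g h hgh
    simp only [Prod.mk.injEq] at hgh
    exact O2.ext' hgh.1 hgh.2.1 hgh.2.2
  refine (Set.Finite.preimage (f := fun h : O2 => (h.a, h.b, h.s)) hinj.injOn hfin).subset ?_
  intro h hh
  have hh0 : (rl h l).1 = 0 := hh
  have hh' : h.a * l.1 - h.t * h.b * l.2.1 = 0 := hh0
  have h3 := h.h
  have h4 := h.t_sq
  have ea : (h.a * r) ^ 2 = l.2.1 ^ 2 := by
    rw [mul_pow, hr2]
    linear_combination (h.a * l.1 + h.t * h.b * l.2.1) * hh' + l.2.1 ^ 2 * h3 +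
      h.b ^ 2 * l.2.1 ^ 2 * h4
  have eb : (h.b * r) ^ 2 = l.1 ^ 2 := by
    rw [mul_pow, hr2]
    linear_combination (-(h.a * l.1 + h.t * h.b * l.2.1)) * hh' + l.1 ^ 2 * h3 -
      h.b ^ 2 * l.2.1 ^ 2 * h4
  refine ⟨?_, ?_, Set.mem_univ _⟩
  · exact Hfin_sq hr ea
  · exact Hfin_sq hr eb

end Pool.Agent.SQG
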