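import Pool.Agent.SQG.Loc
import Pool.Agent.SQG.Cal

/-!
# SQG module Off: generic points are off the frontier

PROOF. Take `X` from `loc` for `t = w.2`.  For all small `a > 0`, `w.1 + a ∉ X` and `w.1 - a ∉ X` (`X` is finite).
For such `a`, `loc` gives `ε > 0` for both points; for `0 < b < ε` the points `(w.1 ± a, w.2 ± b)` satisfy
`z.2 ≠ w.2`, so they are not in the frontier.
-/

set_option autoImplicit false

open AddMonoidAlgebra Filter Topology

namespace Pool.Agent.SQG

private theorem Off_dl {X : Set ℝ} (hX : X.Finite) (x : ℝ) :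
    ∃ δ > 0, ∀ y, |y - x| < δ → y ≠ x → y ∉ X := by
  have h1 : (X \ {x}).Finite := hX.subset Set.sdiff_subset
  have h2 : IsOpen (X \ {x})ᶜ := h1.isClosed.isOpen_compl
  have h3 : x ∈ (X \ {x})ᶜ := by simp
  obtain ⟨δ, hδ, hb⟩ := Metric.isOpen_iff.mp h2 x h3
  refine ⟨δ, hδ, fun y hy hyx hyX => ?_⟩
  have h4 : y ∈ Metric.ball x δ := by
    rw [Metric.mem_ball, Real.dist_eq]
    exact hy
  exact hb h4 ⟨hyX, hyx⟩

theorem off_fr {U : Set V} {T : Finset (ℝ × ℝ × ℝ)} {C : Set V} (h : TB U T C) (w : V) :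
    Pts (fun z => z ∉ frontier U) w := by
  obtain ⟨X, hXf, hX⟩ := loc h w.2
  obtain ⟨δ, hδ, hδX⟩ := Off_dl hXf w.1
  unfold Pts
  filter_upwards [Ioo_mem_nhdsGT hδ] with a ha
  have h1 : w.1 + a ∉ X := by
    apply hδX
    · rw [add_sub_cancel_left, abs_of_pos ha.1]
      exact ha.2
    · intro h2
      linarith [ha.1]
  have h2 : w.1 - a ∉ X := by
    apply hδX
    · have h3 : w.1 - a - w.1 = -a := by ring
      rw [h3, abs_neg, abs_of_pos ha.1]
      exact ha.2
    · intro h2
      linarith [ha.1]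
  obtain ⟨e1, he1, hh1⟩ := hX _ h1
  obtain ⟨e2, he2, hh2⟩ := hX _ h2
  filter_upwards [Ioo_mem_nhdsGT he1, Ioo_mem_nhdsGT he2] with b hb1 hb2
  have g1 : |w.2 + b - w.2| = b := by rw [add_sub_cancel_left, abs_of_pos hb1.1]
  have g2 : |w.2 - b - w.2| = b := by
    have h3 : w.2 - b - w.2 = -b := by ring
    rw [h3, abs_neg, abs_of_pos hb1.1]
  refine ⟨fun hf => ?_, fun hf => ?_, fun hf => ?_, fun hf => ?_⟩
  · have h3 := (hh1 (w.1 + a, w.2 + b) (by simp only [sub_self, abs_zero]; exact he1)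
      (by simp only []; rw [g1]; exact hb1.2) hf).1
    simp only [] at h3
    linarith [hb1.1]
  · have h3 := (hh1 (w.1 + a, w.2 - b) (by simp only [sub_self, abs_zero]; exact he1)
      (by simp only []; rw [g2]; exact hb1.2) hf).1
    simp only [] at h3
    linarith [hb1.1]
  · have h3 := (hh2 (w.1 - a, w.2 + b) (by simp only [sub_self, abs_zero]; exact he2)
      (by simp only []; rw [g1]; exact hb2.2) hf).1
    simp only [] at h3
    linarith [hb1.1]
  · have h3 := (hh2 (w.1 - a, w.2 - b) (by simp only [sub_self, abs_zero]; exact he2)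
      (by simp only []; rw [g2]; exact hb2.2) hf).1
    simp only [] at h3
    linarith [hb1.1]

end Pool.Agent.SQG
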