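import Pool.Agent.SQG.Hlf
import Pool.Agent.SQG.Loc

/-!
# SQG module Qd: limits in the four quadrants

PROOF. Take `X` from `loc` for `t = w.2`.  As `X` is finite there is `δ > 0` with `w.1 + σ * a ∉ X` for
`0 < a < δ` (finite sets are closed: `X \ {w.1}` has a neighbourhood of `w.1` in its complement).  For each
`a ∈ Ioo 0 δ` `loc` and `half` (at `x = w.1 + σ * a`) give `ε` and `n a` with `ind U (x', w.2 + τ * b) = n a` for
`|x' - x| < ε`, `0 < b < ε`.  The function `n` is locally constant on `Ioo 0 δ`: for `a'` near `a`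
(`|a' - a| < ε`) take `b` small for both: `n a' = n a`.  `Ioo 0 δ` is preconnected, so `n` is constant on it
(`IsPreconnected.constant_of_mapsTo` or `IsPreconnected.constant`, or `IsLocallyConstant` on the subtype).
-/

set_option autoImplicit false

open AddMonoidAlgebra Filter Topology

namespace Pool.Agent.SQG

private theorem Qd_dl {X : Set ℝ} (hX : X.Finite) (x : ℝ) :
    ∃ δ > 0, ∀ y, |y - x| < δ → y ≠ x → y ∉ X := by
  have h1 : (X \ {x}).Finite := hX.subset Set.sdiff_subset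
  have h2 : IsOpen (X \ {x})ᶜ := h1.isClosed.isOpen_compl
  have h3 : x ∈ (X \ {x})ᶜ := by simp
  obtain ⟨δ, hδ, hb⟩ := Metric.isOpen_iff.mp h2 x h3
  refine ⟨δ, hδ, fun y hy hyx hyX => ?_⟩
  have h4 : y ∈ Metric.ball x δ := by
    rw [Metric.mem_ball, Real.dist_eq]
    exact hy
  exact hb h4 ⟨hyX, hyx⟩

private theorem Qd_one {σ : ℝ} (hσ : σ = 1 ∨ σ = -1) (a : ℝ) : |σ * a| = |a| := by
  rcases hσ with rfl | rfl
  · rw [one_mul]
  · rw [neg_one_mul, abs_neg]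

theorem qd {U : Set V} {T : Finset (ℝ × ℝ × ℝ)} {C : Set V} (hU : IsOpen U) (h : TB U T C) (w : V) (σ τ : ℝ)
    (hσ : σ = 1 ∨ σ = -1) (hτ : τ = 1 ∨ τ = -1) :
    ∃ n : ℤ, ∀ᶠ a in 𝓝[>] (0 : ℝ), ∀ᶠ b in 𝓝[>] (0 : ℝ), ind U (w.1 + σ * a, w.2 + τ * b) = n := by
  obtain ⟨X, hXf, hX⟩ := loc h w.2
  obtain ⟨δ, hδ, hδX⟩ := Qd_dl hXf w.1
  have key : ∀ a : ℝ, ∃ (e : ℝ) (n : ℤ), 0 < a → a < δ → (0 < e ∧
      ∀ x' b : ℝ, |x' - (w.1 + σ * a)| < e → 0 < b → b < e → ind U (x', w.2 + τ * b) = n) := by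
    intro a
    by_cases ha : 0 < a ∧ a < δ
    · have h1 : w.1 + σ * a ∉ X := by
        apply hδX
        · rw [add_sub_cancel_left, Qd_one hσ, abs_of_pos ha.1]
          exact ha.2
        · intro h2
          have h3 : σ * a = 0 := by linarith
          have h4 : |σ * a| = 0 := by rw [h3, abs_zero]
          rw [Qd_one hσ, abs_of_pos ha.1] at h4
          linarith [ha.1]
      obtain ⟨e, he, hh⟩ := hX _ h1
      obtain ⟨n, hn⟩ := half hU w.2 (w.1 + σ * a) e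
        (fun z hz1 hz2 hz3 => (hh z hz1 hz2 hz3).1) τ hτ
      exact ⟨e, n, fun _ _ => ⟨he, hn⟩⟩
    · exact ⟨1, 0, fun h1 h2 => absurd ⟨h1, h2⟩ ha⟩
  choose e n hn using key
  have hloc : ∀ a a' : ℝ, 0 < a → a < δ → 0 < a' → a' < δ → |a' - a| < e a → n a' = n a := by
    intro a a' h1 h2 h3 h4 h5
    obtain ⟨he, hna⟩ := hn a h1 h2
    obtain ⟨he', hna'⟩ := hn a' h3 h4
    have hm : 0 < min (e a) (e a') := lt_min he he'
    have hm2 : min (e a) (e a') / 2 < min (e a) (e a') := by linarith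
    have hb1 : min (e a) (e a') / 2 < e a := lt_of_lt_of_le hm2 (min_le_left _ _)
    have hb2 : min (e a) (e a') / 2 < e a' := lt_of_lt_of_le hm2 (min_le_right _ _)
    have e1 := hna (w.1 + σ * a') (min (e a) (e a') / 2) (by
      have h6 : w.1 + σ * a' - (w.1 + σ * a) = σ * (a' - a) := by ring
      rw [h6, Qd_one hσ]
      exact h5) (by linarith) hb1
    have e2 := hna' (w.1 + σ * a') (min (e a) (e a') / 2) (by
      rw [sub_self, abs_zero]
      exact he') (by linarith) hb2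
    rw [← e2, e1]
  have hcont : ContinuousOn n (Set.Ioo 0 δ) := by
    intro a ha
    have h1 : n =ᶠ[𝓝[Set.Ioo 0 δ] a] fun _ => n a := by
      have h2 : Metric.ball a (e a) ∈ 𝓝[Set.Ioo 0 δ] a :=
        mem_nhdsWithin_of_mem_nhds (Metric.ball_mem_nhds a (hn a ha.1 ha.2).1)
      filter_upwards [h2, self_mem_nhdsWithin] with a' h3 h4
      rw [Metric.mem_ball, Real.dist_eq] at h3
      exact hloc a a' ha.1 ha.2 h4.1 h4.2 h3
    exact continuousWithinAt_const.congr_of_eventuallyEq h1 rfl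
  have hmid : δ / 2 ∈ Set.Ioo 0 δ := ⟨by linarith, by linarith⟩
  refine ⟨n (δ / 2), ?_⟩
  filter_upwards [Ioo_mem_nhdsGT hδ] with a ha
  filter_upwards [Ioo_mem_nhdsGT (hn a ha.1 ha.2).1] with b hb
  have h1 : n a = n (δ / 2) := isPreconnected_Ioo.constant hcont ha hmid
  rw [← h1]
  exact (hn a ha.1 ha.2).2 _ b (by rw [sub_self, abs_zero]; exact (hn a ha.1 ha.2).1) hb.1 hb.2

theorem crn_ex {U : Set V} {T : Finset (ℝ × ℝ × ℝ)} {C : Set V} (hU : IsOpen U) (h : TB U T C) (w : V) :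
    ∃ k, Crn (ind U) w k := by
  obtain ⟨n1, h1⟩ := qd hU h w 1 1 (Or.inl rfl) (Or.inl rfl)
  obtain ⟨n2, h2⟩ := qd hU h w 1 (-1) (Or.inl rfl) (Or.inr rfl)
  obtain ⟨n3, h3⟩ := qd hU h w (-1) 1 (Or.inr rfl) (Or.inl rfl)
  obtain ⟨n4, h4⟩ := qd hU h w (-1) (-1) (Or.inr rfl) (Or.inr rfl)
  refine ⟨n1 - n2 - n3 + n4, ?_⟩
  unfold Crn
  filter_upwards [h1, h2, h3, h4] with a g1 g2 g3 g4
  filter_upwards [g1, g2, g3, g4] with b k1 k2 k3 k4
  simp only [one_mul, neg_one_mul, ← sub_eq_add_neg] at k1 k2 k3 k4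
  unfold md
  rw [k1, k2, k3, k4]

end Pool.Agent.SQG
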