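import Pool.Agent.SQG.Gpt
import Pool.Agent.SQG.Qd
import Pool.Agent.SQG.Off
import Pool.Agent.SQG.Hfin

/-!
# SQG module Geo: the corner functions and their relation

PROOF. For each `h : O2`, `act h '' U` is open (image under the homeomorphism `mvH h 0`) and `tb_act hB h` holds, so
`crn_ex` gives `k h w` with `Crn (ind (act h '' U)) w (k h w)`; by `crn_fin` and `crn_uniq`, `k h w = 0` for all but
finitely many `w`.  `F h` is the element of the group ring with coefficients `k h`
(`Finsupp.ofSupportFinite`/`Finsupp.onFinset` and the constructor of `AddMonoidAlgebra` inverse to `coeff`).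
`rel`: compare the coefficients at `w` (`coeff_injective`, `Finsupp.ext`): the coefficient of
`single v 1 * F` at `w` is that of `F` at `w - v`.  By `crn_shift` and `crn_sum`,
`Crn (fun z => ∑ i, ind (act (h * g i) '' U) (z - act h (c i))) w (∑ i, k (h * g i) (w - act h (c i)))`; by
`gpt`, `off_fr` (for the sets `act h '' (mv (g i) (c i) '' U)`: `tb_mv` and `tb_act`; and for `act h '' sqo`:
`tb_sqo`, `tb_act`), `pts_all`, `pts_and`, `pts_mono` and `crn_congr` this function may be replaced by
`ind (act h '' sqo)`; conclude by `crn_sq` and `crn_uniq`.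
`fin`: if `F h ≠ 0` then some `l ∈ T.image (rl h)` has `l.1 = 0` (otherwise `crn_hor` gives all coefficients `0`), so
`h ∈ ⋃ l ∈ T, {h | (rl h l).1 = 0}`, which is finite by `hfin`.
-/

set_option autoImplicit false

open AddMonoidAlgebra Filter Topology

namespace Pool.Agent.SQG

private theorem Geo_open {U : Set V} (hU : IsOpen U) (h : O2) : IsOpen (act h '' U) := by
  have h1 : act h '' U = act h⁻¹ ⁻¹' U := by
    ext z
    exact mem_act_image h U z
  rw [h1]
  exact hU.preimage (continuous_act h⁻¹)

theorem geo {p : ℕ} {U : Set V} {g : Fin p → O2} {c : Fin p → V} (hT : Til p U g c)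
    {T : Finset (ℝ × ℝ × ℝ)} {C : Set V} (hB : TB U T C) : ∃ F, Dat p g c F := by
  classical
  have hex : ∀ (h : O2) (w : V), ∃ k, Crn (ind (act h '' U)) w k := fun h w =>
    crn_ex (Geo_open hT.opn h) (tb_act hB h) w
  choose k hk using hex
  have hfw : ∀ h : O2, (Function.support (k h)).Finite := by
    intro h
    refine (crn_fin (Geo_open hT.opn h) (tb_act hB h)).subset ?_
    intro w hw h0
    exact hw (crn_uniq (hk h w) h0)
  let F : O2 → AddMonoidAlgebra ℤ V := fun h => AddMonoidAlgebra.ofCoeff (Finsupp.ofSupportFinite (k h) (hfw h))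
  have hF : ∀ h w, (F h).coeff w = k h w := fun h w => rfl
  refine ⟨F, ?_, ?_⟩
  · intro h
    apply AddMonoidAlgebra.coeff_injective
    apply Finsupp.ext
    intro w
    have h1 : (∑ i, single (act h (c i)) (1 : ℤ) * F (h * g i)).coeff w =
        ∑ i, k (h * g i) (w - act h (c i)) := by
      rw [AddMonoidAlgebra.coeff_sum, Finsupp.finsetSum_apply]
      apply Finset.sum_congr rfl
      intro i _
      rw [AddMonoidAlgebra.coeff_single_mul_apply, one_mul, hF]
      congr 1
      abel
    rw [h1]
    have h2 : Crn (fun z => ∑ i, ind (act (h * g i) '' U) (z - act h (c i))) w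
        (∑ i, k (h * g i) (w - act h (c i))) := by
      apply crn_sum
      intro i _
      exact crn_shift (hk (h * g i) (w - act h (c i)))
    have h3 : Pts (fun z => ∑ i, ind (act (h * g i) '' U) (z - act h (c i)) = ind (act h '' sqo) z) w := by
      have h4 : Pts (fun z => ∀ i, z ∉ frontier (act h '' (mv (g i) (c i) '' U))) w := by
        apply pts_all
        intro i
        obtain ⟨T', C', hTB⟩ := tb_mv hB (g i) (c i)
        exact off_fr (tb_act hTB h) w
      have h5 : Pts (fun z => z ∉ frontier (act h '' sqo)) w := off_fr (tb_act tb_sqo h) w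
      exact pts_mono (pts_and h4 h5) fun z hz => gpt hT h z hz.1 hz.2
    exact crn_uniq (crn_congr h3 h2) (crn_sq h w)
  · have h6 : (⋃ l ∈ T, {h : O2 | (rl h l).1 = 0}).Finite :=
      Set.Finite.biUnion T.finite_toSet fun l hl => hfin l (hB.nd l hl)
    refine h6.subset ?_
    intro h hh
    by_contra hno
    apply hh
    apply AddMonoidAlgebra.coeff_injective
    apply Finsupp.ext
    intro w
    rw [hF]
    change k h w = 0
    refine crn_uniq (hk h w) (crn_hor (Geo_open hT.opn h) (tb_act hB h) w ?_)
    intro l hl hl0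
    exfalso
    apply hno
    obtain ⟨l', hl', rfl⟩ := Finset.mem_image.mp hl
    exact Set.mem_biUnion hl' hl0

end Pool.Agent.SQG
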