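import Pool.Agent.SQG.Sqb

/-!
# SQG module Gpt: the relation between the indicator functions at generic points

PROOF. `act h (mv g c z) = act (h * g) z + act h c`, so
`act h '' (mv (g i) (c i) '' U) = {z | z - act h (c i) ∈ act (h * g i) '' U}`.
Let `y = act h⁻¹ z` (so `z = act h y`).  `ind (act (h * g i) '' U) (z - act h (c i)) = ind (mv (g i) (c i) '' U) y`
and `ind (act h '' sqo) z = ind sqo y`.  `act h` is a homeomorphism (`mvH h 0`), so `y` is not in the frontier of
`mv (g i) (c i) '' U` nor of `sqo`.  If `y ∈ sqo`: by `cover` `y ∈ mv (g i) (c i) '' closure U = closure (mv ..'' U)`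
for some `i`, hence `y ∈ mv (g i) (c i) '' U` (an open set: its closure minus itself is its frontier), and for
`j ≠ i` `y ∉ mv (g j) (c j) '' U` (`disj`): the sum is `1` (`Finset.sum_eq_single`).  If `y ∉ sqo`, then
`y ∉ sq = closure sqo` (as `y ∉ frontier sqo`), so `y` is in no piece and the sum is `0`.
-/

set_option autoImplicit false

open AddMonoidAlgebra Filter Topology

namespace Pool.Agent.SQG

private theorem ind_congr {A B : Set V} {x y : V} (h : x ∈ A ↔ y ∈ B) : ind A x = ind B y := by
  unfold ind
  by_cases hx : x ∈ A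
  · rw [if_pos hx, if_pos (h.1 hx)]
  · rw [if_neg hx, if_neg (fun hy => hx (h.2 hy))]

private theorem act_mem_frontier (h : O2) (S : Set V) (y : V) (hy : y ∈ frontier S) :
    act h y ∈ frontier (act h '' S) := by
  have h1 : (act h : V → V) = mvH h 0 := by
    funext z
    change act h z = act h z + 0
    rw [add_zero]
  rw [h1, ← (mvH h 0).image_frontier]
  exact ⟨y, hy, rfl⟩

theorem gpt {p : ℕ} {U : Set V} {g : Fin p → O2} {c : Fin p → V} (hT : Til p U g c) (h : O2) (z : V)
    (hz : ∀ i, z ∉ frontier (act h '' (mv (g i) (c i) '' U))) (hz2 : z ∉ frontier (act h '' sqo)) :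
    ∑ i, ind (act (h * g i) '' U) (z - act h (c i)) = ind (act h '' sqo) z := by
  obtain ⟨y, rfl⟩ : ∃ y, act h y = z := ⟨act h⁻¹ z, act_act_inv h z⟩
  have e1 : ∀ i, ind (act (h * g i) '' U) (act h y - act h (c i)) = ind (mv (g i) (c i) '' U) y := by
    intro i
    apply ind_congr
    rw [mem_act_image, mem_mv_image, mul_inv_rev, act_mul, ← map_sub, act_inv_act]
  have e2 : ind (act h '' sqo) (act h y) = ind sqo y := by
    apply ind_congr
    rw [mem_act_image, act_inv_act]
  have f1 : ∀ i, y ∉ frontier (mv (g i) (c i) '' U) := fun i hi => hz i (act_mem_frontier h _ y hi)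
  have f2 : y ∉ frontier sqo := fun hi => hz2 (act_mem_frontier h _ y hi)
  have c1 : ∀ i, mv (g i) (c i) '' closure U = closure (mv (g i) (c i) '' U) := fun i =>
    (mvH (g i) (c i)).image_closure U
  have o1 : ∀ i, IsOpen (mv (g i) (c i) '' U) := fun i => (mvH (g i) (c i)).isOpenMap U hT.opn
  have m1 : ∀ i, y ∈ closure (mv (g i) (c i) '' U) → y ∈ mv (g i) (c i) '' U := by
    intro i hi
    by_contra hn
    apply f1 i
    rw [frontier, (o1 i).interior_eq]
    exact ⟨hi, hn⟩
  rw [Finset.sum_congr rfl (fun i _ => e1 i), e2]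
  by_cases hy : y ∈ sqo
  · have hy1 : y ∈ sq := by
      rw [← closure_sqo]
      exact subset_closure hy
    rw [← hT.cover, Set.mem_iUnion] at hy1
    obtain ⟨i, hi⟩ := hy1
    rw [c1 i] at hi
    have hi2 := m1 i hi
    rw [Finset.sum_eq_single i]
    · unfold ind
      rw [if_pos hi2, if_pos hy]
    · intro j _ hj
      unfold ind
      rw [if_neg]
      intro hj2
      exact Set.disjoint_left.1 (hT.disj j i hj) hj2 hi2
    · intro hi3
      exact absurd (Finset.mem_univ i) hi3
  · have hy1 : y ∉ sq := by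
      intro hs
      apply f2
      rw [frontier, closure_sqo, isOpen_sqo.interior_eq]
      exact ⟨hs, hy⟩
    have e3 : ind sqo y = 0 := by
      unfold ind
      rw [if_neg hy]
    rw [e3]
    apply Finset.sum_eq_zero
    intro i _
    unfold ind
    rw [if_neg]
    intro hi
    apply hy1
    rw [← hT.cover, Set.mem_iUnion]
    exact ⟨i, by rw [c1 i]; exact subset_closure hi⟩

end Pool.Agent.SQG
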