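import Pool.Agent.SQG.Defs

/-!
# SQG module Hlf: the indicator function is constant on a half square

PROOF. `S = {z | |z.1 - x| < ε ∧ 0 < τ * (z.2 - t) ∧ τ * (z.2 - t) < ε}` is convex (a product of two intervals:
`Ioo ×ˢ Ioo` of reals), hence preconnected (`Convex.isPreconnected`), and disjoint from `frontier U`.  As `U` is
open, `U` and `(closure U)ᶜ` are disjoint open sets which cover the complement of the frontier
(`frontier U = closure U \ interior U`), so `S ⊆ U` or `S ⊆ (closure U)ᶜ`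
(`IsPreconnected.subset_or_subset` or `isPreconnected_iff_subset_of_disjoint`).  Take `n = 1` or `n = 0`.
-/

set_option autoImplicit false

open AddMonoidAlgebra Filter Topology

namespace Pool.Agent.SQG

private theorem Hlf_const {U S : Set V} (hU : IsOpen U) (hS : IsPreconnected S)
    (h : ∀ z ∈ S, z ∉ frontier U) : ∃ n : ℤ, ∀ z ∈ S, ind U z = n := by
  classical
  have hcov : S ⊆ U ∪ (closure U)ᶜ := by
    intro z hz
    by_cases h1 : z ∈ closure U
    · left
      by_contra h2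
      apply h z hz
      rw [hU.frontier_eq]
      exact ⟨h1, h2⟩
    · exact Or.inr h1
  have hdis : Disjoint U (closure U)ᶜ :=
    Set.disjoint_compl_right_iff_subset.2 subset_closure
  rcases hS.subset_or_subset hU isClosed_closure.isOpen_compl hdis hcov with h1 | h1
  · refine ⟨1, fun z hz => ?_⟩
    unfold ind
    rw [if_pos (h1 hz)]
  · refine ⟨0, fun z hz => ?_⟩
    unfold ind
    rw [if_neg (fun h2 => h1 hz (subset_closure h2))]

theorem half {U : Set V} (hU : IsOpen U) (t x ε : ℝ)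
    (h : ∀ z : V, |z.1 - x| < ε → |z.2 - t| < ε → z ∈ frontier U → z.2 = t) (τ : ℝ) (hτ : τ = 1 ∨ τ = -1) :
    ∃ n : ℤ, ∀ x' b : ℝ, |x' - x| < ε → 0 < b → b < ε → ind U (x', t + τ * b) = n := by
  rcases hτ with rfl | rfl
  · have hpre : IsPreconnected (Set.Ioo (x - ε) (x + ε) ×ˢ Set.Ioo t (t + ε) : Set V) :=
      isPreconnected_Ioo.prod isPreconnected_Ioo
    obtain ⟨n, hn⟩ := Hlf_const hU hpre (by
      rintro z ⟨h1, h2⟩ hz
      rw [Set.mem_Ioo] at h1 h2
      have h3 := h z (abs_lt.2 ⟨by linarith [h1.1], by linarith [h1.2]⟩)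
        (abs_lt.2 ⟨by linarith [h2.1], by linarith [h2.2]⟩) hz
      linarith [h2.1])
    refine ⟨n, fun x' b hx hb hbe => hn _ ⟨?_, ?_⟩⟩
    · rw [abs_lt] at hx
      exact ⟨by linarith [hx.1], by linarith [hx.2]⟩
    · exact ⟨by simp only; linarith, by simp only; linarith⟩
  · have hpre : IsPreconnected (Set.Ioo (x - ε) (x + ε) ×ˢ Set.Ioo (t - ε) t : Set V) :=
      isPreconnected_Ioo.prod isPreconnected_Ioo
    obtain ⟨n, hn⟩ := Hlf_const hU hpre (by
      rintro z ⟨h1, h2⟩ hz
      rw [Set.mem_Ioo] at h1 h2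
      have h3 := h z (abs_lt.2 ⟨by linarith [h1.1], by linarith [h1.2]⟩)
        (abs_lt.2 ⟨by linarith [h2.1], by linarith [h2.2]⟩) hz
      linarith [h2.2])
    refine ⟨n, fun x' b hx hb hbe => hn _ ⟨?_, ?_⟩⟩
    · rw [abs_lt] at hx
      exact ⟨by linarith [hx.1], by linarith [hx.2]⟩
    · exact ⟨by simp only; linarith, by simp only; linarith⟩

/-- If the frontier does not meet the square, the indicator function is constant there. -/
theorem full {U : Set V} (hU : IsOpen U) (t x ε : ℝ)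
    (h : ∀ z : V, |z.1 - x| < ε → |z.2 - t| < ε → z ∉ frontier U) :
    ∃ n : ℤ, ∀ x' y' : ℝ, |x' - x| < ε → |y' - t| < ε → ind U (x', y') = n := by
  have hpre : IsPreconnected (Set.Ioo (x - ε) (x + ε) ×ˢ Set.Ioo (t - ε) (t + ε) : Set V) :=
    isPreconnected_Ioo.prod isPreconnected_Ioo
  obtain ⟨n, hn⟩ := Hlf_const hU hpre (by
    rintro z ⟨h1, h2⟩
    rw [Set.mem_Ioo] at h1 h2
    exact h z (abs_lt.2 ⟨by linarith [h1.1], by linarith [h1.2]⟩)
      (abs_lt.2 ⟨by linarith [h2.1], by linarith [h2.2]⟩))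
  refine ⟨n, fun x' y' hx hy => hn _ ⟨?_, ?_⟩⟩
  · rw [abs_lt] at hx
    exact ⟨by linarith [hx.1], by linarith [hx.2]⟩
  · rw [abs_lt] at hy
    exact ⟨by linarith [hy.1], by linarith [hy.2]⟩

end Pool.Agent.SQG
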