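import Pool.Agent.SQG.Defs

/-!
# SQG module Ord: orders at 1 modulo p

Write `T = single 1 1 - 1` in `AddMonoidAlgebra (ZMod p) ℤ` (a domain).
PROOF. `ord_single`: for `L = p ^ e * m`, `p ∤ m`, `m > 0`: `single L 1 - 1 = (single m 1 - 1) ^ (p ^ e)` (Frobenius,
`sub_pow_char_pow`, `AddMonoidAlgebra.single_pow`; `CharP (AddMonoidAlgebra (ZMod p) ℤ) p`) and
`single m 1 - 1 = T * ∑ j < m, single j 1` (geometric sum), whose second factor has augmentation `m ≠ 0`.  For
`L < 0`: `single L 1 - 1 = - single L 1 * (single (-L) 1 - 1)`.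
`dvd_aug`: `f - single 0 (aug f)` is divisible by `T` (`induction_linear`, `single a 1 - 1` is divisible by `T` for
all integers `a`), so `aug f = 0` implies `T ∣ f`.
`ord_fam`: for `f ≠ 0` there is a bound for the `e` with `T ^ e ∣ f` (multiply `f` by `single n 1` to get the image
of a polynomial, `T` corresponds to `X - 1`; e.g. use that the degree of the nonzero polynomial bounds `e`; or use
the injection of Laurent polynomials `AddMonoidAlgebra K ℤ = LaurentPolynomial K`, `LaurentPolynomial`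
lemmas; or: `FiniteMultiplicity` in a Noetherian domain, `T` is not a unit as its augmentation is `0`;
`AddMonoidAlgebra K ℤ` is Noetherian: `AddMonoidAlgebra.instIsNoetherianRing`-like for finitely generated monoids).
Take the largest `e` with `T ^ e ∣ f i` for all `i` (`Nat.find` of the first failure), `f i = T ^ e * f' i`
(`f' i = 0` if `f i = 0`); if all `aug (f' i) = 0` then `T ^ (e + 1)` divides all `f i`.
-/

set_option autoImplicit false

open AddMonoidAlgebra Filter Topology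

namespace Pool.Agent.SQG

private theorem T_dvd_nat (p : ℕ) (n : ℕ) :
    (single (1 : ℤ) (1 : ZMod p) - 1 : AddMonoidAlgebra (ZMod p) ℤ) ∣ single (n : ℤ) (1 : ZMod p) - 1 := by
  have h1 : (single (n : ℤ) (1 : ZMod p) : AddMonoidAlgebra (ZMod p) ℤ) = (single (1 : ℤ) (1 : ZMod p)) ^ n := by
    rw [AddMonoidAlgebra.single_pow, one_pow]
    simp
  have h2 := sub_dvd_pow_sub_pow (single (1 : ℤ) (1 : ZMod p) : AddMonoidAlgebra (ZMod p) ℤ) 1 n
  rw [one_pow] at h2
  rw [h1]
  exact h2

private theorem single_neg_sub (p : ℕ) (a : ℤ) :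
    (single (-a) (1 : ZMod p) - 1 : AddMonoidAlgebra (ZMod p) ℤ) =
      (-single (-a) (1 : ZMod p)) * (single a (1 : ZMod p) - 1) := by
  rw [mul_sub, mul_one, neg_mul, AddMonoidAlgebra.single_mul_single, neg_add_cancel, mul_one,
    ← AddMonoidAlgebra.one_def]
  ring

private theorem T_dvd_int (p : ℕ) (a : ℤ) :
    (single (1 : ℤ) (1 : ZMod p) - 1 : AddMonoidAlgebra (ZMod p) ℤ) ∣ single a (1 : ZMod p) - 1 := by
  obtain ⟨n, rfl | rfl⟩ := Int.eq_nat_or_neg a
  · exact T_dvd_nat p n
  · rw [single_neg_sub]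
    exact Dvd.dvd.mul_left (T_dvd_nat p n) _

theorem dvd_aug (p : ℕ) [Fact p.Prime] (f : AddMonoidAlgebra (ZMod p) ℤ) (h : aug (ZMod p) f = 0) :
    ∃ f', f = (single (1 : ℤ) (1 : ZMod p) - 1) * f' := by
  have key : ∀ f : AddMonoidAlgebra (ZMod p) ℤ,
      (single (1 : ℤ) (1 : ZMod p) - 1) ∣ f - single 0 (aug (ZMod p) f) := by
    intro f
    induction f using AddMonoidAlgebra.induction_linear with
    | zero => simp
    | add x y hx hy =>
      have h1 := dvd_add hx hy
      rw [map_add, AddMonoidAlgebra.single_add]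
      convert h1 using 1
      ring
    | single a c =>
      rw [aug_single]
      have h1 : (single a c - single 0 c : AddMonoidAlgebra (ZMod p) ℤ) =
          single 0 c * (single a (1 : ZMod p) - 1) := by
        rw [mul_sub, AddMonoidAlgebra.single_mul_single, zero_add, mul_one, mul_one]
      rw [h1]
      exact Dvd.dvd.mul_left (T_dvd_int p a) _
  have h1 := key f
  rw [h, AddMonoidAlgebra.single_zero, sub_zero] at h1
  exact h1

private theorem ord_single_nat (p : ℕ) [Fact p.Prime] (n : ℕ) (hn : n ≠ 0) :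
    ∃ (E : ℕ) (u : AddMonoidAlgebra (ZMod p) ℤ),
      single (n : ℤ) (1 : ZMod p) - 1 = (single (1 : ℤ) (1 : ZMod p) - 1) ^ E * u ∧ aug (ZMod p) u ≠ 0 := by
  have hp : p.Prime := Fact.out
  obtain ⟨e, m, hm, rfl⟩ := Nat.exists_eq_pow_mul_and_not_dvd hn p hp.ne_one
  have : CharP (AddMonoidAlgebra (ZMod p) ℤ) p := charP_of_injective_algebraMap
    (algebraMap (ZMod p) (AddMonoidAlgebra (ZMod p) ℤ)).injective p
  refine ⟨p ^ e, (∑ j ∈ Finset.range m, (single (1 : ℤ) (1 : ZMod p)) ^ j) ^ (p ^ e), ?_, ?_⟩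
  · rw [← mul_pow, mul_comm (single (1 : ℤ) (1 : ZMod p) - 1 : AddMonoidAlgebra (ZMod p) ℤ), geom_sum_mul,
      sub_pow_char_pow, one_pow, ← pow_mul, AddMonoidAlgebra.single_pow, one_pow]
    congr 2
    rw [mul_comm m]
    simp
  · rw [map_pow, map_sum]
    have h1 : ∀ j ∈ Finset.range m, aug (ZMod p) ((single (1 : ℤ) (1 : ZMod p)) ^ j) = 1 := by
      intro j _
      rw [map_pow, aug_single, one_pow]
    rw [Finset.sum_congr rfl h1]
    simp only [Finset.sum_const, Finset.card_range, nsmul_eq_mul, mul_one]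
    apply pow_ne_zero
    rw [Ne, ZMod.natCast_eq_zero_iff]
    exact hm

theorem ord_single (p : ℕ) [Fact p.Prime] (L : ℤ) (hL : L ≠ 0) :
    ∃ (E : ℕ) (u : AddMonoidAlgebra (ZMod p) ℤ),
      single L (1 : ZMod p) - 1 = (single (1 : ℤ) (1 : ZMod p) - 1) ^ E * u ∧ aug (ZMod p) u ≠ 0 := by
  obtain ⟨n, rfl | rfl⟩ := Int.eq_nat_or_neg L
  · exact ord_single_nat p n (by simpa using hL)
  · obtain ⟨E, u, h1, h2⟩ := ord_single_nat p n (by simpa using hL)
    refine ⟨E, -single (-(n : ℤ)) (1 : ZMod p) * u, ?_, ?_⟩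
    · rw [single_neg_sub, h1]
      ring
    · rw [map_mul, map_neg, aug_single]
      exact mul_ne_zero (neg_ne_zero.mpr one_ne_zero) h2

theorem ord_fam (p : ℕ) [Fact p.Prime] {ι : Type} (f : ι → AddMonoidAlgebra (ZMod p) ℤ)
    (hf : {i | f i ≠ 0}.Finite) (h0 : ∃ i, f i ≠ 0) :
    ∃ (e : ℕ) (f' : ι → AddMonoidAlgebra (ZMod p) ℤ), (∀ i, f i = (single (1 : ℤ) (1 : ZMod p) - 1) ^ e * f' i) ∧
      {i | f' i ≠ 0}.Finite ∧ ∃ i, aug (ZMod p) (f' i) ≠ 0 := by
  classical
  obtain ⟨i0, hi0⟩ := h0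
  set T : AddMonoidAlgebra (ZMod p) ℤ := single (1 : ℤ) (1 : ZMod p) - 1 with hT
  have hTaug : aug (ZMod p) T = 0 := by
    rw [hT, map_sub, aug_single, map_one, sub_self]
  have hTu : ¬ IsUnit T := by
    intro h
    have h1 := h.map (aug (ZMod p))
    rw [hTaug] at h1
    exact not_isUnit_zero h1
  have hnoeth : IsNoetherianRing (AddMonoidAlgebra (ZMod p) ℤ) :=
    IsLocalization.isNoetherianRing (Submonoid.powers (Polynomial.X : Polynomial (ZMod p)))
      (LaurentPolynomial (ZMod p)) inferInstance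
  have hfm : FiniteMultiplicity T (f i0) := FiniteMultiplicity.of_not_isUnit hTu hi0
  have hex : ∃ n, ¬ ∀ i, T ^ n ∣ f i := by
    obtain ⟨n, hn⟩ := hfm
    exact ⟨n + 1, fun h => hn (h i0)⟩
  have hn0 : Nat.find hex ≠ 0 := by
    intro h
    have h1 := Nat.find_spec hex
    rw [h] at h1
    exact h1 fun i => by rw [pow_zero]; exact one_dvd _
  obtain ⟨e, he⟩ := Nat.exists_eq_succ_of_ne_zero hn0
  have h2 : ∀ i, T ^ e ∣ f i := by
    have h3 := Nat.find_min hex (m := e) (by omega)
    exact not_not.mp h3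
  choose f' hf' using h2
  refine ⟨e, f', hf', hf.subset fun i hi => ?_, ?_⟩
  · have hT0 : T ≠ 0 := by
      intro h
      have h1 : single (1 : ℤ) (1 : ZMod p) = (single (0 : ℤ) (1 : ZMod p)) := by
        rw [← AddMonoidAlgebra.one_def]
        exact sub_eq_zero.mp h
      have h3 := congrArg (fun a : AddMonoidAlgebra (ZMod p) ℤ => a.coeff 0) h1
      simp only [coeff_single, Finsupp.single_apply] at h3
      simp at h3
    intro h
    have h4 := hf' i
    rw [h] at h4
    rcases mul_eq_zero.mp h4.symm with h5 | h5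
    · exact pow_ne_zero e hT0 h5
    · exact hi h5
  · by_contra hcon
    push Not at hcon
    apply Nat.find_spec hex
    intro i
    obtain ⟨g, hg⟩ := dvd_aug p (f' i) (hcon i)
    rw [he, hf' i, hg, pow_succ, ← mul_assoc]
    exact dvd_mul_right _ _

end Pool.Agent.SQG
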