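import Pool.Agent.SQG.Onz
import Pool.Agent.SQG.Ord

/-!
# SQG module Inf: no dissection if the sum of the linear parts is no zero divisor modulo p

PROOF. Take `f, k, m, L1, L2` from `onz`.  Some `f h ≠ 0` (otherwise the relation for `h = 1`, `ax_one`, gives
`qq (ZMod p) L1 L2 = 0`, but both factors are nonzero in a domain: `ord_single`).  Let `T = single 1 1 - 1`,
`single Lj 1 - 1 = T ^ Ej * uj`, `E = E1 + E2`, and `f = T ^ e * f'` from `ord_fam`.
Case `e < E`: cancel `T ^ e` in the relations (`T ≠ 0`, domain): for all `h`,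
`∑ i, single (k h i) 1 * f' (h * g i) = T * (..)`; apply `aug`: `∑ i, aug (f' (h * g i)) = 0` for all `h`.  So
`X = fun h => aug (f' h)`, with finite support, is `0` by `hI`, a contradiction to `∃ h, aug (f' h) ≠ 0`.
Case `E ≤ e`: put `ψ h = aug (T ^ (e - E) * f' h)`; cancelling `T ^ E` and applying `aug`:
`∑ i, ψ (h * g i) = β` if `Ax h`, `= 0` otherwise, with `β = aug u1 * aug u2 ≠ 0`.  Sum over all `h`
(`finsum`, or a finite set containing the supports of all functions `h ↦ ψ (h * g i)`, `ψ` and the set `S` of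
`ax_card`; `∑ over h of ψ (h * g i) = ∑ ψ` as `h ↦ h * g i` is a bijection, e.g. `finsum_comp_equiv (Equiv.mulRight
(g i))`): `p * ∑ ψ = 8 * β`, so `8 * β = 0` in `ZMod p`, impossible for an odd prime.
-/

set_option autoImplicit false

open AddMonoidAlgebra Filter Topology

namespace Pool.Agent.SQG

theorem inf {p : ℕ} (hp : p.Prime) (hp2 : p ≠ 2) {g : Fin p → O2} {c : Fin p → V}
    {F : O2 → AddMonoidAlgebra ℤ V} (D : Dat p g c F) (hI : Inj p g) : False := by
  classical
  have : Fact p.Prime := ⟨hp⟩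
  obtain ⟨f, k, m, L1, L2, hL1, hL2, hfin, hax, hnax⟩ := onz D
  obtain ⟨E1, u1, h1, hu1⟩ := ord_single p L1 hL1
  obtain ⟨E2, u2, h2, hu2⟩ := ord_single p L2 hL2
  obtain ⟨T, hT⟩ : ∃ T : AddMonoidAlgebra (ZMod p) ℤ, T = single (1 : ℤ) (1 : ZMod p) - 1 := ⟨_, rfl⟩
  rw [← hT] at h1 h2
  have hTaug : aug (ZMod p) T = 0 := by
    rw [hT, map_sub, aug_single, map_one, sub_self]
  have hqq : qq (ZMod p) L1 L2 = T ^ (E1 + E2) * (u1 * u2) := by
    unfold qq
    rw [h1, h2, pow_add]
    ring
  have hT0 : T ≠ 0 := by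
    intro h
    rw [hT] at h
    have h1 : single (1 : ℤ) (1 : ZMod p) = (single (0 : ℤ) (1 : ZMod p)) := by
      rw [← AddMonoidAlgebra.one_def]
      exact sub_eq_zero.mp h
    have h3 := congrArg (fun a : AddMonoidAlgebra (ZMod p) ℤ => a.coeff 0) h1
    simp only [coeff_single, Finsupp.single_apply] at h3
    simp at h3
  have hu12 : aug (ZMod p) (u1 * u2) ≠ 0 := by
    rw [map_mul]
    exact mul_ne_zero hu1 hu2
  have hu0 : u1 * u2 ≠ 0 := by
    intro h
    rw [h, map_zero] at hu12
    exact hu12 rfl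
  have hsg : ∀ a : ℤ, (single a (1 : ZMod p) : AddMonoidAlgebra (ZMod p) ℤ) ≠ 0 := by
    intro a h
    have h3 := congrArg (aug (ZMod p)) h
    rw [aug_single, map_zero] at h3
    exact one_ne_zero h3
  have hex : ∃ h, f h ≠ 0 := by
    by_contra hcon
    push Not at hcon
    have h3 := hax 1 ax_one
    simp only [hcon, mul_zero, Finset.sum_const_zero] at h3
    rw [hqq] at h3
    exact mul_ne_zero (hsg _) (mul_ne_zero (pow_ne_zero _ hT0) hu0) h3.symm
  obtain ⟨e, f', hf', hf'fin, h0, hh0⟩ := ord_fam p f hfin hex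
  rw [← hT] at hf'
  rcases lt_or_ge e (E1 + E2) with he | he
  · obtain ⟨d, hd⟩ := Nat.exists_eq_add_of_lt he
    have key : ∀ h, ∃ Y, ∑ i, single (k h i) 1 * f' (h * g i) = T * Y := by
      intro h
      have hs : ∑ i, single (k h i) 1 * f (h * g i) = T ^ e * ∑ i, single (k h i) 1 * f' (h * g i) := by
        rw [Finset.mul_sum]
        refine Finset.sum_congr rfl fun i _ => ?_
        rw [hf']
        ring
      by_cases hh : Ax h
      · refine ⟨T ^ d * (single (m h) 1 * (u1 * u2)), ?_⟩
        apply mul_left_cancel₀ (pow_ne_zero e hT0)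
        rw [← hs, hax h hh, hqq, hd]
        ring
      · refine ⟨0, ?_⟩
        apply mul_left_cancel₀ (pow_ne_zero e hT0)
        rw [← hs, hnax h hh]
        ring
    have key2 : ∀ h, ∑ i, aug (ZMod p) (f' (h * g i)) = 0 := by
      intro h
      obtain ⟨Y, hY⟩ := key h
      have h3 := congrArg (aug (ZMod p)) hY
      rw [map_sum, map_mul, hTaug, zero_mul] at h3
      simpa only [map_mul, aug_single, one_mul] using h3
    have hXfin : (Function.support fun h => aug (ZMod p) (f' h)).Finite := by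
      refine hf'fin.subset fun h hh hz => hh ?_
      show aug (ZMod p) (f' h) = 0
      rw [hz, map_zero]
    have hX := hI (Finsupp.ofSupportFinite (fun h => aug (ZMod p) (f' h)) hXfin) (fun h => by
      simpa only [Finsupp.ofSupportFinite_coe] using key2 h)
    apply hh0
    have h3 := DFunLike.congr_fun hX h0
    simpa only [Finsupp.ofSupportFinite_coe, Finsupp.coe_zero, Pi.zero_apply] using h3
  · obtain ⟨d, hd⟩ := Nat.exists_eq_add_of_le he
    obtain ⟨ψ, hψ⟩ : ∃ ψ : O2 → ZMod p, ψ = fun h => aug (ZMod p) (T ^ d * f' h) := ⟨_, rfl⟩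
    obtain ⟨β, hβ⟩ : ∃ β : ZMod p, β = aug (ZMod p) (u1 * u2) := ⟨_, rfl⟩
    have hs : ∀ h, ∑ i, single (k h i) 1 * f (h * g i) =
        T ^ (E1 + E2) * ∑ i, single (k h i) 1 * (T ^ d * f' (h * g i)) := by
      intro h
      rw [Finset.mul_sum]
      refine Finset.sum_congr rfl fun i _ => ?_
      rw [hf', hd]
      ring
    have ka : ∀ h, Ax h → ∑ i, ψ (h * g i) = β := by
      intro h hh
      have h3 : ∑ i, single (k h i) 1 * (T ^ d * f' (h * g i)) = single (m h) 1 * (u1 * u2) := by
        apply mul_left_cancel₀ (pow_ne_zero (E1 + E2) hT0)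
        rw [← hs, hax h hh, hqq]
        ring
      have h4 := congrArg (aug (ZMod p)) h3
      rw [map_sum, map_mul, aug_single, one_mul, ← hβ] at h4
      rw [← h4, hψ]
      refine Finset.sum_congr rfl fun i _ => ?_
      rw [map_mul (aug (ZMod p)) (single (k h i) 1), aug_single, one_mul]
    have kn : ∀ h, ¬ Ax h → ∑ i, ψ (h * g i) = 0 := by
      intro h hh
      have h3 : ∑ i, single (k h i) 1 * (T ^ d * f' (h * g i)) = 0 := by
        apply mul_left_cancel₀ (pow_ne_zero (E1 + E2) hT0)
        rw [← hs, hnax h hh, mul_zero]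
      have h4 := congrArg (aug (ZMod p)) h3
      rw [map_sum, map_zero] at h4
      rw [← h4, hψ]
      refine Finset.sum_congr rfl fun i _ => ?_
      rw [map_mul (aug (ZMod p)) (single (k h i) 1), aug_single, one_mul]
    have hψfin : (Function.support ψ).Finite := by
      refine hf'fin.subset fun h hh hz => hh ?_
      rw [hψ]
      show aug (ZMod p) (T ^ d * f' h) = 0
      rw [hz, mul_zero, map_zero]
    obtain ⟨S, hS8, hS⟩ := ax_card
    have hfi : ∀ i, (Function.support fun h => ψ (h * g i)).Finite := by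
      intro i
      exact hψfin.preimage (mul_left_injective (g i)).injOn
    have e1 : ∑ᶠ h, ∑ i, ψ (h * g i) = ∑ i, ∑ᶠ h, ψ (h * g i) :=
      finsum_sum_comm _ _ fun i _ => hfi i
    have e2 : ∀ i, ∑ᶠ h, ψ (h * g i) = ∑ᶠ h, ψ h := by
      intro i
      exact finsum_comp_equiv (Equiv.mulRight (g i))
    have e3 : ∑ᶠ h, ∑ i, ψ (h * g i) = 8 * β := by
      have h5 : ∀ h, ∑ i, ψ (h * g i) = if h ∈ S then β else 0 := by
        intro h
        by_cases hh : Ax h
        · rw [if_pos ((hS h).2 hh), ka h hh]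
        · rw [if_neg (fun h6 => hh ((hS h).1 h6)), kn h hh]
      rw [finsum_congr h5, finsum_eq_sum_of_support_subset (s := S)]
      · rw [Finset.sum_congr rfl (fun x hx => if_pos hx), Finset.sum_const, hS8, nsmul_eq_mul]
        norm_num
      · intro h hh
        by_contra h6
        apply hh
        exact if_neg h6
    have e4 : ∑ i : Fin p, ∑ᶠ h, ψ (h * g i) = 0 := by
      rw [Finset.sum_congr rfl (fun i _ => e2 i), Finset.sum_const, Finset.card_univ, Fintype.card_fin,
        nsmul_eq_mul, CharP.cast_eq_zero, zero_mul]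
    have e5 : (8 : ZMod p) * β = 0 := by
      rw [← e3, e1, e4]
    have hβ0 : β ≠ 0 := by
      rw [hβ]
      exact hu12
    have h8 : (8 : ZMod p) = 0 := by
      rcases mul_eq_zero.mp e5 with h | h
      · exact h
      · exact absurd h hβ0
    have h9 : ((8 : ℕ) : ZMod p) = 0 := by exact_mod_cast h8
    rw [ZMod.natCast_eq_zero_iff] at h9
    have h10 : p ∣ 2 ^ 3 := by norm_num; exact h9
    have h11 := hp.dvd_of_dvd_pow h10
    exact hp2 ((Nat.prime_dvd_prime_iff_eq hp Nat.prime_two).1 h11)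

end Pool.Agent.SQG
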