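import Mathlib

/-!
# SQG module Spl: splitting of a finitely generated abelian group

PROOF. `CommGroup.equiv_free_prod_prod_multiplicative_zmod` (or the additive version for `Additive Λ`): `Λ` is
isomorphic to the product of a free abelian group `ℤ ^ n` and a finite group `R`.  `r` is the projection on `R`
followed by the inclusion; an element has finite order iff its component in `ℤ ^ n` is trivial (torsion free), and
then `r x = x`.  For `lam` take the composition of the projection on `ℤ ^ n` with a homomorphism `ℤ ^ n → ℤ` which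
does not vanish at the finitely many nonzero components of the elements of `S`: e.g. `v ↦ ∑ v_j * B ^ j`
with `B` large, or `Module.exists_dual_forall_apply_ne_zero` over `ℚ` for `ℚ ^ n` and clearing denominators.
-/

set_option autoImplicit false

open AddMonoidAlgebra Filter Topology

namespace Pool.Agent.SQG

private theorem spl_fun (n : ℕ) (T : Set (Fin n → ℤ)) (hT : T.Finite) :
    ∃ φ : (Fin n → ℤ) →+ ℤ, ∀ v ∈ T, φ v = 0 → v = 0 := by
  classical
  let P : (Fin n → ℤ) → Polynomial ℤ := fun v => ∑ i, Polynomial.C (v i) * Polynomial.X ^ (i : ℕ)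
  have hcoeff : ∀ v (i : Fin n), (P v).coeff i = v i := by
    intro v i
    simp only [P, Polynomial.finsetSum_coeff, Polynomial.coeff_C_mul, Polynomial.coeff_X_pow]
    rw [Finset.sum_eq_single i]
    · simp
    · intro k _ hk
      rw [if_neg, mul_zero]
      intro h
      exact hk (Fin.ext h.symm)
    · intro h
      exact absurd (Finset.mem_univ i) h
  have hP : ∀ v, v ≠ 0 → P v ≠ 0 := by
    intro v hv h0
    apply hv
    ext i
    have := hcoeff v i
    rw [h0] at this
    simpa using this.symm
  let Q : Polynomial ℤ := ∏ v ∈ hT.toFinset.filter (fun v => v ≠ 0), P v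
  have hQ : Q ≠ 0 := by
    rw [Finset.prod_ne_zero_iff]
    intro v hv
    exact hP v (Finset.mem_filter.1 hv).2
  obtain ⟨B, hB⟩ : ∃ B : ℤ, Q.eval B ≠ 0 := by
    by_contra hcon
    push Not at hcon
    apply hQ
    apply Polynomial.funext
    intro r
    rw [hcon r, Polynomial.eval_zero]
  refine ⟨{ toFun := fun v => (P v).eval B, map_zero' := ?_, map_add' := ?_ }, ?_⟩
  · simp [P]
  · intro x y
    simp only [P, Pi.add_apply, Polynomial.eval_finsetSum, Polynomial.eval_mul, Polynomial.eval_C,
      Polynomial.eval_pow, Polynomial.eval_X, add_mul, Finset.sum_add_distrib]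
  · intro v hv h0
    by_contra hne
    apply hB
    change (P v).eval B = 0 at h0
    rw [Polynomial.eval_prod]
    exact Finset.prod_eq_zero (Finset.mem_filter.2 ⟨hT.mem_toFinset.2 hv, hne⟩) h0

private theorem spl_tf (x : Multiplicative ℤ) (h : IsOfFinOrder x) : x = 1 := by
  rw [isOfFinOrder_iff_pow_eq_one] at h
  obtain ⟨n, hn, h1⟩ := h
  have h2 : n • (Multiplicative.toAdd x) = 0 := by
    rw [← toAdd_pow, h1, toAdd_one]
  have h3 : Multiplicative.toAdd x = 0 := by
    rcases smul_eq_zero.1 h2 with h4 | h4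
    · omega
    · exact h4
  exact Multiplicative.toAdd.injective h3

theorem spl (Λ : Type) [CommGroup Λ] [Group.FG Λ] (S : Set Λ) (hS : S.Finite) :
    ∃ (r : Λ →* Λ) (lam : Λ →* Multiplicative ℤ), (∀ x, IsOfFinOrder (r x)) ∧ (∀ x, IsOfFinOrder x → r x = x) ∧
      ∀ x ∈ S, lam x = 1 → IsOfFinOrder x := by
  classical
  obtain ⟨ι, j, hι, hj, p, hp, k, ⟨e⟩⟩ := CommGroup.equiv_free_prod_prod_multiplicative_zmod Λ
  have : ∀ i, NeZero (p i ^ k i) := fun i => ⟨pow_ne_zero _ (hp i).ne_zero⟩
  have : ∀ i, Finite (Multiplicative (ZMod (p i ^ k i))) := fun i =>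
    inferInstanceAs (Finite (ZMod (p i ^ k i)))
  let r : Λ →* Λ := e.symm.toMonoidHom.comp ((MonoidHom.inr _ _).comp ((MonoidHom.snd _ _).comp e.toMonoidHom))
  have hr : ∀ x, r x = e.symm (1, (e x).2) := fun x => rfl
  have hfin : ∀ x, (e x).1 = 1 → IsOfFinOrder x := by
    intro x hx
    have h1 : IsOfFinOrder (e x).2 := isOfFinOrder_of_finite _
    have h2 : IsOfFinOrder (e.symm ((MonoidHom.inr (j → Multiplicative ℤ) _) (e x).2)) :=
      (e.symm.toMonoidHom.comp (MonoidHom.inr _ _)).isOfFinOrder h1
    have h3 : e.symm ((MonoidHom.inr (j → Multiplicative ℤ) _) (e x).2) = x := by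
      rw [MulEquiv.symm_apply_eq]
      ext1
      · exact hx.symm
      · rfl
    rwa [h3] at h2
  have hinf : ∀ x, IsOfFinOrder x → (e x).1 = 1 := by
    intro x hx
    funext i
    apply spl_tf
    have h1 : IsOfFinOrder (e x) := e.toMonoidHom.isOfFinOrder hx
    have h2 : IsOfFinOrder ((e x).1) := (MonoidHom.fst _ _).isOfFinOrder h1
    exact (Pi.evalMonoidHom (fun _ : j => Multiplicative ℤ) i).isOfFinOrder h2
  let E : j ≃ Fin (Fintype.card j) := Fintype.equivFin j
  let vec : Λ → (Fin (Fintype.card j) → ℤ) := fun x i => Multiplicative.toAdd ((e x).1 (E.symm i))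
  obtain ⟨φ, hφ⟩ := spl_fun (Fintype.card j) (vec '' S) (hS.image _)
  have hvmul : ∀ x y, vec (x * y) = vec x + vec y := by
    intro x y
    funext i
    simp only [vec, map_mul, Prod.fst_mul, Pi.mul_apply, toAdd_mul, Pi.add_apply]
  have hvone : vec 1 = 0 := by
    funext i
    simp only [vec, map_one, Prod.fst_one, Pi.one_apply, toAdd_one, Pi.zero_apply]
  refine ⟨r, { toFun := fun x => Multiplicative.ofAdd (φ (vec x)), map_one' := ?_, map_mul' := ?_ }, ?_, ?_, ?_⟩
  · rw [hvone, map_zero, ofAdd_zero]
  · intro x y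
    rw [hvmul, map_add, ofAdd_add]
  · intro x
    apply hfin
    rw [hr, MulEquiv.apply_symm_apply]
  · intro x hx
    rw [hr, MulEquiv.symm_apply_eq]
    ext1
    · exact (hinf x hx).symm
    · rfl
  · intro x hx h1
    apply hfin
    have h2 : φ (vec x) = 0 := by
      have := congrArg Multiplicative.toAdd h1
      simpa using this
    have h3 := hφ (vec x) ⟨x, hx, rfl⟩ h2
    funext i
    have h4 := congrFun h3 (E i)
    simp only [vec, Equiv.symm_apply_apply, Pi.zero_apply] at h4
    exact Multiplicative.toAdd.injective h4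

end Pool.Agent.SQG
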