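import Pool.Agent.SQG.Psn
import Pool.Agent.SQG.Spl
import Pool.Agent.SQG.Defs
import Pool.Agent.SQR.Star

/-!
# SQG module Inja: injectivity if the group has no rotation of finite order at least three

PROOF. Let `X ≠ 0` satisfy `∑ i, X (h * g i) = 0` for all `h`, `X k0 ≠ 0`.
`I = {i | (g i).s = 1}`, `J` its complement.  Choose `σ : O2` with `σ.s = -1`, `σ * σ = 1` (true for all `σ` with
`s = -1`) as follows: `σ = g j0` for some `j0 ∈ J`, or `σ = ⟨1, 0, -1, _⟩` if `J = ∅`.  `ρ i = g i` for `i ∈ I`,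
`ρ j = g j * σ` for `j ∈ J`; all `ρ i` have `s = 1` and lie in the subgroup generated by the `g i`.
`Λ` is the subgroup of `O2` generated by the `ρ i`: all its elements have `s = 1`, it is commutative
(`x * y = y * x` for `x.s = y.s = 1`: direct), finitely generated, its elements of finite order are `1` and `-1`
(`hT`).  (Make `Λ` a `CommGroup` via `Subgroup` with `mul_comm`.)  If `-1 ∈ Λ` take `τ = -1`, otherwise `τ = 1`.
`σ * x = x⁻¹ * σ` for `x.s = 1`.  `Y0 x = X (k0 * x)`, `Y1 x = X (k0 * x * σ)` (`x : Λ`, finite support: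
`Finsupp.comapDomain`).  The relation for `h = k0 * x` and `h = k0 * x * σ`:
`∑_I Y0 (x * ρ i) + ∑_J Y1 (x * ρ j) = 0` and `∑_I Y1 (x * (ρ i)⁻¹) + ∑_J Y0 (x * (ρ j)⁻¹) = 0` (note
`g j = ρ j * σ`).  `Y0 1 ≠ 0`.
`spl` for the finite set of all `x * y⁻¹` (`x, y` in the support of `Y0`) and all `ρ i * (ρ j)⁻¹` gives `r, lam`;
`psn` gives `ε` with `y0 = psh ε lam Y0 ≠ 0`; `y1 = psh ε lam Y1`.  By `psh_shift`, `psh_add` (`ε` has values `± 1`):
with `A = ∑_I single (-lam (ρ i)) (ε (ρ i))`, `B = ∑_J ..`, and `A', B'` with `+lam`: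
`A * y0 + B * y1 = 0`, `A' * y1 + B' * y0 = 0`, so `(A * A' - B * B') * y0 = 0`, so `A * A' = B * B'`
(domain).  `SQR.star` (Pool/Agent/SQR/Star.lean; choose the signs `l i : ℤˣ` with `ε (ρ i) = l i`, exponents
`b i = lam (ρ i)`, note the order of the factors) gives: `lam (ρ i)` is constant on `I` and on `J`.
As `i0 ∈ I`, `ρ i0 = 1`, all `ρ i` (`i ∈ I`) have finite order, so are `1` or `-1`; and for `j ∈ J`, `ρ j0 = 1`
(`σ * σ = 1`), so `ρ j` is `1` or `-1` and `g j = ρ j * σ` is `σ` or `-σ` (`-1 * σ = -σ`).  Contradiction to `hK`.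
-/

set_option autoImplicit false

open AddMonoidAlgebra Filter Topology

namespace Pool.Agent.SQG

theorem neg_one_mul' (σ : O2) : (-1 : O2) * σ = -σ := by
  apply O2.ext' <;> simp

theorem refl_sq (σ : O2) (hs : σ.s = -1) : σ * σ = 1 := by
  have ht : σ.t = -1 := by simp [O2.t, hs]
  have h := σ.h
  apply O2.ext'
  · simp only [O2.mul_a, O2.one_a, ht]
    linear_combination h
  · simp only [O2.mul_b, O2.one_b, ht]
    ring
  · simp [hs]

theorem refl_comm (σ x : O2) (hs : σ.s = -1) (hx : x.s = 1) : σ * x = x⁻¹ * σ := by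
  have ht : σ.t = -1 := by simp [O2.t, hs]
  have hu : x.t = 1 := by simp [O2.t, hx]
  apply O2.ext'
  · simp only [O2.mul_a, O2.inv_a, O2.inv_b, O2.inv_t, ht, hu]
    ring
  · simp only [O2.mul_b, O2.inv_a, O2.inv_b, O2.inv_t, ht, hu]
    ring
  · simp only [O2.mul_s, O2.inv_s, hs, hx]
    rfl

theorem rot_comm (x y : O2) (hx : x.s = 1) (hy : y.s = 1) : x * y = y * x := by
  have ht : x.t = 1 := by simp [O2.t, hx]
  have hu : y.t = 1 := by simp [O2.t, hy]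
  apply O2.ext'
  · simp only [O2.mul_a, ht, hu]
    ring
  · simp only [O2.mul_b, ht, hu]
    ring
  · simp only [O2.mul_s, hx, hy]

theorem inja_core {p : ℕ} (hp : p.Prime) (hp2 : p ≠ 2) {Λ : Type} [CommGroup Λ] [Group.FG Λ]
    (ρ : Fin p → Λ) (I J : Finset (Fin p)) (hIJ : Disjoint I J) (hU : I ∪ J = Finset.univ) (τ : Λ)
    (hτ : τ * τ = 1) (htor : ∀ x : Λ, IsOfFinOrder x → x = 1 ∨ x = τ) (Y0 Y1 : Λ →₀ ZMod p) (hY : Y0 ≠ 0)
    (r1 : ∀ x, ∑ i ∈ I, Y0 (x * ρ i) + ∑ j ∈ J, Y1 (x * ρ j) = 0)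
    (r2 : ∀ x, ∑ i ∈ I, Y1 (x * (ρ i)⁻¹) + ∑ j ∈ J, Y0 (x * (ρ j)⁻¹) = 0) :
    (∀ i ∈ I, ∀ j ∈ I, IsOfFinOrder (ρ i * (ρ j)⁻¹)) ∧ (∀ i ∈ J, ∀ j ∈ J, IsOfFinOrder (ρ i * (ρ j)⁻¹)) := by
  classical
  have : Fact p.Prime := ⟨hp⟩
  let S : Finset Λ := (Y0.support ×ˢ Y0.support).image (fun q => q.1 * q.2⁻¹) ∪
    (Finset.univ : Finset (Fin p × Fin p)).image (fun q => ρ q.1 * (ρ q.2)⁻¹)
  obtain ⟨r, lam, hr, hr2, hS⟩ := spl Λ (S : Set Λ) S.finite_toSet
  have hlam : ∀ x ∈ Y0.support, ∀ y ∈ Y0.support, lam (x * y⁻¹) = 1 → IsOfFinOrder (x * y⁻¹) := by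
    intro x hx y hy h
    refine hS _ ?_ h
    rw [Finset.mem_coe, Finset.mem_union]
    left
    rw [Finset.mem_image]
    exact ⟨(x, y), Finset.mem_product.2 ⟨hx, hy⟩, rfl⟩
  obtain ⟨ε, hε, hne⟩ := psn hp2 τ hτ r lam hr hr2 htor Y0 hY hlam
  set b : Fin p → ℤ := fun i => Multiplicative.toAdd (lam (ρ i)) with hb
  have hl : ∀ i, ∃ l : ℤˣ, (((l : ℤˣ) : ℤ) : ZMod p) = ((ε (ρ i) : (ZMod p)ˣ) : ZMod p) ∧
      (((l : ℤˣ) : ℤ) : ZMod p) = (((ε (ρ i))⁻¹ : (ZMod p)ˣ) : ZMod p) := by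
    intro i
    rcases hε (ρ i) with h | h
    · exact ⟨1, by simp [h], by simp [h]⟩
    · exact ⟨-1, by simp [h], by simp [h]⟩
  choose l hl1 hl2 using hl
  -- the shifted functions
  have hsh : ∀ (Y : Λ →₀ ZMod p) (ρ' : Λ), ∃ Y' : Λ →₀ ZMod p, ∀ x, Y' x = Y (x * ρ') := by
    intro Y ρ'
    exact ⟨Y.comapDomain (fun x => x * ρ') (mul_left_injective ρ').injOn, fun x => rfl⟩
  choose sh hsh using hsh
  let P : (Λ →₀ ZMod p) →+ AddMonoidAlgebra (ZMod p) ℤ :=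
    AddMonoidHom.mk' (psh ε lam) (psh_add ε lam)
  have hP : ∀ Y, P Y = psh ε lam Y := fun Y => rfl
  have e1 : ∑ i ∈ I, sh Y0 (ρ i) + ∑ j ∈ J, sh Y1 (ρ j) = 0 := by
    ext x
    rw [Finsupp.add_apply, Finsupp.finsetSum_apply, Finsupp.finsetSum_apply, Finsupp.zero_apply]
    simp only [hsh]
    exact r1 x
  have e2 : ∑ i ∈ I, sh Y1 (ρ i)⁻¹ + ∑ j ∈ J, sh Y0 (ρ j)⁻¹ = 0 := by
    ext x
    rw [Finsupp.add_apply, Finsupp.finsetSum_apply, Finsupp.finsetSum_apply, Finsupp.zero_apply]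
    simp only [hsh]
    exact r2 x
  have s1 : ∀ (Y : Λ →₀ ZMod p) i, P (sh Y (ρ i)) = single (-(b i)) (((l i : ℤˣ) : ℤ) : ZMod p) * P Y := by
    intro Y i
    rw [hP, hP, psh_shift ε lam Y _ (ρ i) (hsh Y (ρ i)), hl2]
  have s2 : ∀ (Y : Λ →₀ ZMod p) i, P (sh Y (ρ i)⁻¹) = single (b i) (((l i : ℤˣ) : ℤ) : ZMod p) * P Y := by
    intro Y i
    rw [hP, hP, psh_shift ε lam Y _ (ρ i)⁻¹ (hsh Y (ρ i)⁻¹), hl1]
    congr 2
    · rw [map_inv, toAdd_inv, neg_neg]
    · rw [map_inv, inv_inv]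
  have f1 := congrArg P e1
  have f2 := congrArg P e2
  rw [map_add, map_sum, map_sum, map_zero] at f1 f2
  simp only [s1] at f1
  simp only [s2] at f2
  rw [← Finset.sum_mul, ← Finset.sum_mul] at f1 f2
  have key : (∑ i ∈ I, (single (b i) (((l i : ℤˣ) : ℤ) : ZMod p) : AddMonoidAlgebra (ZMod p) ℤ)) *
        (∑ i ∈ I, (single (-b i) (((l i : ℤˣ) : ℤ) : ZMod p) : AddMonoidAlgebra (ZMod p) ℤ)) =
      (∑ j ∈ J, (single (b j) (((l j : ℤˣ) : ℤ) : ZMod p) : AddMonoidAlgebra (ZMod p) ℤ)) *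
        (∑ j ∈ J, (single (-b j) (((l j : ℤˣ) : ℤ) : ZMod p) : AddMonoidAlgebra (ZMod p) ℤ)) := by
    have h0 : P Y0 ≠ 0 := hne
    apply mul_right_cancel₀ h0
    linear_combination (∑ i ∈ I, (single (b i) (((l i : ℤˣ) : ℤ) : ZMod p) : AddMonoidAlgebra (ZMod p) ℤ)) * f1 -
      (∑ j ∈ J, (single (-b j) (((l j : ℤˣ) : ℤ) : ZMod p) : AddMonoidAlgebra (ZMod p) ℤ)) * f2
  obtain ⟨c1, c2⟩ := SQR.star p hp hp2 I J hIJ hU l b key
  have fin : ∀ i j, b i = b j → IsOfFinOrder (ρ i * (ρ j)⁻¹) := by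
    intro i j hij
    refine hS _ ?_ ?_
    · rw [Finset.mem_coe, Finset.mem_union]
      right
      rw [Finset.mem_image]
      exact ⟨(i, j), Finset.mem_univ _, rfl⟩
    · have h2 : lam (ρ i) = lam (ρ j) := Multiplicative.toAdd.injective hij
      rw [map_mul, map_inv, h2, mul_inv_cancel]
  exact ⟨fun i hi j hj => fin i j (c1 i hi j hj), fun i hi j hj => fin i j (c2 i hi j hj)⟩

theorem inja {p : ℕ} (hp : p.Prime) (hp2 : p ≠ 2) (g : Fin p → O2) (i0 : Fin p) (h1 : g i0 = 1)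
    (hT : ∀ k ∈ Subgroup.closure (Set.range g), k.s = 1 → IsOfFinOrder k → k = 1 ∨ k = -1)
    (hK : ¬ ∃ σ : O2, σ.s = -1 ∧ ∀ i, g i = 1 ∨ g i = -1 ∨ g i = σ ∨ g i = -σ) : Inj p g := by
  classical
  intro X hX
  by_contra hne
  obtain ⟨k0, hk0⟩ : ∃ k0, X k0 ≠ 0 := by
    by_contra hc
    push Not at hc
    exact hne (Finsupp.ext hc)
  obtain ⟨σ, hs, hσ⟩ : ∃ σ : O2, σ.s = -1 ∧ ((∃ j, (g j).s = -1) → ∃ j, g j = σ) := by
    by_cases hJ : ∃ j, (g j).s = -1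
    · obtain ⟨j, hj⟩ := hJ
      exact ⟨g j, hj, fun _ => ⟨j, rfl⟩⟩
    · exact ⟨⟨1, 0, -1, by norm_num⟩, rfl, fun h => absurd h hJ⟩
  have hσσ := refl_sq σ hs
  have hsgn : ∀ x : O2, x.s ≠ 1 → x.s = -1 := fun x hx => (Int.units_eq_one_or x.s).resolve_left hx
  let ρ : Fin p → O2 := fun i => if (g i).s = 1 then g i else g i * σ
  have hρ1 : ∀ i, (g i).s = 1 → ρ i = g i := fun i h => if_pos h
  have hρ2 : ∀ i, (g i).s ≠ 1 → ρ i = g i * σ := fun i h => if_neg h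
  have hρs : ∀ i, (ρ i).s = 1 := by
    intro i
    by_cases h : (g i).s = 1
    · rw [hρ1 i h, h]
    · rw [hρ2 i h, O2.mul_s, hsgn _ h, hs]
      rfl
  have hρm : ∀ i, ρ i ∈ Subgroup.closure (Set.range g) := by
    intro i
    by_cases h : (g i).s = 1
    · rw [hρ1 i h]
      exact Subgroup.subset_closure ⟨i, rfl⟩
    · rw [hρ2 i h]
      obtain ⟨j, hj⟩ := hσ ⟨i, hsgn _ h⟩
      exact Subgroup.mul_mem _ (Subgroup.subset_closure ⟨i, rfl⟩) (Subgroup.subset_closure ⟨j, hj⟩)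
  have hΛs : ∀ x ∈ Subgroup.closure (Set.range ρ), x.s = 1 := by
    intro x hx
    refine Subgroup.closure_induction (p := fun y _ => y.s = 1) ?_ ?_ ?_ ?_ hx
    · rintro _ ⟨i, rfl⟩
      exact hρs i
    · rfl
    · intro x y _ _ h h'
      rw [O2.mul_s, h, h', one_mul]
    · intro x _ h
      rw [O2.inv_s, h]
  have hΛm : ∀ x ∈ Subgroup.closure (Set.range ρ), x ∈ Subgroup.closure (Set.range g) := by
    intro x hx
    refine (Subgroup.closure_le _).2 ?_ hx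
    rintro _ ⟨i, rfl⟩
    exact hρm i
  let inst : CommGroup (Subgroup.closure (Set.range ρ)) :=
    Subgroup.closureCommGroupOfComm (by
      rintro _ ⟨i, rfl⟩ _ ⟨j, rfl⟩
      exact rot_comm _ _ (hρs i) (hρs j))
  have : Group.FG (Subgroup.closure (Set.range ρ)) := Group.closure_finite_fg _
  let R : Fin p → Subgroup.closure (Set.range ρ) := fun i => ⟨ρ i, Subgroup.subset_closure ⟨i, rfl⟩⟩
  let I : Finset (Fin p) := Finset.univ.filter fun i => (g i).s = 1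
  let J : Finset (Fin p) := Finset.univ.filter fun i => ¬ (g i).s = 1
  have hIJ : Disjoint I J := Finset.disjoint_filter_filter_not _ _ _
  have hU : I ∪ J = Finset.univ := Finset.filter_union_filter_not_eq _ _
  have hτ : ∃ τ : Subgroup.closure (Set.range ρ), τ * τ = 1 ∧
      ∀ x : Subgroup.closure (Set.range ρ), IsOfFinOrder x → x = 1 ∨ x = τ := by
    have h2 : ∀ x : Subgroup.closure (Set.range ρ), IsOfFinOrder x → (x : O2) = 1 ∨ (x : O2) = -1 := by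
      intro x hx
      have h3 : IsOfFinOrder (x : O2) := by
        exact MonoidHom.isOfFinOrder (Subgroup.subtype (Subgroup.closure (Set.range ρ))) hx
      exact hT _ (hΛm _ x.2) (hΛs _ x.2) h3
    by_cases hm : (-1 : O2) ∈ Subgroup.closure (Set.range ρ)
    · refine ⟨⟨-1, hm⟩, ?_, ?_⟩
      · apply Subtype.ext
        change (-1 : O2) * (-1 : O2) = 1
        apply O2.ext' <;> simp
      · intro x hx
        rcases h2 x hx with h | h
        · exact Or.inl (Subtype.ext h)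
        · exact Or.inr (Subtype.ext h)
    · refine ⟨1, one_mul 1, ?_⟩
      intro x hx
      rcases h2 x hx with h | h
      · exact Or.inl (Subtype.ext h)
      · exact absurd (h ▸ x.2) hm
  obtain ⟨τ, hτ1, hτ2⟩ := hτ
  let Y0 : Subgroup.closure (Set.range ρ) →₀ ZMod p := X.comapDomain (fun x => k0 * (x : O2))
    (Function.Injective.injOn fun x y h => Subtype.ext (mul_left_cancel h))
  let Y1 : Subgroup.closure (Set.range ρ) →₀ ZMod p := X.comapDomain (fun x => k0 * (x : O2) * σ)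
    (Function.Injective.injOn fun x y h => Subtype.ext (mul_left_cancel (mul_right_cancel h)))
  have hY0 : ∀ x, Y0 x = X (k0 * (x : O2)) := fun x => rfl
  have hY1 : ∀ x, Y1 x = X (k0 * (x : O2) * σ) := fun x => rfl
  have hY : Y0 ≠ 0 := by
    intro h
    have h2 : Y0 1 = 0 := by rw [h]; rfl
    rw [hY0] at h2
    apply hk0
    have h3 : k0 * ((1 : Subgroup.closure (Set.range ρ)) : O2) = k0 := mul_one k0
    rwa [h3] at h2
  have r1 : ∀ x, ∑ i ∈ I, Y0 (x * R i) + ∑ j ∈ J, Y1 (x * R j) = 0 := by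
    intro x
    rw [← hX (k0 * (x : O2)), ← Finset.sum_filter_add_sum_filter_not Finset.univ fun i => (g i).s = 1]
    congr 1
    · refine Finset.sum_congr rfl fun i hi => ?_
      have hi' : (g i).s = 1 := (Finset.mem_filter.1 hi).2
      rw [hY0]
      congr 1
      change k0 * ((x : O2) * ρ i) = _
      rw [hρ1 i hi', mul_assoc]
    · refine Finset.sum_congr rfl fun i hi => ?_
      have hi' : ¬ (g i).s = 1 := (Finset.mem_filter.1 hi).2
      rw [hY1]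
      congr 1
      change k0 * ((x : O2) * ρ i) * σ = _
      rw [hρ2 i hi']
      simp only [mul_assoc, hσσ, mul_one]
  have r2 : ∀ x, ∑ i ∈ I, Y1 (x * (R i)⁻¹) + ∑ j ∈ J, Y0 (x * (R j)⁻¹) = 0 := by
    intro x
    rw [← hX (k0 * (x : O2) * σ), ← Finset.sum_filter_add_sum_filter_not Finset.univ fun i => (g i).s = 1]
    congr 1
    · refine Finset.sum_congr rfl fun i hi => ?_
      have hi' : (g i).s = 1 := (Finset.mem_filter.1 hi).2
      rw [hY1]
      congr 1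
      change k0 * ((x : O2) * (ρ i)⁻¹) * σ = _
      rw [hρ1 i hi']
      simp only [mul_assoc]
      rw [refl_comm σ (g i) hs hi']
    · refine Finset.sum_congr rfl fun i hi => ?_
      have hi' : ¬ (g i).s = 1 := (Finset.mem_filter.1 hi).2
      rw [hY0]
      congr 1
      change k0 * ((x : O2) * (ρ i)⁻¹) = _
      rw [hρ2 i hi', mul_inv_rev, mul_assoc, mul_assoc]
      congr 2
      have h2 : σ⁻¹ = σ := inv_eq_of_mul_eq_one_left hσσ
      have h3 : (g i)⁻¹ = g i := inv_eq_of_mul_eq_one_left (refl_sq _ (hsgn _ hi'))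
      rw [h2, h3]
  obtain ⟨c1, c2⟩ := inja_core hp hp2 R I J hIJ hU τ hτ1 hτ2 Y0 Y1 hY r1 r2
  have cO : ∀ i j, IsOfFinOrder (R i * (R j)⁻¹) → ρ j = 1 → ρ i = 1 ∨ ρ i = -1 := by
    intro i j h h2
    have h3 := MonoidHom.isOfFinOrder (Subgroup.subtype (Subgroup.closure (Set.range ρ))) h
    have h4 : Subgroup.subtype (Subgroup.closure (Set.range ρ)) (R i * (R j)⁻¹) = ρ i := by
      change ρ i * (ρ j)⁻¹ = ρ i
      rw [h2, inv_one, mul_one]
    rw [h4] at h3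
    exact hT _ (hρm i) (hρs i) h3
  apply hK
  refine ⟨σ, hs, ?_⟩
  intro i
  by_cases hi : (g i).s = 1
  · have hi0 : (g i0).s = 1 := by rw [h1]; rfl
    have h2 := cO i i0 (c1 i (by simp [I, hi]) i0 (by simp [I, hi0])) (by rw [hρ1 i0 hi0, h1])
    rw [hρ1 i hi] at h2
    rcases h2 with h2 | h2
    · exact Or.inl h2
    · exact Or.inr (Or.inl h2)
  · obtain ⟨j0, hj0⟩ := hσ ⟨i, hsgn _ hi⟩
    have hj : ¬ (g j0).s = 1 := by
      rw [hj0, hs]
      decide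
    have h2 := cO i j0 (c2 i (by simp [J, hi]) j0 (by simp [J, hj])) (by rw [hρ2 j0 hj, hj0, hσσ])
    rw [hρ2 i hi] at h2
    have h3 : g i = g i * σ * σ := by rw [mul_assoc, hσσ, mul_one]
    rcases h2 with h2 | h2
    · right; right; left
      rw [h3, h2, one_mul]
    · right; right; right
      rw [h3, h2, neg_one_mul']

end Pool.Agent.SQG
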