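import Pool.Agent.SQG.Psm
import Pool.Agent.SQG.Spl
import Pool.Agent.SQG.Defs

/-!
# SQG module Injb: injectivity for rotations and p = 3 mod 4

PROOF. Let `X ≠ 0` satisfy `∑ i, X (h * g i) = 0`, `X k0 ≠ 0`.  `Λ` is the subgroup generated by the `g i`; its
elements have `s = 1`; it is commutative and finitely generated, and its elements of finite order satisfy `Ax`
(`hT`).  `K` is a field containing `ZMod p` and `ι` with `ι ^ 2 = -1` (e.g. `AlgebraicClosure (ZMod p)`).
For `x.s = 1`, `Ax x`: `(a, b) ∈ {(1, 0), (-1, 0), (0, 1), (0, -1)}`; `χ x = 1, -1, ι, -ι` respectively (and `1`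
for all other `x`); it is multiplicative on such elements (`x * y` has first column `(a a' - b b', b a' + a b')`),
injective.  `Y x = X (k0 * x)` mapped to `K`, `Y ≠ 0`, and `∑ i, Y (x * g i) = 0` for all `x : Λ`.
`spl` (for the quotients of the support of `Y` and the `g i * (g j)⁻¹`) gives `r, lam`; `psm` gives `k, ε` with
`y = psh ε lam Y ≠ 0`.  By `psh_shift`: `A * y = 0` with `A = ∑ i, single (-lam (g i)) (ε (g i))⁻¹`, so `A = 0`.
For each integer `n`, with `I_n = {i | lam (g i) = n}`: `∑_{I_n} (ε (g i))⁻¹ = 0`.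
As `p` is odd, some `I_n` has an odd number `m` of elements; `m < p`, since otherwise `lam (g i) = lam (g i0) = 0` for
all `i`, so all `g i` have finite order and `Ax (g i)`, contradicting `hK`.  Each `(ε (g i))⁻¹` is one of
`1, -1, ι, -ι` (a fourth root of unity in a field), so the sum is `u + v ι` with integers `u, v`, `|u| + |v| ≤ m`,
`u + v ≡ m` modulo `2`.  `u + v ι = 0` gives `u ^ 2 + v ^ 2 = 0` in `K`, so `p ∣ u ^ 2 + v ^ 2`
(`CharP.intCast_eq_zero_iff`), and for `p ≡ 3` modulo `4` (`ZMod.mod_four_ne_three_of_sq_eq_neg_sq'` or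
`ZMod.exists_sq_eq_neg_one_iff`) `p ∣ u` and `p ∣ v`; as `|u|, |v| ≤ m < p`, `u = v = 0`, but `u + v` is odd.
-/

set_option autoImplicit false

open AddMonoidAlgebra Filter Topology

namespace Pool.Agent.SQG

private theorem four {K : Type} [Field K] (i z : K) (hi : i ^ 2 = -1) (hz : z ^ 4 = 1) :
    ∃ u v : ℤ, z = (u : K) + (v : K) * i ∧ |u| + |v| = 1 ∧ Odd (u + v) := by
  have h1 : (z - 1) * (z + 1) * ((z - i) * (z + i)) = 0 := by
    linear_combination hz - (z ^ 2 - 1) * hi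
  rcases mul_eq_zero.1 h1 with h2 | h2
  · rcases mul_eq_zero.1 h2 with h3 | h3
    · exact ⟨1, 0, by rw [sub_eq_zero.1 h3]; simp, by norm_num, by decide⟩
    · exact ⟨-1, 0, by rw [eq_neg_of_add_eq_zero_left h3]; simp, by norm_num, by decide⟩
  · rcases mul_eq_zero.1 h2 with h3 | h3
    · exact ⟨0, 1, by rw [sub_eq_zero.1 h3]; simp, by norm_num, by decide⟩
    · exact ⟨0, -1, by rw [eq_neg_of_add_eq_zero_left h3]; simp, by norm_num, by decide⟩

private theorem no_sum {p : ℕ} (hp : p.Prime) (hp4 : p % 4 = 3) {K : Type} [Field K] [CharP K p] (i : K)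
    (hi : i ^ 2 = -1) {α : Type} (s : Finset α) (z : α → K) (hz : ∀ x ∈ s, z x ^ 4 = 1) (hodd : Odd s.card)
    (hlt : s.card < p) (h0 : ∑ x ∈ s, z x = 0) : False := by
  have : Fact p.Prime := ⟨hp⟩
  have h1 : ∀ x : α, ∃ uv : ℤ × ℤ, x ∈ s → z x = (uv.1 : K) + (uv.2 : K) * i ∧ |uv.1| + |uv.2| = 1 ∧
      Odd (uv.1 + uv.2) := by
    intro x
    by_cases hx : x ∈ s
    · obtain ⟨u, v, h2⟩ := four i (z x) hi (hz x hx)
      exact ⟨(u, v), fun _ => h2⟩
    · exact ⟨(0, 0), fun h => absurd h hx⟩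
  choose w hw using h1
  have h2 : ((∑ x ∈ s, (w x).1 : ℤ) : K) + ((∑ x ∈ s, (w x).2 : ℤ) : K) * i = 0 := by
    rw [← h0, Int.cast_sum, Int.cast_sum, Finset.sum_mul, ← Finset.sum_add_distrib]
    exact (Finset.sum_congr rfl fun x hx => (hw x hx).1).symm
  set U := ∑ x ∈ s, (w x).1 with hU
  set W := ∑ x ∈ s, (w x).2 with hW
  have h3 : |U| + |W| ≤ s.card := by
    have h4 : |U| ≤ ∑ x ∈ s, |(w x).1| := Finset.abs_sum_le_sum_abs _ _
    have h5 : |W| ≤ ∑ x ∈ s, |(w x).2| := Finset.abs_sum_le_sum_abs _ _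
    have h6 : ∑ x ∈ s, |(w x).1| + ∑ x ∈ s, |(w x).2| = s.card := by
      rw [← Finset.sum_add_distrib, Finset.sum_congr rfl fun x hx => (hw x hx).2.1]
      simp
    linarith
  have h4 : Odd (U + W) := by
    have h5 : ∀ t : Finset α, t ⊆ s → ((∑ x ∈ t, ((w x).1 + (w x).2)) % 2 = (t.card : ℤ) % 2) := by
      classical
      intro t
      induction t using Finset.induction_on with
      | empty => intro _; simp
      | insert x t hx ih =>
        intro ht
        rw [Finset.sum_insert hx, Finset.card_insert_of_notMem hx]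
        have h6 := ih ((Finset.subset_insert x t).trans ht)
        have h7 := (hw x (ht (Finset.mem_insert_self x t))).2.2
        rw [Int.odd_iff] at h7
        push_cast
        omega
    have h6 := h5 s (Finset.Subset.refl s)
    rw [Finset.sum_add_distrib] at h6
    rw [Int.odd_iff, hU, hW, h6]
    obtain ⟨k, hk⟩ := hodd
    omega
  have h5 : ((U : ZMod p)) ^ 2 = -((W : ZMod p)) ^ 2 := by
    have h6 : (U : K) ^ 2 + (W : K) ^ 2 = 0 := by
      linear_combination ((U : K) - (W : K) * i) * h2 + (W : K) ^ 2 * hi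
    have h7 : ((U ^ 2 + W ^ 2 : ℤ) : K) = 0 := by push_cast; exact h6
    rw [CharP.intCast_eq_zero_iff K p] at h7
    have h8 : ((U ^ 2 + W ^ 2 : ℤ) : ZMod p) = 0 := (ZMod.intCast_zmod_eq_zero_iff_dvd _ _).2 h7
    push_cast at h8
    linear_combination h8
  have h6 : (W : ZMod p) = 0 := by
    by_contra h7
    exact ZMod.mod_four_ne_three_of_sq_eq_neg_sq' h7 h5 hp4
  have h7 : (U : ZMod p) = 0 := by
    rw [h6] at h5
    simpa using h5
  rw [ZMod.intCast_zmod_eq_zero_iff_dvd] at h6 h7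
  have h8 : (s.card : ℤ) < p := by exact_mod_cast hlt
  have h9 : U = 0 := Int.eq_zero_of_abs_lt_dvd h7 (by have := abs_nonneg W; linarith)
  have h10 : W = 0 := Int.eq_zero_of_abs_lt_dvd h6 (by have := abs_nonneg U; linarith)
  rw [h9, h10] at h4
  exact absurd h4 (by decide)

private theorem psh_zero {Λ K : Type} [CommGroup Λ] [Field K] (ε : Λ →* Kˣ) (lam : Λ →* Multiplicative ℤ) :
    psh ε lam (0 : Λ →₀ K) = 0 := by
  have h := psh_add ε lam (0 : Λ →₀ K) 0
  rw [add_zero] at h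
  exact left_eq_add.1 h

private theorem psh_sum {Λ K : Type} [CommGroup Λ] [Field K] (ε : Λ →* Kˣ) (lam : Λ →* Multiplicative ℤ)
    {α : Type} (s : Finset α) (Y : α → Λ →₀ K) : psh ε lam (∑ i ∈ s, Y i) = ∑ i ∈ s, psh ε lam (Y i) := by
  classical
  induction s using Finset.induction_on with
  | empty => simp [psh_zero]
  | insert x s hx ih => rw [Finset.sum_insert hx, Finset.sum_insert hx, psh_add, ih]

private theorem core {p : ℕ} (hp : p.Prime) (hp4 : p % 4 = 3) {Λ : Type} [CommGroup Λ] [Group.FG Λ] {K : Type}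
    [Field K] [CharP K p] (i : K) (hi : i ^ 2 = -1) (χ : Λ → Kˣ)
    (hχ : ∀ x y, IsOfFinOrder x → IsOfFinOrder y → χ (x * y) = χ x * χ y)
    (hχ4 : ∀ x, IsOfFinOrder x → χ x ^ 4 = 1) (hχ1 : ∀ x, IsOfFinOrder x → χ x = 1 → x = 1)
    (γ : Fin p → Λ) (i0 : Fin p) (hγ : γ i0 = 1) (hinf : ∃ j, ¬ IsOfFinOrder (γ j)) (Y : Λ →₀ K) (hY : Y ≠ 0)
    (hsum : ∀ x, ∑ j, Y (x * γ j) = 0) : False := by
  classical
  have h2 : (2 : K) ≠ 0 := by
    have h3 : ((2 : ℕ) : K) ≠ 0 := by
      rw [Ne, CharP.cast_eq_zero_iff K p]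
      intro h
      have := Nat.le_of_dvd (by norm_num) h
      omega
    exact_mod_cast h3
  let S : Set Λ := (fun z : Λ × Λ => z.1 * z.2⁻¹) '' ((Y.support : Set Λ) ×ˢ (Y.support : Set Λ)) ∪ Set.range γ
  have hS : S.Finite := ((Finset.finite_toSet _).prod (Finset.finite_toSet _)).image _ |>.union (Set.finite_range γ)
  obtain ⟨r, lam, hr, hr2, hlam⟩ := spl Λ S hS
  obtain ⟨k, ε, hε, hy⟩ := psm h2 r lam hr hr2 χ hχ hχ4 hχ1 Y hY (fun x hx y hy h => by
    exact hlam _ (Or.inl ⟨(x, y), ⟨hx, hy⟩, rfl⟩) h)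
  let Yi : Fin p → Λ →₀ K := fun j => Finsupp.equivMapDomain (Equiv.mulRight (γ j)⁻¹) Y
  have hYi : ∀ j x, Yi j x = Y (x * γ j) := by
    intro j x
    simp [Yi, Finsupp.equivMapDomain_apply]
  have h3 : ∑ j, Yi j = 0 := by
    ext x
    rw [Finsupp.finsetSum_apply]
    simp only [hYi]
    rw [hsum x]
    rfl
  have h4 : (∑ j, single (-(Multiplicative.toAdd (lam (γ j)))) ((((ε (γ j))⁻¹ : Kˣ)) : K)) * psh ε lam Y = 0 := by
    have h5 := psh_sum ε lam Finset.univ Yi
    rw [h3, psh_zero] at h5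
    rw [Finset.sum_mul, h5]
    exact Finset.sum_congr rfl fun j _ => (psh_shift ε lam Y (Yi j) (γ j) (hYi j)).symm
  have h5 : (∑ j, single (-(Multiplicative.toAdd (lam (γ j)))) ((((ε (γ j))⁻¹ : Kˣ)) : K) :
      AddMonoidAlgebra K ℤ) = 0 := by
    rcases mul_eq_zero.1 h4 with h | h
    · exact h
    · exact absurd h hy
  have h6 : ∀ n : ℤ, ∑ j with Multiplicative.toAdd (lam (γ j)) = n, ((((ε (γ j))⁻¹ : Kˣ)) : K) = 0 := by
    intro n
    have h7 : (∑ j, single (-(Multiplicative.toAdd (lam (γ j)))) ((((ε (γ j))⁻¹ : Kˣ)) : K) :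
      AddMonoidAlgebra K ℤ).coeff (-n) = 0 := by rw [h5]; rfl
    rw [AddMonoidAlgebra.coeff_sum, Finsupp.finsetSum_apply] at h7
    rw [Finset.sum_filter]
    refine Eq.trans (Finset.sum_congr rfl fun j _ => ?_) h7
    rw [coeff_single, Finsupp.single_apply]
    simp only [neg_inj]
  obtain ⟨n, hn⟩ : ∃ n : ℤ, Odd (Finset.univ.filter fun j => Multiplicative.toAdd (lam (γ j)) = n).card := by
    by_contra hcon
    push Not at hcon
    have h7 := Finset.card_eq_sum_card_image (fun j : Fin p => Multiplicative.toAdd (lam (γ j))) Finset.univ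
    rw [Finset.card_univ, Fintype.card_fin] at h7
    have h8 : Even p := by
      rw [h7]
      exact Finset.even_sum _ fun n _ => Nat.not_odd_iff_even.1 (hcon n)
    obtain ⟨c, hc⟩ := h8
    omega
  refine no_sum hp hp4 i hi _ (fun j => ((((ε (γ j))⁻¹ : Kˣ)) : K)) ?_ hn ?_ (h6 n)
  · intro j _
    rw [hε]
    have h7 : ((χ (r (γ j)) ^ k)⁻¹ : Kˣ) ^ 4 = 1 := by
      rw [inv_pow, ← pow_mul, mul_comm, pow_mul, hχ4 _ (hr _), one_pow, inv_one]
    rw [← Units.val_pow_eq_pow_val, h7, Units.val_one]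
  · by_contra hcon
    have h7 : (Finset.univ.filter fun j => Multiplicative.toAdd (lam (γ j)) = n) = Finset.univ := by
      apply Finset.eq_univ_of_card
      rw [Fintype.card_fin]
      exact le_antisymm ((Finset.card_le_univ _).trans (by simp)) (not_lt.1 hcon)
    have h8 : ∀ j, Multiplicative.toAdd (lam (γ j)) = n := by
      intro j
      have h9 := Finset.mem_univ j
      rw [← h7] at h9
      exact (Finset.mem_filter.1 h9).2
    have h9 : n = 0 := by
      rw [← h8 i0, hγ, map_one]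
      rfl
    obtain ⟨j, hj⟩ := hinf
    apply hj
    apply hlam _ (Or.inr ⟨j, rfl⟩)
    have h10 := h8 j
    rw [h9] at h10
    exact Multiplicative.toAdd.injective h10

/-- The four rotations which map the axes to the axes. -/
private theorem ax_cases {x : O2} (h : Ax x) : (x.a = 1 ∧ x.b = 0) ∨ (x.a = -1 ∧ x.b = 0) ∨ (x.a = 0 ∧ x.b = 1) ∨
    (x.a = 0 ∧ x.b = -1) := by
  have h1 := x.h
  unfold Ax at h
  rcases mul_eq_zero.1 h with h2 | h2
  · have h3 : (x.b - 1) * (x.b + 1) = 0 := by rw [h2] at h1; linear_combination h1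
    rcases mul_eq_zero.1 h3 with h4 | h4
    · exact Or.inr (Or.inr (Or.inl ⟨h2, by linarith⟩))
    · exact Or.inr (Or.inr (Or.inr ⟨h2, by linarith⟩))
  · have h3 : (x.a - 1) * (x.a + 1) = 0 := by rw [h2] at h1; linear_combination h1
    rcases mul_eq_zero.1 h3 with h4 | h4
    · exact Or.inl ⟨by linarith, h2⟩
    · exact Or.inr (Or.inl ⟨by linarith, h2⟩)

open Classical in
/-- The character of the rotations of order dividing four. -/
private noncomputable def ch {K : Type} [Field K] (i : Kˣ) (x : O2) : Kˣ :=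
  if x.a = 1 then 1 else if x.a = -1 then -1 else if x.b = 1 then i else if x.b = -1 then -i else 1

private theorem ch_mul {K : Type} [Field K] (i : Kˣ) (hi : i * i = -1) {x y : O2} (hx : Ax x) (hy : Ax y)
    (sx : x.s = 1) : ch i (x * y) = ch i x * ch i y := by
  have t1 : x.t = 1 := by simp [O2.t, sx]
  rcases ax_cases hx with ⟨h1, h2⟩ | ⟨h1, h2⟩ | ⟨h1, h2⟩ | ⟨h1, h2⟩ <;>
  rcases ax_cases hy with ⟨h3, h4⟩ | ⟨h3, h4⟩ | ⟨h3, h4⟩ | ⟨h3, h4⟩ <;>
  (simp only [ch, O2.mul_a, O2.mul_b, h1, h2, h3, h4, t1]; norm_num [hi])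

private theorem ch_four {K : Type} [Field K] (i : Kˣ) (hi : i * i = -1) {x : O2} (hx : Ax x) : ch i x ^ 4 = 1 := by
  have h4 : i ^ 4 = 1 := by
    have : i ^ 4 = (i * i) * (i * i) := by
      rw [pow_succ, pow_succ, pow_two, mul_assoc]
    rw [this, hi]; simp
  rcases ax_cases hx with ⟨h1, h2⟩ | ⟨h1, h2⟩ | ⟨h1, h2⟩ | ⟨h1, h2⟩ <;>
  (simp only [ch, h1, h2]; norm_num [h4])

private theorem ch_one {K : Type} [Field K] (i : Kˣ) (hi : i * i = -1) (h2 : (1 : Kˣ) ≠ -1) {x : O2} (hx : Ax x)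
    (sx : x.s = 1) (h : ch i x = 1) : x = 1 := by
  rcases ax_cases hx with ⟨h1, h3⟩ | ⟨h1, h3⟩ | ⟨h1, h3⟩ | ⟨h1, h3⟩
  · exact O2.ext' h1 h3 sx
  · exfalso
    simp only [ch, h1] at h
    norm_num at h
    exact h2 h.symm
  · exfalso
    simp only [ch, h1, h3] at h
    norm_num at h
    rw [h] at hi
    exact h2 (by simpa using hi)
  · exfalso
    simp only [ch, h1, h3] at h
    norm_num at h
    have h5 : i = -1 := by rw [← h, neg_neg]
    rw [h5] at hi
    exact h2 (by simpa using hi)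

theorem injb {p : ℕ} (hp : p.Prime) (hp4 : p % 4 = 3) (g : Fin p → O2) (i0 : Fin p) (h1 : g i0 = 1)
    (hr : ∀ i, (g i).s = 1) (hT : ∀ k ∈ Subgroup.closure (Set.range g), IsOfFinOrder k → Ax k)
    (hK : ∃ i, ¬ Ax (g i)) : Inj p g := by
  classical
  intro X hX
  by_contra hX0
  have : Fact p.Prime := ⟨hp⟩
  obtain ⟨k0, hk0⟩ : ∃ k0, X k0 ≠ 0 := by
    by_contra hcon
    push Not at hcon
    exact hX0 (Finsupp.ext hcon)
  let K := AlgebraicClosure (ZMod p)
  have hcp : CharP K p := charP_of_injective_algebraMap (algebraMap (ZMod p) K).injective p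
  obtain ⟨i, hi⟩ : ∃ i : K, i ^ 2 = -1 := by
    obtain ⟨i, hi⟩ := IsAlgClosed.exists_pow_nat_eq (-1 : K) (show 0 < 2 by norm_num)
    exact ⟨i, hi⟩
  have hi0 : i ≠ 0 := by
    intro h
    rw [h] at hi
    norm_num at hi
  let iu : Kˣ := Units.mk0 i hi0
  have hiu : iu * iu = -1 := by
    apply Units.ext
    simp only [iu, Units.val_mul, Units.val_mk0, Units.val_neg, Units.val_one]
    linear_combination hi
  have h2K : (2 : K) ≠ 0 := by
    have h3 : ((2 : ℕ) : K) ≠ 0 := by
      rw [Ne, CharP.cast_eq_zero_iff K p]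
      intro h
      have := Nat.le_of_dvd (by norm_num) h
      omega
    exact_mod_cast h3
  have h1K : (1 : Kˣ) ≠ -1 := by
    intro h
    apply h2K
    have h4 := congrArg (fun u : Kˣ => (u : K)) h
    simp only [Units.val_one, Units.val_neg] at h4
    linear_combination h4
  let Λ : Subgroup O2 := Subgroup.closure (Set.range g)
  have hs : ∀ x : Λ, (x : O2).s = 1 := by
    rintro ⟨x, hx⟩
    induction hx using Subgroup.closure_induction with
    | mem x hx => obtain ⟨j, rfl⟩ := hx; exact hr j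
    | one => rfl
    | mul x y _ _ h3 h4 => simp only [O2.mul_s] at *; rw [h3, h4, one_mul]
    | inv x _ h3 => simpa using h3
  let _ : CommGroup Λ := { (inferInstance : Group Λ) with
    mul_comm := by
      intro x y
      apply Subtype.ext
      have t1 : (x : O2).t = 1 := by simp [O2.t, hs x]
      have t2 : (y : O2).t = 1 := by simp [O2.t, hs y]
      apply O2.ext'
      · show ((x : O2) * (y : O2)).a = ((y : O2) * (x : O2)).a
        rw [O2.mul_a, O2.mul_a, t1, t2]
        ring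
      · show ((x : O2) * (y : O2)).b = ((y : O2) * (x : O2)).b
        rw [O2.mul_b, O2.mul_b, t1, t2]
        ring
      · show ((x : O2) * (y : O2)).s = ((y : O2) * (x : O2)).s
        rw [O2.mul_s, O2.mul_s, hs x, hs y] }
  have hfg : Group.FG Λ := by
    have : Finite (Set.range g) := Set.finite_range g
    exact Group.closure_finite_fg (Set.range g)
  let γ : Fin p → Λ := fun j => ⟨g j, Subgroup.subset_closure ⟨j, rfl⟩⟩
  have hfin : ∀ x : Λ, IsOfFinOrder x → Ax (x : O2) := by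
    intro x hx
    exact hT x x.2 (Submonoid.isOfFinOrder_coe.2 hx)
  have hfs : {x : Λ | (algebraMap (ZMod p) K) (X (k0 * (x : O2))) ≠ 0}.Finite := by
    refine Set.Finite.of_finite_image (f := fun x : Λ => k0 * (x : O2)) (X.support.finite_toSet.subset ?_) ?_
    · rintro _ ⟨x, hx, rfl⟩
      rw [Finset.mem_coe, Finsupp.mem_support_iff]
      intro h3
      apply hx
      show (algebraMap (ZMod p) K) (X (k0 * (x : O2))) = 0
      rw [h3, map_zero]
    · intro x _ y _ hxy
      exact Subtype.ext (mul_left_cancel hxy)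
  let Y : Λ →₀ K := Finsupp.ofSupportFinite (fun x : Λ => (algebraMap (ZMod p) K) (X (k0 * (x : O2)))) hfs
  have hYa : ∀ x : Λ, Y x = (algebraMap (ZMod p) K) (X (k0 * (x : O2))) := fun x => rfl
  refine core hp hp4 i hi (fun x : Λ => ch iu (x : O2)) ?_ ?_ ?_ γ i0 (Subtype.ext h1) ?_ Y ?_ ?_
  · intro x y hx hy
    exact ch_mul iu hiu (hfin x hx) (hfin y hy) (hs x)
  · intro x hx
    exact ch_four iu hiu (hfin x hx)
  · intro x hx h
    exact Subtype.ext (ch_one iu hiu h1K (hfin x hx) (hs x) h)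
  · obtain ⟨j, hj⟩ := hK
    exact ⟨j, fun h => hj (hfin (γ j) h)⟩
  · intro h
    have h3 := hYa 1
    rw [h] at h3
    apply hk0
    have h4 : (algebraMap (ZMod p) K) (X k0) = 0 := by
      have h5 : k0 * ((1 : Λ) : O2) = k0 := mul_one k0
      rw [h5] at h3
      exact h3.symm
    exact (map_eq_zero_iff _ (algebraMap (ZMod p) K).injective).1 h4
  · intro x
    have h3 := hX (k0 * (x : O2))
    have h4 : ∀ j, Y (x * γ j) = (algebraMap (ZMod p) K) (X (k0 * (x : O2) * g j)) := by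
      intro j
      rw [hYa, mul_assoc]
      rfl
    rw [Finset.sum_congr rfl fun j _ => h4 j, ← map_sum, h3, map_zero]

end Pool.Agent.SQG
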