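import Pool.Agent.SQG.Lns

/-!
# SQG module Kld: the group determinant for the groups generated by a reflection and the half turn

Here `σ` is a reflection, `τ = -1`, all `g i ∈ {1, τ, σ, τ σ}`; `σ.b ≠ 0`, so `ln 1 = (1, 0)` and
`ln σ = (σ.a ^ 2, σ.a * σ.b) ≠ (1, 0)` are different (also for `-σ`).
PROOF. Let `n1, n2, n3, n4` be the numbers of `i` with `g i = 1, -1, σ, -σ` (four different elements: `σ.s = -1`);
`n1 ≥ 1` (`g i0 = 1`), `n1 + n2 + n3 + n4 = p`, `n3 + n4 ≥ 1`.
Case A: `n2 = n4 = 0`: `Γ = {1, σ}` (`σ * σ = 1`); Case B: `n2 = n3 = 0`: `Γ = {1, -σ}`.  Group determinant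
`(n + m) * (n - m) = p * (n - m)`, with `n = n1`, `m = n3` resp. `n4`; `n - m` is odd and `0 < |n - m| < p`.
Case C: otherwise `Γ = {1, -1, σ, -σ}`, group determinant `(n1 + n2 + n3 + n4) (n1 + n2 - n3 - n4)
(n1 - n2 + n3 - n4) (n1 - n2 - n3 + n4) = p * x * y * z` with `x, y, z` odd of absolute value `< p` (not all signs
are equal: `x`: `n1 ≥ 1`, `n3 + n4 ≥ 1`; `y`: `n1 ≥ 1` and `n2 + n4 ≥ 1` (otherwise case A); `z`: `n1 ≥ 1`,
`n2 + n3 ≥ 1` (otherwise case B)), so not divisible by `p`.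
In all cases `p ^ 2` does not divide the group determinant, and the number `o` of lines is at least `2`, so `p ^ o`
does not divide it.  (To compute `ND`: reindex by an equivalence `Γ ≃ Fin 2`, `Γ ≃ Fin 4`
(`Matrix.det_reindex_self`/`det_submatrix_equiv_self`), `Matrix.det_fin_two`, and for 4: `Matrix.det_succ_row_zero`,
`Matrix.det_fin_three`, `simp [Fin.sum_univ_succ]`, `ring`; the entry at `(h, k)` is the number of `i` with
`g i = h⁻¹ * k`.)
-/

set_option autoImplicit false

open AddMonoidAlgebra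

namespace Pool.Agent.SQG

open Classical in
/-- The number of `i` with `g i = x`. -/
private noncomputable def kN {p : ℕ} (g : Fin p → O2) (x : O2) : ℤ :=
  ((Finset.univ.filter fun i => g i = x).card : ℤ)

private theorem kdet_inst {n : Type} (f : Fintype n) (d1 d2 : DecidableEq n) (M : Matrix n n ℤ) :
    @Matrix.det n d1 f ℤ _ M = @Matrix.det n d2 f ℤ _ M := by
  rw [Subsingleton.elim d1 d2]

private theorem kld_gen {p m : ℕ} (u : Fin m → O2) (hinj : Function.Injective u)
    (hmul : ∀ a b, ∃ c, u a * u b = u c) (hsq : ∀ a, u a * u a = 1) (a0 : Fin m) (h1 : u a0 = 1)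
    (g : Fin p → O2) (hg : ∀ i, ∃ a, g i = u a) :
    ∃ (Γ : Subgroup O2) (_ : Fintype Γ) (g' : Fin p → Γ), (∀ i, (g' i : O2) = g i) ∧
      (∀ a, u a ∈ Γ) ∧ ND p g' =
        Matrix.det (Matrix.of fun a b : Fin m => kN g (u a * u b)) := by
  classical
  obtain ⟨Γ, hΓ⟩ : ∃ Γ : Subgroup O2, ∀ x, x ∈ Γ ↔ ∃ a, u a = x :=
    ⟨{ carrier := Set.range u
       mul_mem' := by
         rintro _ _ ⟨a, rfl⟩ ⟨b, rfl⟩
         obtain ⟨c, hc⟩ := hmul a b
         exact ⟨c, hc.symm⟩
       one_mem' := ⟨a0, h1⟩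
       inv_mem' := by
         rintro _ ⟨a, rfl⟩
         exact ⟨a, (inv_eq_of_mul_eq_one_left (hsq a)).symm⟩ }, fun x => Iff.rfl⟩
  let e : Fin m ≃ Γ := Equiv.ofBijective (fun a => ⟨u a, (hΓ _).mpr ⟨a, rfl⟩⟩) (by
    constructor
    · intro a b hab
      exact hinj (congrArg Subtype.val hab)
    · rintro ⟨x, hx⟩
      obtain ⟨a, rfl⟩ := (hΓ x).mp hx
      exact ⟨a, rfl⟩)
  have he : ∀ a, ((e a : Γ) : O2) = u a := fun a => rfl
  let inst : Fintype Γ := Fintype.ofEquiv _ e
  have hg' : ∀ i, g i ∈ Γ := by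
    intro i
    obtain ⟨a, ha⟩ := hg i
    exact (hΓ _).mpr ⟨a, ha.symm⟩
  refine ⟨Γ, inst, fun i => ⟨g i, hg' i⟩, fun i => rfl, fun a => (hΓ _).mpr ⟨a, rfl⟩, ?_⟩
  unfold ND
  have hdet := Matrix.det_submatrix_equiv_self e (nn p fun i => (⟨g i, hg' i⟩ : Γ))
  have h2 : @Matrix.det Γ (fun a b => Classical.propDecidable (a = b)) inst ℤ _
      (nn p fun i => (⟨g i, hg' i⟩ : Γ)) = Matrix.det (nn p fun i => (⟨g i, hg' i⟩ : Γ)) :=
    kdet_inst _ _ _ _
  refine h2.trans (hdet.symm.trans ?_)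
  congr 1
  ext a b
  unfold nn kN
  simp only [Matrix.submatrix_apply, Matrix.of_apply]
  congr 2
  ext i
  simp only [Finset.mem_filter, Finset.mem_univ, true_and]
  rw [← Subtype.coe_inj]
  change u a * g i = u b ↔ _
  constructor
  · intro h
    rw [← h, ← mul_assoc, hsq, one_mul]
  · intro h
    rw [h, ← mul_assoc, hsq, one_mul]

private theorem kdet4 (a b c d : ℤ) :
    Matrix.det (!![a, b, c, d; b, a, d, c; c, d, a, b; d, c, b, a] : Matrix (Fin 4) (Fin 4) ℤ) =
      (a + b + c + d) * (a + b - c - d) * (a - b + c - d) * (a - b - c + d) := by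
  simp [Matrix.det_succ_row_zero, Fin.sum_univ_succ, Fin.succAbove]
  ring

private theorem kdet2 (a b : ℤ) :
    Matrix.det (!![a, b; b, a] : Matrix (Fin 2) (Fin 2) ℤ) = (a + b) * (a - b) := by
  rw [Matrix.det_fin_two_of]
  ring

private theorem kneg_mul (x y : O2) : -x * y = -(x * y) := by
  apply O2.ext'
  · simp only [O2.mul_a, O2.neg_a, O2.neg_b, O2.neg_t]; ring
  · simp only [O2.mul_b, O2.neg_a, O2.neg_b, O2.neg_t]; ring
  · rfl

private theorem kmul_neg (x y : O2) : x * -y = -(x * y) := by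
  apply O2.ext'
  · simp only [O2.mul_a, O2.neg_a, O2.neg_b]; ring
  · simp only [O2.mul_b, O2.neg_a, O2.neg_b]; ring
  · rfl

private theorem kneg_neg (x : O2) : - -x = x := by
  apply O2.ext'
  · exact neg_neg _
  · exact neg_neg _
  · rfl

private theorem ksq (σ : O2) (hs : σ.s = -1) : σ * σ = 1 := by
  have ht : σ.t = -1 := by simp [O2.t, hs]
  have h := σ.h
  apply O2.ext'
  · simp only [O2.mul_a, O2.one_a, ht]; linarith
  · simp only [O2.mul_b, O2.one_b, ht]; ring
  · simp [hs]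

private theorem kne1 (σ : O2) (hs : σ.s = -1) : σ ≠ 1 := by
  intro h
  rw [h] at hs
  simp at hs

private theorem kne2 (σ : O2) (hs : σ.s = -1) : σ ≠ -1 := by
  intro h
  rw [h] at hs
  simp at hs

private theorem kneN (x : O2) : x ≠ -x := by
  intro h
  have h1 : x.a = -x.a := congrArg O2.a h
  have h2 : x.b = -x.b := congrArg O2.b h
  have h3 := x.h
  have h4 : x.a = 0 := by linarith
  have h5 : x.b = 0 := by linarith
  rw [h4, h5] at h3
  norm_num at h3

private theorem k_arith {p : ℕ} (hp : p.Prime) (x y z : ℤ) (hx : x % 2 = 1)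
    (hy : y % 2 = 1) (hz : z % 2 = 1) (hx1 : |x| < p) (hy1 : |y| < p) (hz1 : |z| < p) (o : ℕ)
    (ho : 2 ≤ o) : ¬ ((p : ℤ) ^ o ∣ p * x * y * z) := by
  intro h
  have h2 : (p : ℤ) ^ 2 ∣ p * x * y * z := (pow_dvd_pow _ ho).trans h
  have hp0 : (p : ℤ) ≠ 0 := by exact_mod_cast hp.ne_zero
  have h3 : (p : ℤ) ∣ x * y * z := by
    have : (p : ℤ) * p ∣ p * (x * y * z) := by
      rw [← pow_two]
      convert h2 using 1
      ring
    exact (mul_dvd_mul_iff_left hp0).mp this
  have hpp : Prime (p : ℤ) := Nat.prime_iff_prime_int.mp hp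
  have key : ∀ w : ℤ, w % 2 = 1 → |w| < p → ¬ (p : ℤ) ∣ w := by
    intro w hw1 hw2 hw3
    have : w = 0 := Int.eq_zero_of_abs_lt_dvd hw3 hw2
    rw [this] at hw1
    norm_num at hw1
  rcases hpp.dvd_or_dvd h3 with h4 | h4
  · rcases hpp.dvd_or_dvd h4 with h5 | h5
    · exact key x hx hx1 h5
    · exact key y hy hy1 h5
  · exact key z hz hz1 h4

private theorem k_lines (Γ : Subgroup O2) (hfin : Finite Γ) (τ : O2) (hτ : τ ∈ Γ) (hb : τ.b ≠ 0) :
    2 ≤ Set.ncard (Set.range fun h : Γ => ln (h : O2)) := by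
  have h1 : ({ln 1, ln τ} : Set (ℝ × ℝ)) ⊆ Set.range fun h : Γ => ln (h : O2) := by
    intro x hx
    rcases hx with rfl | hx
    · exact ⟨1, rfl⟩
    · rw [Set.mem_singleton_iff.mp hx]
      exact ⟨⟨τ, hτ⟩, rfl⟩
  have hne : ln 1 ≠ ln τ := by
    intro h
    have h2 : (1 : ℝ) * 1 = τ.a * τ.a := congrArg Prod.fst h
    have h3 := τ.h
    have h4 : τ.b * τ.b = 0 := by linarith
    exact hb (mul_self_eq_zero.mp h4)
  rw [← Set.ncard_pair hne]
  exact Set.ncard_le_ncard h1 (Set.finite_range _)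

theorem kld {p : ℕ} (hp : p.Prime) (hp2 : p ≠ 2) (g : Fin p → O2) (i0 : Fin p) (h1 : g i0 = 1) (σ : O2)
    (hs : σ.s = -1) (hb : σ.b ≠ 0) (hg : ∀ i, g i = 1 ∨ g i = -1 ∨ g i = σ ∨ g i = -σ)
    (hne : ∃ i, g i = σ ∨ g i = -σ) :
    ∃ (Γ : Subgroup O2) (_ : Fintype Γ) (g' : Fin p → Γ), (∀ i, (g' i : O2) = g i) ∧
      ¬ ((p : ℤ) ^ (Set.ncard (Set.range fun h : Γ => ln (h : O2)))) ∣ ND p g' := by
  classical
  have hodd : (p : ℤ) % 2 = 1 := by
    have := hp.eq_two_or_odd
    omega
  have hpos : ∀ x, 0 ≤ kN g x := fun x => Int.natCast_nonneg _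
  have hN1 : 1 ≤ kN g 1 := by
    unfold kN
    have : 0 < (Finset.univ.filter fun i => g i = 1).card :=
      Finset.card_pos.mpr ⟨i0, by simp [h1]⟩
    exact_mod_cast this
  have hσ0 := ksq σ hs
  have hn1 := kne1 σ hs
  have hn2 := kne2 σ hs
  have hn3 : -σ ≠ 1 := by
    intro h; apply hn2; rw [← h, kneg_neg]
  have hn4 : -σ ≠ -1 := by
    intro h; apply hn1; rw [← kneg_neg σ, h, kneg_neg]
  have hn5 : (-1 : O2) ≠ 1 := (kneN 1).symm
  have hn6 : σ ≠ -σ := kneN σ
  have hsum : kN g 1 + kN g (-1) + kN g σ + kN g (-σ) = p := by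
    unfold kN
    have e1 : (Finset.univ : Finset (Fin p)) = (Finset.univ.filter fun i => g i = 1) ∪
        (Finset.univ.filter fun i => g i = -1) ∪ (Finset.univ.filter fun i => g i = σ) ∪
        (Finset.univ.filter fun i => g i = -σ) := by
      ext i
      simp only [Finset.mem_univ, Finset.mem_union, Finset.mem_filter, true_and, true_iff]
      rcases hg i with h | h | h | h <;> tauto
    have e2 : p = (Finset.univ : Finset (Fin p)).card := by simp
    conv_rhs => rw [e2, e1]
    rw [Finset.card_union_of_disjoint, Finset.card_union_of_disjoint,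
      Finset.card_union_of_disjoint]
    · push_cast; ring
    · rw [Finset.disjoint_left]
      intro i hi hi'
      simp only [Finset.mem_filter, Finset.mem_univ, true_and] at hi hi'
      exact hn5 (hi'.symm.trans hi)
    · rw [Finset.disjoint_left]
      intro i hi hi'
      simp only [Finset.mem_filter, Finset.mem_univ, true_and, Finset.mem_union] at hi hi'
      rcases hi with hi | hi
      · exact hn1 (hi'.symm.trans hi)
      · exact hn2 (hi'.symm.trans hi)
    · rw [Finset.disjoint_left]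
      intro i hi hi'
      simp only [Finset.mem_filter, Finset.mem_univ, true_and, Finset.mem_union] at hi hi'
      rcases hi with (hi | hi) | hi
      · exact hn3 (hi'.symm.trans hi)
      · exact hn4 (hi'.symm.trans hi)
      · exact hn6 (hi.symm.trans hi')
  have hN34 : 1 ≤ kN g σ + kN g (-σ) := by
    obtain ⟨i, hi | hi⟩ := hne
    · have : 0 < (Finset.univ.filter fun i => g i = σ).card :=
        Finset.card_pos.mpr ⟨i, by simp [hi]⟩
      have h3 : 1 ≤ kN g σ := by unfold kN; exact_mod_cast this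
      have := hpos (-σ)
      omega
    · have : 0 < (Finset.univ.filter fun i => g i = -σ).card :=
        Finset.card_pos.mpr ⟨i, by simp [hi]⟩
      have h3 : 1 ≤ kN g (-σ) := by unfold kN; exact_mod_cast this
      have := hpos σ
      omega
  have hzero : ∀ x, kN g x = 0 → ∀ i, g i ≠ x := by
    intro x hx i hi
    unfold kN at hx
    have : 0 < (Finset.univ.filter fun i => g i = x).card :=
      Finset.card_pos.mpr ⟨i, by simp [hi]⟩
    omega
  -- two elements
  have two : ∀ τ : O2, τ * τ = 1 → τ ≠ 1 → τ.b ≠ 0 → (∀ i, g i = 1 ∨ g i = τ) →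
      1 ≤ kN g τ → kN g 1 + kN g τ = p →
      ∃ (Γ : Subgroup O2) (_ : Fintype Γ) (g' : Fin p → Γ), (∀ i, (g' i : O2) = g i) ∧
        ¬ ((p : ℤ) ^ (Set.ncard (Set.range fun h : Γ => ln (h : O2)))) ∣ ND p g' := by
    intro τ hτ hτ1 hτb hgτ hNτ hsumτ
    obtain ⟨Γ, inst, g', hg', hΓ, hD⟩ := kld_gen (p := p) (m := 2) ![1, τ] (by
        intro a b hab
        fin_cases a <;> fin_cases b
        · rfl
        · exact absurd hab.symm hτ1
        · exact absurd hab hτ1
        · rfl) (by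
        intro a b
        fin_cases a <;> fin_cases b
        · exact ⟨0, one_mul _⟩
        · exact ⟨1, one_mul _⟩
        · exact ⟨1, mul_one _⟩
        · exact ⟨0, hτ⟩) (by
        intro a
        fin_cases a
        · exact one_mul _
        · exact hτ) 0 rfl g (by
        intro i
        rcases hgτ i with h | h
        · exact ⟨0, h⟩
        · exact ⟨1, h⟩)
    refine ⟨Γ, inst, g', hg', ?_⟩
    have hM : (Matrix.of fun a b : Fin 2 => kN g ((![1, τ] : Fin 2 → O2) a * (![1, τ] : Fin 2 → O2) b)) =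
        !![kN g 1, kN g τ; kN g τ, kN g 1] := by
      ext a b
      fin_cases a <;> fin_cases b
      · exact congrArg (kN g) (one_mul _)
      · exact congrArg (kN g) (one_mul _)
      · exact congrArg (kN g) (mul_one _)
      · exact congrArg (kN g) hτ
    rw [hD, hM, kdet2, hsumτ]
    have ho := k_lines Γ inferInstance τ (hΓ 1) hτb
    have := k_arith hp (kN g 1 - kN g τ) 1 1 (by omega) (by norm_num) (by norm_num)
      (by rw [abs_lt]; omega) (by rw [abs_one]; exact_mod_cast hp.one_lt)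
      (by rw [abs_one]; exact_mod_cast hp.one_lt) _ ho
    rwa [mul_one, mul_one] at this
  have hmsq : (-σ) * (-σ) = 1 := by rw [kneg_mul, kmul_neg, kneg_neg, hσ0]
  by_cases cA : kN g (-1) = 0 ∧ kN g (-σ) = 0
  · refine two σ hσ0 hn1 hb ?_ (by omega) (by omega)
    intro i
    rcases hg i with h | h | h | h
    · exact Or.inl h
    · exact absurd h (hzero _ cA.1 i)
    · exact Or.inr h
    · exact absurd h (hzero _ cA.2 i)
  by_cases cB : kN g (-1) = 0 ∧ kN g σ = 0
  · refine two (-σ) hmsq hn3 (by rw [O2.neg_b]; exact neg_ne_zero.mpr hb) ?_ (by omega) (by omega)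
    intro i
    rcases hg i with h | h | h | h
    · exact Or.inl h
    · exact absurd h (hzero _ cB.1 i)
    · exact absurd h (hzero _ cB.2 i)
    · exact Or.inr h
  -- four elements
  have m11 : (-1 : O2) * -1 = 1 := by rw [kneg_mul, kmul_neg, kneg_neg, one_mul]
  have m1s : (-1 : O2) * σ = -σ := by rw [kneg_mul, one_mul]
  have m1n : (-1 : O2) * -σ = σ := by rw [kneg_mul, kmul_neg, kneg_neg, one_mul]
  have ms1 : σ * -1 = -σ := by rw [kmul_neg, mul_one]
  have msn : σ * -σ = -1 := by rw [kmul_neg, hσ0]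
  have mn1 : -σ * -1 = σ := by rw [kmul_neg, mul_one, kneg_neg]
  have mns : -σ * σ = -1 := by rw [kneg_mul, hσ0]
  obtain ⟨Γ, inst, g', hg', hΓ, hD⟩ := kld_gen (p := p) (m := 4) ![1, -1, σ, -σ] (by
      intro a b hab
      fin_cases a <;> fin_cases b
      · rfl
      · exact absurd hab.symm hn5
      · exact absurd hab.symm hn1
      · exact absurd hab.symm hn3
      · exact absurd hab hn5
      · rfl
      · exact absurd hab.symm hn2
      · exact absurd hab.symm hn4
      · exact absurd hab hn1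
      · exact absurd hab hn2
      · rfl
      · exact absurd hab hn6
      · exact absurd hab hn3
      · exact absurd hab hn4
      · exact absurd hab.symm hn6
      · rfl) (by
      intro a b
      fin_cases a <;> fin_cases b
      · exact ⟨0, one_mul _⟩
      · exact ⟨1, one_mul _⟩
      · exact ⟨2, one_mul _⟩
      · exact ⟨3, one_mul _⟩
      · exact ⟨1, mul_one _⟩
      · exact ⟨0, m11⟩
      · exact ⟨3, m1s⟩
      · exact ⟨2, m1n⟩
      · exact ⟨2, mul_one _⟩
      · exact ⟨3, ms1⟩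
      · exact ⟨0, hσ0⟩
      · exact ⟨1, msn⟩
      · exact ⟨3, mul_one _⟩
      · exact ⟨2, mn1⟩
      · exact ⟨1, mns⟩
      · exact ⟨0, hmsq⟩) (by
      intro a
      fin_cases a
      · exact one_mul _
      · exact m11
      · exact hσ0
      · exact hmsq) 0 rfl g (by
      intro i
      rcases hg i with h | h | h | h
      · exact ⟨0, h⟩
      · exact ⟨1, h⟩
      · exact ⟨2, h⟩
      · exact ⟨3, h⟩)
  refine ⟨Γ, inst, g', hg', ?_⟩
  have hM : (Matrix.of fun a b : Fin 4 =>
      kN g ((![1, -1, σ, -σ] : Fin 4 → O2) a * (![1, -1, σ, -σ] : Fin 4 → O2) b)) =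
      !![kN g 1, kN g (-1), kN g σ, kN g (-σ); kN g (-1), kN g 1, kN g (-σ), kN g σ;
        kN g σ, kN g (-σ), kN g 1, kN g (-1); kN g (-σ), kN g σ, kN g (-1), kN g 1] := by
    ext a b
    fin_cases a <;> fin_cases b
    · exact congrArg (kN g) (one_mul _)
    · exact congrArg (kN g) (one_mul _)
    · exact congrArg (kN g) (one_mul _)
    · exact congrArg (kN g) (one_mul _)
    · exact congrArg (kN g) (mul_one _)
    · exact congrArg (kN g) m11
    · exact congrArg (kN g) m1s
    · exact congrArg (kN g) m1n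
    · exact congrArg (kN g) (mul_one _)
    · exact congrArg (kN g) ms1
    · exact congrArg (kN g) hσ0
    · exact congrArg (kN g) msn
    · exact congrArg (kN g) (mul_one _)
    · exact congrArg (kN g) mn1
    · exact congrArg (kN g) mns
    · exact congrArg (kN g) hmsq
  rw [hD, hM, kdet4, hsum]
  have ho := k_lines Γ inferInstance σ (hΓ 2) hb
  have p1 := hpos (-1)
  have p2 := hpos σ
  have p3 := hpos (-σ)
  exact k_arith hp (kN g 1 + kN g (-1) - kN g σ - kN g (-σ))
    (kN g 1 - kN g (-1) + kN g σ - kN g (-σ)) (kN g 1 - kN g (-1) - kN g σ + kN g (-σ))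
    (by omega) (by omega) (by omega)
    (by rw [abs_lt]; omega) (by rw [abs_lt]; omega) (by rw [abs_lt]; omega) _ ho

end Pool.Agent.SQG
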