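import Pool.Agent.SQG.Axc

/-!
# SQG module Onz: from real to integer exponents modulo p

PROOF (compare Pool/Agent/SQR/Rat.lean; `rat_fun` there is private, copy it).  Let `H` be the finite set of all `h`
with `Ax h` or `F (h * g i) ≠ 0` for some `i` (finite by `D.fin`, `Set.Finite.preimage` for the injective maps
`h ↦ h * g i`, and `ax_card`).  Let `T ⊆ V` be the finite set of `(1, 0)`, `(0, 1)`, `shf h` and `act h (c i)` for
`h ∈ H`, and of the points of the supports of the finitely many nonzero `F h`.  There is a homomorphism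
`G : V →+ ℚ` with `G (1, 0) ≠ 0`, `G (0, 1) ≠ 0` and integer values on `T`
(`Module.exists_dual_forall_apply_ne_zero` over `ℚ` for the two vectors, then multiply by the product of the
denominators of the values on `T`).  Put `f h = mapDomain (fun v => ⌊G v⌋) (F h mod p)`, `k h i = ⌊G (act h (c i))⌋`,
`m h = ⌊G (shf h)⌋`, `L1 = ⌊G (1, 0)⌋`, `L2 = ⌊G (0, 1)⌋`.
The relation is trivial for `h ∉ H` (all `F (h * g i) = 0`, `¬ Ax h`).  For `h ∈ H` it may be checked after applying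
the injective ring homomorphism `AddMonoidAlgebra (ZMod p) ℤ → AddMonoidAlgebra (ZMod p) ℚ` induced by
`Int.cast`; there it is the image of `D.rel h` under the ring homomorphism
`AddMonoidAlgebra ℤ V → AddMonoidAlgebra (ZMod p) ℚ` induced by `G` and `ℤ → ZMod p`
(`single v a ↦ single (G v) (a : ZMod p)`: `(mapRangeRingHom ..).comp` or `AddMonoidAlgebra.lift`); all exponents that
occur are in `T` where `(⌊G v⌋ : ℚ) = G v` (`mapDomain_congr`).
-/

set_option autoImplicit false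

open AddMonoidAlgebra Filter Topology

namespace Pool.Agent.SQG

private theorem Onz_den (T : Finset V) (G : V → ℚ) :
    ∃ D : ℕ, 0 < D ∧ ∀ t ∈ T, ∃ n : ℤ, (n : ℚ) = D * G t := by
  refine ⟨∏ t ∈ T, (G t).den, Finset.prod_pos fun t _ => (G t).den_pos, fun t ht => ?_⟩
  obtain ⟨k, hk⟩ := Finset.dvd_prod_of_mem (fun t => (G t).den) ht
  refine ⟨k * (G t).num, ?_⟩
  rw [hk]
  push_cast
  rw [← Rat.mul_den_eq_num (G t)]
  ring

private theorem Onz_fun (T : Finset V) :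
    ∃ G : V →+ ℚ, G (1, 0) ≠ 0 ∧ G (0, 1) ≠ 0 ∧ ∀ t ∈ T, ((⌊G t⌋ : ℤ) : ℚ) = G t := by
  obtain ⟨g, hg⟩ := Module.exists_dual_forall_apply_ne_zero (K := ℚ) (M := V)
    (fun x : Bool => if x then ((1 : ℝ), (0 : ℝ)) else (0, 1)) (fun x => by
      cases x <;> simp)
  obtain ⟨D, hD, hDT⟩ := Onz_den T g
  have hD' : (D : ℚ) ≠ 0 := by
    exact_mod_cast hD.ne'
  have h1 : g ((1 : ℝ), (0 : ℝ)) ≠ 0 := by simpa using hg true
  have h2 : g ((0 : ℝ), (1 : ℝ)) ≠ 0 := by simpa using hg false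
  have h3 : ∀ x, (D • g.toAddMonoidHom) x = (D : ℚ) * g x := by
    intro x
    simp
  refine ⟨D • g.toAddMonoidHom, ?_, ?_, fun t ht => ?_⟩
  · rw [h3]
    exact mul_ne_zero hD' h1
  · rw [h3]
    exact mul_ne_zero hD' h2
  · obtain ⟨n, hn⟩ := hDT t ht
    rw [h3, ← hn, Int.floor_intCast]

/-- The reduction modulo `p`. -/
private noncomputable def Onz_red (p : ℕ) : AddMonoidAlgebra ℤ V →+* AddMonoidAlgebra (ZMod p) V :=
  mapRingHom V (Int.castRingHom (ZMod p))

private theorem Onz_red_single (p : ℕ) (v : V) (a : ℤ) :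
    Onz_red p (single v a) = single v (a : ZMod p) := by
  simp [Onz_red]

private theorem Onz_red_coeff (p : ℕ) (X : AddMonoidAlgebra ℤ V) (v : V) :
    (Onz_red p X).coeff v = ((X.coeff v : ℤ) : ZMod p) := by
  simp [Onz_red]

private theorem Onz_md (p : ℕ) (G : V →+ ℚ) (X : AddMonoidAlgebra (ZMod p) V)
    (h : ∀ w ∈ X.coeff.support, ((⌊G w⌋ : ℤ) : ℚ) = G w) :
    mapDomainRingHom (ZMod p) (Int.castAddHom ℚ) (mapDomain (fun v => ⌊G v⌋) X) =
      mapDomainRingHom (ZMod p) G X := by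
  simp only [mapDomainRingHom_apply]
  apply coeff_injective
  simp only [coeff_mapDomain]
  rw [← Finsupp.mapDomain_comp]
  exact Finsupp.mapDomain_congr h

theorem onz {p : ℕ} {g : Fin p → O2} {c : Fin p → V} {F : O2 → AddMonoidAlgebra ℤ V} (D : Dat p g c F) :
    ∃ (f : O2 → AddMonoidAlgebra (ZMod p) ℤ) (k : O2 → Fin p → ℤ) (m : O2 → ℤ) (L1 L2 : ℤ), L1 ≠ 0 ∧ L2 ≠ 0 ∧
      {h | f h ≠ 0}.Finite ∧
      (∀ h, Ax h → ∑ i, single (k h i) 1 * f (h * g i) = single (m h) 1 * qq (ZMod p) L1 L2) ∧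
      ∀ h, ¬ Ax h → ∑ i, single (k h i) 1 * f (h * g i) = 0 := by
  classical
  obtain ⟨SA, -, hSA⟩ := ax_card
  have hfi : ∀ i, {h | F (h * g i) ≠ 0}.Finite := fun i =>
    D.fin.preimage (mul_left_injective (g i)).injOn
  have hT : (({((1 : ℝ), (0 : ℝ))} ∪ {((0 : ℝ), (1 : ℝ))}) ∪ (shf '' {h | Ax h}) ∪
      (⋃ i, (fun h => act h (c i)) '' {h | F (h * g i) ≠ 0}) ∪
      (⋃ h ∈ {h | F h ≠ 0}, ((F h).coeff.support : Set V)) : Set V).Finite := by
    refine Set.Finite.union (Set.Finite.union (Set.Finite.union ?_ ?_) ?_) ?_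
    · exact (Set.finite_singleton _).union (Set.finite_singleton _)
    · exact (SA.finite_toSet.subset fun h hh => (hSA h).2 hh).image _
    · exact Set.finite_iUnion fun i => (hfi i).image _
    · exact D.fin.biUnion fun h _ => Finset.finite_toSet _
  obtain ⟨G, hG1, hG2, hGT⟩ := Onz_fun hT.toFinset
  have hfl : ∀ t, t ∈ (({((1 : ℝ), (0 : ℝ))} ∪ {((0 : ℝ), (1 : ℝ))}) ∪ (shf '' {h | Ax h}) ∪
      (⋃ i, (fun h => act h (c i)) '' {h | F (h * g i) ≠ 0}) ∪
      (⋃ h ∈ {h | F h ≠ 0}, ((F h).coeff.support : Set V)) : Set V) → ((⌊G t⌋ : ℤ) : ℚ) = G t :=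
    fun t ht => hGT t (hT.mem_toFinset.2 ht)
  have e1 : ((⌊G (1, 0)⌋ : ℤ) : ℚ) = G (1, 0) :=
    hfl _ (Or.inl (Or.inl (Or.inl (Or.inl rfl))))
  have e2 : ((⌊G (0, 1)⌋ : ℤ) : ℚ) = G (0, 1) :=
    hfl _ (Or.inl (Or.inl (Or.inl (Or.inr rfl))))
  have e3 : ∀ h, Ax h → ((⌊G (shf h)⌋ : ℤ) : ℚ) = G (shf h) := fun h hh =>
    hfl _ (Or.inl (Or.inl (Or.inr ⟨h, hh, rfl⟩)))
  have e4 : ∀ h i, F (h * g i) ≠ 0 → ((⌊G (act h (c i))⌋ : ℤ) : ℚ) = G (act h (c i)) := fun h i hh =>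
    hfl _ (Or.inl (Or.inr (Set.mem_iUnion.2 ⟨i, h, hh, rfl⟩)))
  have e5 : ∀ h, ∀ w ∈ (F h).coeff.support, ((⌊G w⌋ : ℤ) : ℚ) = G w := by
    intro h w hw
    refine hfl _ (Or.inr (Set.mem_iUnion₂.2 ⟨h, ?_, hw⟩))
    intro h0
    rw [h0] at hw
    simp at hw
  let ι : AddMonoidAlgebra (ZMod p) ℤ →+* AddMonoidAlgebra (ZMod p) ℚ :=
    mapDomainRingHom (ZMod p) (Int.castAddHom ℚ)
  let φ : AddMonoidAlgebra ℤ V →+* AddMonoidAlgebra (ZMod p) ℚ :=
    (mapDomainRingHom (ZMod p) G).comp (Onz_red p)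
  let f : O2 → AddMonoidAlgebra (ZMod p) ℤ := fun h => mapDomain (fun v => ⌊G v⌋) (Onz_red p (F h))
  have hι : Function.Injective ι := mapDomain_injective (f := (Int.castAddHom ℚ)) Int.cast_injective
  have hιs : ∀ (n : ℤ) (a : ZMod p), ι (single n a) = single (n : ℚ) a := by
    intro n a
    simp only [ι, mapDomainRingHom_apply, mapDomain_single]
    rfl
  have hφs : ∀ (v : V) (a : ℤ), φ (single v a) = single (G v) (a : ZMod p) := by
    intro v a
    simp only [φ, RingHom.comp_apply, Onz_red_single, mapDomainRingHom_apply, mapDomain_single]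
  have hf : ∀ h, ι (f h) = φ (F h) := by
    intro h
    refine Onz_md p G _ fun w hw => e5 h w ?_
    rw [Finsupp.mem_support_iff] at hw ⊢
    intro h0
    apply hw
    rw [Onz_red_coeff, h0, Int.cast_zero]
  have hf0 : ∀ h, F h = 0 → f h = 0 := by
    intro h h0
    apply hι
    rw [hf, h0, map_zero, map_zero]
  have hrel : ∀ h, ι (∑ i, single (⌊G (act h (c i))⌋) 1 * f (h * g i)) = φ (BB h) := by
    intro h
    rw [← D.rel h, map_sum, map_sum]
    refine Finset.sum_congr rfl fun i _ => ?_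
    rw [map_mul, map_mul, hf, hιs, hφs]
    by_cases h0 : F (h * g i) = 0
    · rw [h0, map_zero, mul_zero, mul_zero]
    · rw [e4 h i h0, Int.cast_one]
  refine ⟨f, fun h i => ⌊G (act h (c i))⌋, fun h => ⌊G (shf h)⌋, ⌊G (1, 0)⌋, ⌊G (0, 1)⌋, ?_, ?_, ?_, ?_, ?_⟩
  · intro h0
    rw [h0] at e1
    exact hG1 (by rw [← e1, Int.cast_zero])
  · intro h0
    rw [h0] at e2
    exact hG2 (by rw [← e2, Int.cast_zero])
  · exact D.fin.subset fun h hh h0 => hh (hf0 h h0)
  · intro h hh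
    apply hι
    have hB : BB h = single (shf h) 1 * qq ℤ ((1, 0) : V) (0, 1) := by
      unfold BB
      rw [if_pos hh]
    have h1 := hrel h
    rw [hB] at h1
    refine h1.trans ?_
    unfold qq
    rw [map_mul, map_mul, map_sub, map_sub, map_one, hφs, hφs, hφs, map_mul, map_mul, map_sub, map_sub,
      map_one, hιs, hιs, hιs, e1, e2, e3 h hh, Int.cast_one]
  · intro h hh
    apply hι
    have hB : BB h = 0 := by
      unfold BB
      rw [if_neg hh]
    have h1 := hrel h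
    rw [hB, map_zero] at h1
    rw [map_zero]
    exact h1

end Pool.Agent.SQG
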