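import Mathlib

/-!
# SQG module Prm: primitive vectors
-/

set_option autoImplicit false

open AddMonoidAlgebra

namespace Pool.Agent.SQG

theorem prm {M : Type} [AddCommGroup M] [AddMonoid.FG M] [IsAddTorsionFree M] (e : M) (he : e ≠ 0) :
    ∃ (w : M) (lam : M →+ ℤ) (n : ℕ), 0 < n ∧ lam w = 1 ∧ e = n • w := by
  have hfg : AddGroup.FG M := AddGroup.fg_iff_addMonoid_fg.mpr inferInstance
  haveI : Module.Finite ℤ M := Module.Finite.iff_addGroup_fg.mpr hfg
  haveI : Module.Free ℤ M := inferInstance
  let b := Module.Free.chooseBasis ℤ M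
  let ev : Module.Dual ℤ M →ₗ[ℤ] ℤ := LinearMap.applyₗ e
  let I : Ideal ℤ := LinearMap.range ev
  obtain ⟨g, hg⟩ := (IsPrincipalIdealRing.principal I).principal
  have hgI : g ∈ I := by
    rw [hg]
    exact Submodule.mem_span_singleton_self g
  obtain ⟨lam0, hlam0⟩ := LinearMap.mem_range.mp hgI
  have hlam0' : lam0 e = g := hlam0
  have hdvd : ∀ j, g ∣ b.repr e j := by
    intro j
    have h1 : b.coord j e ∈ I := LinearMap.mem_range.mpr ⟨b.coord j, rfl⟩
    rw [hg] at h1
    obtain ⟨c, hc⟩ := Submodule.mem_span_singleton.mp h1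
    refine ⟨c, ?_⟩
    have : b.coord j e = b.repr e j := rfl
    rw [← this, ← hc, smul_eq_mul, mul_comm]
  have hg0 : g ≠ 0 := by
    intro h0
    apply he
    apply b.repr.injective
    ext j
    have := hdvd j
    rw [h0, zero_dvd_iff] at this
    simp [this]
  choose c hc using hdvd
  let w0 : M := ∑ j, c j • b j
  have hw0 : e = g • w0 := by
    apply b.repr.injective
    ext j
    simp only [w0, map_smul, map_sum, Finsupp.smul_apply, Finsupp.finset_sum_apply, smul_eq_mul]
    rw [hc j]
    congr 1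
    rw [Finset.sum_eq_single j]
    · simp
    · intro i _ hij
      simp [Finsupp.single_apply, hij]
    · intro h
      exact absurd (Finset.mem_univ j) h
  have hlw : lam0 w0 = 1 := by
    have h1 : g * lam0 w0 = g := by
      rw [← smul_eq_mul, ← map_smul, ← hw0, hlam0']
    have h2 : g * lam0 w0 = g * 1 := by rw [h1, mul_one]
    exact mul_left_cancel₀ hg0 h2
  rcases le_total 0 g with hpos | hneg
  · refine ⟨w0, lam0.toAddMonoidHom, g.toNat, ?_, hlw, ?_⟩
    · omega
    · have : (g.toNat : ℤ) = g := Int.toNat_of_nonneg hpos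
      rw [← natCast_zsmul, this]
      exact hw0
  · refine ⟨-w0, (-lam0).toAddMonoidHom, (-g).toNat, ?_, ?_, ?_⟩
    · omega
    · simp [hlw]
    · have : ((-g).toNat : ℤ) = -g := Int.toNat_of_nonneg (by omega)
      rw [← natCast_zsmul, this, smul_neg, neg_smul, neg_neg]
      exact hw0

end Pool.Agent.SQG
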