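import Mathlib

/-!
# SQG module Psh: pushing functions on an abelian group to the integers

PROOF. `psh ε lam Y = ∑ Y x * ε x * single (lam x)`.  `psh_shift`: the support of `Y'` is the image of the support
of `Y` under `x ↦ x * ρ⁻¹`; substitute `x = y * ρ⁻¹` in the sum (`Finsupp.sum` over `Y'`, e.g. write
`Y' = Y.mapDomain (· * ρ⁻¹)` or `Finsupp.equivMapDomain`), `ε (y * ρ⁻¹) = ε y * (ε ρ)⁻¹`,
`lam (y * ρ⁻¹) = lam y - lam ρ`.
-/

set_option autoImplicit false

open AddMonoidAlgebra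

namespace Pool.Agent.SQG

/-- The image of `Y` under the twisted homomorphism `x ↦ ε x * single (lam x)`. -/
noncomputable def psh {Λ K : Type} [CommGroup Λ] [Field K] (ε : Λ →* Kˣ) (lam : Λ →* Multiplicative ℤ)
    (Y : Λ →₀ K) : AddMonoidAlgebra K ℤ :=
  Y.sum fun x y => single (Multiplicative.toAdd (lam x)) (y * ((ε x : Kˣ) : K))

theorem psh_shift {Λ K : Type} [CommGroup Λ] [Field K] (ε : Λ →* Kˣ) (lam : Λ →* Multiplicative ℤ)
    (Y Y' : Λ →₀ K) (ρ : Λ) (h : ∀ x, Y' x = Y (x * ρ)) :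
    psh ε lam Y' = single (-(Multiplicative.toAdd (lam ρ))) ((((ε ρ)⁻¹ : Kˣ)) : K) * psh ε lam Y := by
  have hY' : Y' = Finsupp.equivMapDomain (Equiv.mulRight ρ⁻¹) Y := by
    ext x
    rw [Finsupp.equivMapDomain_apply, h]
    simp
  unfold psh
  rw [hY', Finsupp.sum_equivMapDomain, Finsupp.sum, Finsupp.sum, Finset.mul_sum]
  refine Finset.sum_congr rfl fun x _ => ?_
  rw [single_mul_single]
  simp only [Equiv.coe_mulRight, map_mul, map_inv, toAdd_mul, toAdd_inv, Units.val_mul]
  congr 1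
  · ring
  · ring

theorem psh_add {Λ K : Type} [CommGroup Λ] [Field K] (ε : Λ →* Kˣ) (lam : Λ →* Multiplicative ℤ)
    (Y Y' : Λ →₀ K) : psh ε lam (Y + Y') = psh ε lam Y + psh ε lam Y' := by
  classical
  unfold psh
  apply Finsupp.sum_add_index'
  · intro x
    rw [zero_mul, single_zero]
  · intro x a b
    rw [add_mul, single_add]

theorem psh_coeff {Λ K : Type} [CommGroup Λ] [Field K] (ε : Λ →* Kˣ) (lam : Λ →* Multiplicative ℤ)
    (Y : Λ →₀ K) (n : ℤ) :
    (psh ε lam Y).coeff n = ∑ x ∈ Y.support with Multiplicative.toAdd (lam x) = n, Y x * ((ε x : Kˣ) : K) := by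
  classical
  have h1 : ∀ S : Finset Λ, (∑ x ∈ S, single (Multiplicative.toAdd (lam x)) (Y x * ((ε x : Kˣ) : K)) :
      AddMonoidAlgebra K ℤ).coeff n = ∑ x ∈ S, if Multiplicative.toAdd (lam x) = n then Y x * ((ε x : Kˣ) : K)
        else 0 := by
    intro S
    induction S using Finset.induction_on with
    | empty => simp
    | insert a s ha ih =>
      rw [Finset.sum_insert ha, Finset.sum_insert ha, coeff_add, Finsupp.add_apply, ih, coeff_single,
        Finsupp.single_apply]
  unfold psh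
  rw [Finsupp.sum, h1, Finset.sum_filter]

end Pool.Agent.SQG
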