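import Pool.Agent.SQG.Psh

/-!
# SQG module Psm: a character with nonzero image, torsion of order dividing four

PROOF. Choose `x0` with `Y x0 ≠ 0`.  By `hlam`, every `x` in the support of `Y` with `lam x = lam x0` has the form
`t * x0` with `t` of finite order; `χ` is injective on the finite order elements with values in the fourth roots of
unity, so these are at most four elements.  For `k : Fin 4` let `ε k x = χ (r x) ^ k`, a homomorphism.  The coefficient
at `lam x0` of `psh (ε k) lam Y` is `∑ t, Y (t * x0) * χ t ^ k * χ (r x0) ^ k` (`r (t * x0) = t * r x0`).  Multiply by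
`χ (r x0) ^ (-k)` and sum over `k = 0, 1, 2, 3`: as `∑ k, ζ ^ k = 0` for `ζ ^ 4 = 1`, `ζ ≠ 1` (`ζ` times the sum
equals the sum) and `= 4` for `ζ = 1`, the result is `4 * Y x0 ≠ 0` (`χ t = 1` only for `t = 1`).  So one of the four
coefficients is nonzero.
-/

set_option autoImplicit false

open AddMonoidAlgebra Filter Topology

namespace Pool.Agent.SQG

theorem psm {K : Type} [Field K] (h2 : (2 : K) ≠ 0) {Λ : Type} [CommGroup Λ]
    (r : Λ →* Λ) (lam : Λ →* Multiplicative ℤ) (hr : ∀ x, IsOfFinOrder (r x)) (hr2 : ∀ x, IsOfFinOrder x → r x = x)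
    (χ : Λ → Kˣ) (hχ : ∀ x y, IsOfFinOrder x → IsOfFinOrder y → χ (x * y) = χ x * χ y)
    (hχ4 : ∀ x, IsOfFinOrder x → χ x ^ 4 = 1) (hχ1 : ∀ x, IsOfFinOrder x → χ x = 1 → x = 1)
    (Y : Λ →₀ K) (hY : Y ≠ 0)
    (hlam : ∀ x ∈ Y.support, ∀ y ∈ Y.support, lam (x * y⁻¹) = 1 → IsOfFinOrder (x * y⁻¹)) :
    ∃ (k : ℕ) (ε : Λ →* Kˣ), (∀ x, ε x = χ (r x) ^ k) ∧ psh ε lam Y ≠ 0 := by
  classical
  obtain ⟨x0, hx0⟩ : ∃ x0, Y x0 ≠ 0 := by
    by_contra hc
    push Not at hc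
    exact hY (Finsupp.ext hc)
  let e1 : Λ →* Kˣ := MonoidHom.mk' (fun x => χ (r x)) (by
    intro x y
    rw [map_mul, hχ _ _ (hr x) (hr y)])
  let ε : ℕ → Λ →* Kˣ := fun k => e1 ^ k
  have hε : ∀ k x, ε k x = χ (r x) ^ k := fun k x => rfl
  by_contra hcon
  push Not at hcon
  have h0 : ∀ k, psh (ε k) lam Y = 0 := fun k => hcon k (ε k) (hε k)
  set n0 : ℤ := Multiplicative.toAdd (lam x0) with hn0
  set S : Finset Λ := Y.support.filter fun x => Multiplicative.toAdd (lam x) = n0 with hS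
  have hc : ∀ k, ∑ x ∈ S, Y x * ((χ (r x) : Kˣ) : K) ^ k = 0 := by
    intro k
    have h3 := psh_coeff (ε k) lam Y n0
    rw [h0 k] at h3
    have h4 : ∑ x ∈ S, Y x * ((ε k x : Kˣ) : K) = 0 := h3.symm
    rw [← h4]
    refine Finset.sum_congr rfl fun x _ => ?_
    rw [hε, Units.val_pow_eq_pow_val]
  have hx0S : x0 ∈ S := by
    rw [hS, Finset.mem_filter, Finsupp.mem_support_iff]
    exact ⟨hx0, rfl⟩
  -- the quotients
  let ζ : Λ → K := fun x => ((χ (r x) * (χ (r x0))⁻¹ : Kˣ) : K)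
  have hζ : ∀ x ∈ S, x ≠ x0 → ζ x ≠ 1 ∧ ζ x ^ 4 = 1 := by
    intro x hx hne
    rw [hS, Finset.mem_filter] at hx
    have hfo : IsOfFinOrder (x * x0⁻¹) := by
      refine hlam x hx.1 x0 (Finsupp.mem_support_iff.2 hx0) ?_
      have h5 : lam x = lam x0 := Multiplicative.toAdd.injective hx.2
      rw [map_mul, map_inv, h5, mul_inv_cancel]
    have h6 : χ (r x) = χ (x * x0⁻¹) * χ (r x0) := by
      rw [← hχ _ _ hfo (hr x0)]
      congr 1
      have h7 : r (x * x0⁻¹) = x * x0⁻¹ := hr2 _ hfo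
      rw [map_mul, map_inv] at h7
      rw [← h7, inv_mul_cancel_right]
    have h8 : ζ x = ((χ (x * x0⁻¹) : Kˣ) : K) := by
      change ((χ (r x) * (χ (r x0))⁻¹ : Kˣ) : K) = _
      rw [h6, mul_inv_cancel_right]
    rw [h8]
    constructor
    · intro h9
      have h10 := hχ1 _ hfo (Units.ext h9)
      exact hne (mul_inv_eq_one.1 h10)
    · rw [← Units.val_pow_eq_pow_val, hχ4 _ hfo, Units.val_one]
  have hz0 : ζ x0 = 1 := by
    change ((χ (r x0) * (χ (r x0))⁻¹ : Kˣ) : K) = 1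
    rw [mul_inv_cancel, Units.val_one]
  have hsum : ∑ x ∈ S, Y x * ∑ k ∈ Finset.range 4, ζ x ^ k = 0 := by
    have h3 : ∀ k, ∑ x ∈ S, Y x * ζ x ^ k = 0 := by
      intro k
      have h4 : ∀ x ∈ S, Y x * ζ x ^ k = (Y x * ((χ (r x) : Kˣ) : K) ^ k) * (((χ (r x0))⁻¹ : Kˣ) : K) ^ k := by
        intro x _
        change Y x * ((χ (r x) * (χ (r x0))⁻¹ : Kˣ) : K) ^ k = _
        rw [Units.val_mul, mul_pow, mul_assoc]
      rw [Finset.sum_congr rfl h4, ← Finset.sum_mul, hc, zero_mul]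
    simp only [Finset.mul_sum]
    rw [Finset.sum_comm]
    exact Finset.sum_eq_zero fun k _ => h3 k
  rw [Finset.sum_eq_single_of_mem x0 hx0S] at hsum
  · rw [hz0] at hsum
    have h3 : Y x0 * (2 * 2) = 0 := by
      rw [← hsum]
      simp only [one_pow, Finset.sum_const, Finset.card_range, nsmul_eq_mul]
      norm_num
    rcases mul_eq_zero.1 h3 with h4 | h4
    · exact hx0 h4
    · exact h2 (mul_self_eq_zero.1 h4)
  · intro x hx hne
    obtain ⟨h3, h4⟩ := hζ x hx hne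
    have h5 : (∑ k ∈ Finset.range 4, ζ x ^ k) * (ζ x - 1) = 0 := by
      rw [geom_sum_mul, h4, sub_self]
    rcases mul_eq_zero.1 h5 with h6 | h6
    · rw [h6, mul_zero]
    · exact absurd (sub_eq_zero.1 h6) h3

end Pool.Agent.SQG
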