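import Pool.Agent.SQG.Psh

/-!
# SQG module Psn: a character with nonzero image, torsion of order at most two

PROOF. Choose `x0` with `Y x0 ≠ 0`.  By `hlam` (applied to `x * x0⁻¹`) and `htor`, every `x` in the support of `Y`
with `lam x = lam x0` is `x0` or `τ * x0`; and `τ` has finite order.
If `τ = 1`, take `ε = 1`: the coefficient (`psh_coeff`) of `psh 1 lam Y` at `lam x0` is `Y x0`.
If `τ ≠ 1`: `r x ∈ {1, τ}` for all `x`, and `ε1 x = 1` if `r x = 1`, `= -1` if `r x = τ` is a homomorphism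
(`r` is one).  The coefficient at `lam x0` (`lam (τ * x0) = lam x0` since `τ ^ 2 = 1` and `ℤ` is torsion free) is
`Y x0 + Y (τ * x0)` for `ε = 1` and `± (Y x0 - Y (τ * x0))` for `ε1` (`r (τ * x0) = τ * r x0`); if both vanish,
`2 * Y x0 = 0`, impossible as `p ≠ 2`.
-/

set_option autoImplicit false

open AddMonoidAlgebra

namespace Pool.Agent.SQG

private theorem psn_sum {p : ℕ} [Fact p.Prime] {Λ : Type} [CommGroup Λ] (τ : Λ) (hτ : τ * τ = 1)
    (lam : Λ →* Multiplicative ℤ)
    (htor : ∀ x : Λ, IsOfFinOrder x → x = 1 ∨ x = τ) (Y : Λ →₀ ZMod p)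
    (hlam : ∀ x ∈ Y.support, ∀ y ∈ Y.support, lam (x * y⁻¹) = 1 → IsOfFinOrder (x * y⁻¹))
    (ε : Λ →* (ZMod p)ˣ) (x0 : Λ) (hx0 : Y x0 ≠ 0) (hτ1 : τ ≠ 1) :
    (psh ε lam Y).coeff (Multiplicative.toAdd (lam x0)) =
      Y x0 * ((ε x0 : (ZMod p)ˣ) : ZMod p) + Y (τ * x0) * ((ε (τ * x0) : (ZMod p)ˣ) : ZMod p) := by
  classical
  rw [psh_coeff]
  have hlτ : lam τ = 1 := by
    have h1 : lam τ * lam τ = 1 := by rw [← map_mul, hτ, map_one]
    have h2 : Multiplicative.toAdd (lam τ) + Multiplicative.toAdd (lam τ) = 0 := by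
      rw [← toAdd_mul, h1, toAdd_one]
    have h3 : Multiplicative.toAdd (lam τ) = 0 := by omega
    exact h3
  have hne : x0 ≠ τ * x0 := by
    intro h
    apply hτ1
    have h4 : 1 * x0 = τ * x0 := by rw [one_mul]; exact h
    exact (mul_right_cancel h4).symm
  rw [← Finset.sum_pair (f := fun x => Y x * ((ε x : (ZMod p)ˣ) : ZMod p)) hne]
  apply Finset.sum_subset
  · intro x hx
    rw [Finset.mem_filter] at hx
    have h1 : lam (x * x0⁻¹) = 1 := by
      rw [map_mul, map_inv, mul_inv_eq_one]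
      exact Multiplicative.toAdd.injective hx.2
    have h2 := hlam x hx.1 x0 (Finsupp.mem_support_iff.mpr hx0) h1
    rcases htor _ h2 with h3 | h3
    · rw [mul_inv_eq_one] at h3
      simp [h3]
    · rw [mul_inv_eq_iff_eq_mul] at h3
      simp [h3]
  · intro x hx hx'
    have h1 : lam x = lam x0 := by
      rw [Finset.mem_insert, Finset.mem_singleton] at hx
      rcases hx with rfl | rfl
      · rfl
      · rw [map_mul, hlτ, one_mul]
    have h2 : x ∉ Y.support := by
      intro h3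
      apply hx'
      rw [Finset.mem_filter]
      exact ⟨h3, by rw [h1]⟩
    rw [Finsupp.notMem_support_iff] at h2
    rw [h2, zero_mul]

theorem psn {p : ℕ} [Fact p.Prime] (hp2 : p ≠ 2) {Λ : Type} [CommGroup Λ] (τ : Λ) (hτ : τ * τ = 1)
    (r : Λ →* Λ) (lam : Λ →* Multiplicative ℤ) (hr : ∀ x, IsOfFinOrder (r x)) (hr2 : ∀ x, IsOfFinOrder x → r x = x)
    (htor : ∀ x : Λ, IsOfFinOrder x → x = 1 ∨ x = τ) (Y : Λ →₀ ZMod p) (hY : Y ≠ 0)
    (hlam : ∀ x ∈ Y.support, ∀ y ∈ Y.support, lam (x * y⁻¹) = 1 → IsOfFinOrder (x * y⁻¹)) :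
    ∃ ε : Λ →* (ZMod p)ˣ, (∀ x, ε x = 1 ∨ ε x = -1) ∧ psh ε lam Y ≠ 0 := by
  classical
  obtain ⟨x0, hx0⟩ : ∃ x0, Y x0 ≠ 0 := by
    by_contra hcon
    push Not at hcon
    exact hY (Finsupp.ext hcon)
  by_cases hτ1 : τ = 1
  · refine ⟨1, fun x => Or.inl rfl, ?_⟩
    intro h0
    have h1 := psh_coeff (1 : Λ →* (ZMod p)ˣ) lam Y (Multiplicative.toAdd (lam x0))
    have h2 : (psh (1 : Λ →* (ZMod p)ˣ) lam Y).coeff (Multiplicative.toAdd (lam x0)) = 0 := by
      rw [h0]
      simp
    rw [h2] at h1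
    have h3 : (∑ x ∈ Y.support with Multiplicative.toAdd (lam x) = Multiplicative.toAdd (lam x0),
        Y x * ((((1 : Λ →* (ZMod p)ˣ) x : (ZMod p)ˣ)) : ZMod p)) = Y x0 := by
      rw [Finset.sum_eq_single x0]
      · simp
      · intro x hx hxne
        exfalso
        rw [Finset.mem_filter] at hx
        have h4 : lam (x * x0⁻¹) = 1 := by
          rw [map_mul, map_inv, mul_inv_eq_one]
          exact Multiplicative.toAdd.injective hx.2
        have h5 := hlam x hx.1 x0 (Finsupp.mem_support_iff.mpr hx0) h4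
        have h6 : x * x0⁻¹ = 1 := by
          rcases htor _ h5 with h7 | h7
          · exact h7
          · rw [h7, hτ1]
        rw [mul_inv_eq_one] at h6
        exact hxne h6
      · intro hx
        exfalso
        apply hx
        rw [Finset.mem_filter]
        exact ⟨Finsupp.mem_support_iff.mpr hx0, rfl⟩
    rw [h3] at h1
    exact hx0 h1.symm
  · have hrx : ∀ x, r x = 1 ∨ r x = τ := fun x => htor _ (hr x)
    have hfτ : IsOfFinOrder τ := isOfFinOrder_iff_pow_eq_one.mpr ⟨2, by norm_num, by rw [pow_two]; exact hτ⟩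
    let ε1 : Λ →* (ZMod p)ˣ :=
      { toFun := fun x => if r x = 1 then 1 else -1
        map_one' := by simp
        map_mul' := by
          intro x y
          rcases hrx x with hx | hx <;> rcases hrx y with hy | hy <;> simp [map_mul, hx, hy, hτ1, hτ] }
    have hε1 : ∀ x, ε1 x = if r x = 1 then 1 else -1 := fun x => rfl
    have hε1' : ∀ x, ε1 x = 1 ∨ ε1 x = -1 := by
      intro x
      rw [hε1]
      split_ifs
      · exact Or.inl rfl
      · exact Or.inr rfl
    by_contra hcon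
    push Not at hcon
    have e1 := hcon 1 (fun x => Or.inl rfl)
    have e2 := hcon ε1 hε1'
    have s1 := psn_sum τ hτ lam htor Y hlam 1 x0 hx0 hτ1
    have s2 := psn_sum τ hτ lam htor Y hlam ε1 x0 hx0 hτ1
    rw [e1] at s1
    rw [e2] at s2
    have t1 : Y x0 + Y (τ * x0) = 0 := by
      have : (0 : AddMonoidAlgebra (ZMod p) ℤ).coeff (Multiplicative.toAdd (lam x0)) = 0 := by simp
      rw [this] at s1
      simpa using s1.symm
    have t2 : Y x0 = Y (τ * x0) := by
      have h0 : (0 : AddMonoidAlgebra (ZMod p) ℤ).coeff (Multiplicative.toAdd (lam x0)) = 0 := by simp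
      rw [h0] at s2
      have hετ : ε1 τ = -1 := by
        rw [hε1, hr2 τ hfτ, if_neg hτ1]
      rw [map_mul ε1, hετ] at s2
      have h5 : (0 : ZMod p) = (Y x0 - Y (τ * x0)) * ((ε1 x0 : (ZMod p)ˣ) : ZMod p) := by
        rw [s2]
        simp only [Units.val_mul, Units.val_neg, Units.val_one]
        ring
      have h6 : Y x0 - Y (τ * x0) = 0 := by
        have h7 := mul_eq_zero.mp h5.symm
        rcases h7 with h7 | h7
        · exact h7
        · exact absurd h7 (ε1 x0).ne_zero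
      exact sub_eq_zero.mp h6
    rw [← t2] at t1
    have t3 : (2 : ZMod p) * Y x0 = 0 := by rw [two_mul]; exact t1
    rcases mul_eq_zero.mp t3 with h | h
    · have h8 : ((2 : ℕ) : ZMod p) = 0 := by exact_mod_cast h
      rw [ZMod.natCast_eq_zero_iff] at h8
      have h9 := (Nat.prime_dvd_prime_iff_eq (Fact.out : p.Prime) Nat.prime_two).mp h8
      exact hp2 h9
    · exact hx0 h

end Pool.Agent.SQG
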