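import Pool.Agent.SQG.FDefs

/-!
# SQG module Rwm: divisibility by a polynomial in a primitive vector

PROOF (compare Pool/Agent/SQR/Row.lean, the case `M = ℤ × ℤ`, `w = (1, 0)`).  Choose `m : ℕ` with
`0 ≤ lam x + m` for all `x` in the support of `G`.  For `b : M` let
`P b = ∑_{x ∈ support, x - lam x • w = b} monomial (lam x + m).toNat (G.coeff x)`.  For `ζ ∈ Z`,
`aeval ζ (P b) = ζ ^ m * (ev lam w ζ G).coeff b = 0` (`ev_single`), so `P b = q * Q b`, and
`G = ∑_b single (b - m • w) 1 * aeval (single w 1) (P b) = aeval (single w 1) q * ∑_b single (b - m • w) 1 *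
aeval (single w 1) (Q b)`, the sum over the finite set of all `b = x - lam x • w`, `x` in the support
(`aeval (single w 1) (X ^ k) = single (k • w) 1`, `x = (x - lam x • w) + lam x • w`).
-/

set_option autoImplicit false

open AddMonoidAlgebra

namespace Pool.Agent.SQG

private theorem Rwm_supp {M : Type} (G : AddMonoidAlgebra ℤ M) :
    G = ∑ x ∈ G.coeff.support, single x (G.coeff x) := by
  conv_lhs => rw [← AddMonoidAlgebra.sum_coeff_single G]
  rfl

private theorem Rwm_ev {M : Type} [AddCommGroup M] [DecidableEq M] (w : M) (lam : M →+ ℤ) (ζ : ℂˣ)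
    (G : AddMonoidAlgebra ℤ M) (b : M) :
    (ev lam w ζ G).coeff b = ∑ x ∈ G.coeff.support with x - lam x • w = b,
      ((G.coeff x : ℤ) : ℂ) * ((ζ ^ (lam x) : ℂˣ) : ℂ) := by
  conv_lhs => rw [Rwm_supp G]
  rw [map_sum, AddMonoidAlgebra.coeff_sum, Finsupp.finsetSum_apply, Finset.sum_filter]
  refine Finset.sum_congr rfl fun x _ => ?_
  rw [ev_single, coeff_single, Finsupp.single_apply]

private theorem Rwm_mono {M : Type} [AddCommGroup M] (w : M) (k : ℕ) (a : ℤ) :
    Polynomial.aeval (single w (1 : ℤ) : AddMonoidAlgebra ℤ M)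
      (Polynomial.monomial k a) = single (k • w) a := by
  rw [Polynomial.aeval_monomial, AddMonoidAlgebra.single_pow]
  have h1 : algebraMap ℤ (AddMonoidAlgebra ℤ M) a = single (0 : M) a := by
    rfl
  rw [h1, single_mul_single]
  simp

theorem rowm {M : Type} [AddCommGroup M] (w : M) (lam : M →+ ℤ) (hw : lam w = 1) (q : Polynomial ℤ)
    (Z : Set ℂˣ) (hq : ∀ P : Polynomial ℤ, (∀ ζ ∈ Z, Polynomial.aeval ((ζ : ℂˣ) : ℂ) P = 0) → q ∣ P)
    (G : AddMonoidAlgebra ℤ M) (h : ∀ ζ ∈ Z, ev lam w ζ G = 0) :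
    ∃ Q : AddMonoidAlgebra ℤ M, G = Polynomial.aeval (single w (1 : ℤ) : AddMonoidAlgebra ℤ M) q * Q := by
  classical
  obtain ⟨m, hm⟩ : ∃ m : ℕ, ∀ x ∈ G.coeff.support, 0 ≤ lam x + (m : ℤ) := by
    refine ⟨G.coeff.support.sup fun x => (-lam x).toNat, fun x hx => ?_⟩
    have h1 : (-lam x).toNat ≤ G.coeff.support.sup fun x : M => (-lam x).toNat :=
      Finset.le_sup (f := fun x : M => (-lam x).toNat) hx
    have h2 := Int.self_le_toNat (-lam x)
    have h3 : (((-lam x).toNat : ℕ) : ℤ) ≤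
        ((G.coeff.support.sup fun x : M => (-lam x).toNat : ℕ) : ℤ) := by exact_mod_cast h1
    linarith
  let P : M → Polynomial ℤ := fun b => ∑ x ∈ G.coeff.support with x - lam x • w = b,
    Polynomial.monomial (lam x + (m : ℤ)).toNat (G.coeff x)
  have hP : ∀ b, q ∣ P b := by
    intro b
    refine hq _ fun ζ hζ => ?_
    have h1 : Polynomial.aeval ((ζ : ℂˣ) : ℂ) (P b) = ((ζ : ℂ)) ^ m * (ev lam w ζ G).coeff b := by
      rw [Rwm_ev, Finset.mul_sum]
      simp only [P, map_sum]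
      refine Finset.sum_congr rfl fun x hx => ?_
      rw [Polynomial.aeval_monomial]
      have h2 : ((ζ : ℂ)) ^ (lam x + (m : ℤ)).toNat = (ζ : ℂ) ^ m * ((ζ ^ (lam x) : ℂˣ) : ℂ) := by
        rw [← zpow_natCast, Int.toNat_of_nonneg (hm x (Finset.mem_filter.1 hx).1),
          Units.val_zpow_eq_zpow_val, zpow_add₀ ζ.ne_zero, zpow_natCast, mul_comm]
      rw [h2]
      simp
      ring
    rw [h1, h ζ hζ]
    simp
  choose Q hQ using hP
  refine ⟨∑ b ∈ G.coeff.support.image (fun x => x - lam x • w),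
    single (b - (m : ℤ) • w) 1 * Polynomial.aeval (single w (1 : ℤ)) (Q b), ?_⟩
  rw [Finset.mul_sum]
  have h2 : ∀ b, Polynomial.aeval (single w (1 : ℤ) : AddMonoidAlgebra ℤ M) q *
      (single (b - (m : ℤ) • w) 1 * Polynomial.aeval (single w (1 : ℤ)) (Q b)) =
      ∑ x ∈ G.coeff.support with x - lam x • w = b, single x (G.coeff x) := by
    intro b
    rw [mul_left_comm, ← map_mul, ← hQ b]
    simp only [P, map_sum]
    rw [Finset.mul_sum]
    refine Finset.sum_congr rfl fun x hx => ?_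
    rw [Rwm_mono, single_mul_single, one_mul]
    congr 1
    have h3 := (Finset.mem_filter.1 hx).2
    have h4 : (lam x + (m : ℤ)).toNat • w = (lam x + (m : ℤ)) • w := by
      rw [← natCast_zsmul, Int.toNat_of_nonneg (hm x (Finset.mem_filter.1 hx).1)]
    rw [h4, ← h3, add_smul]
    abel
  simp only [h2]
  rw [Finset.sum_fiberwise_of_maps_to (g := fun x => x - lam x • w)
    (fun x hx => Finset.mem_image_of_mem _ hx)]
  exact Rwm_supp G

end Pool.Agent.SQG
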