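import Pool.Agent.SQG.Cal

/-!
# SQG module Sqa: corner values of an axis-parallel unit square

PROOF. `sq1`: `ind sqo (x, y) = i x * i y` with `i` the indicator function of the open interval `(0, 1)`, so
`md (ind sqo) w a b = (i (w.1 + a) - i (w.1 - a)) * (i (w.2 + b) - i (w.2 - b))`.  For fixed `x`, for all small
`a > 0`: `i (x + a) - i (x - a)` is `1` if `x = 0`, `-1` if `x = 1`, `0` otherwise.  Compare with the coefficient of
`qq ℤ (1, 0) (0, 1) = single (1, 1) 1 - single (1, 0) 1 - single (0, 1) 1 + single 0 1` at `w` (`coeff_single`,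
`Finsupp.single_apply`).
`ax_img`: for `Ax h`, `a * b = 0` and `a * a + b * b = 1` give `(a, b) = (± 1, 0)` or `(0, ± 1)`, and `t = ± 1`:
8 cases, each an explicit computation with `mem_act_image` (the inverse has entries `a`, `- t b`).
`crn_ax` from `crn_shift`: the coefficient of `single v 1 * F` at `w` is the coefficient of `F` at `w - v`
(e.g. `AddMonoidAlgebra.single_mul_apply` or the corresponding lemma for `coeff`; for groups: `-v + w`).
-/

set_option autoImplicit false

open AddMonoidAlgebra Filter Topology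

namespace Pool.Agent.SQG

private noncomputable def Sqa_i (x : ℝ) : ℤ := by
  classical
  exact if 0 < x ∧ x < 1 then 1 else 0

private noncomputable def Sqa_d (x : ℝ) : ℤ := by
  classical
  exact (if x = 0 then 1 else 0) - (if x = 1 then 1 else 0)

private theorem Sqa_lim (x : ℝ) : ∀ᶠ a in 𝓝[>] (0 : ℝ), Sqa_i (x + a) - Sqa_i (x - a) = Sqa_d x := by
  classical
  rcases lt_trichotomy x 0 with h | h | h
  · filter_upwards [Ioo_mem_nhdsGT (show (0 : ℝ) < -x by linarith)] with a ha
    have h1 : ¬(0 < x + a ∧ x + a < 1) := fun h' => by linarith [h'.1, ha.2]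
    have h2 : ¬(0 < x - a ∧ x - a < 1) := fun h' => by linarith [h'.1, ha.1]
    have h3 : x ≠ 0 := h.ne
    have h4 : x ≠ 1 := by linarith
    unfold Sqa_i Sqa_d
    rw [if_neg h1, if_neg h2, if_neg h3, if_neg h4]
  · subst h
    filter_upwards [Ioo_mem_nhdsGT (show (0 : ℝ) < 1 by norm_num)] with a ha
    have h1 : (0 < 0 + a ∧ 0 + a < 1) := by
      rw [zero_add]
      exact ⟨ha.1, ha.2⟩
    have h2 : ¬(0 < 0 - a ∧ 0 - a < 1) := fun h' => by linarith [h'.1, ha.1]
    unfold Sqa_i Sqa_d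
    rw [if_pos h1, if_neg h2, if_pos rfl, if_neg (by norm_num)]
  · rcases lt_trichotomy x 1 with g | g | g
    · filter_upwards [Ioo_mem_nhdsGT h, Ioo_mem_nhdsGT (show (0 : ℝ) < 1 - x by linarith)] with a ha hb
      have h1 : (0 < x + a ∧ x + a < 1) := ⟨by linarith [ha.1], by linarith [hb.2]⟩
      have h2 : (0 < x - a ∧ x - a < 1) := ⟨by linarith [ha.2], by linarith [ha.1]⟩
      unfold Sqa_i Sqa_d
      rw [if_pos h1, if_pos h2, if_neg h.ne', if_neg g.ne]
      norm_num
    · subst g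
      filter_upwards [Ioo_mem_nhdsGT (show (0 : ℝ) < 1 by norm_num)] with a ha
      have h1 : ¬(0 < 1 + a ∧ 1 + a < 1) := fun h' => by linarith [h'.2, ha.1]
      have h2 : ((0 : ℝ) < 1 - a ∧ 1 - a < 1) := ⟨by linarith [ha.2], by linarith [ha.1]⟩
      unfold Sqa_i Sqa_d
      rw [if_neg h1, if_pos h2, if_neg (by norm_num), if_pos rfl]
    · filter_upwards [Ioo_mem_nhdsGT (show (0 : ℝ) < x - 1 by linarith)] with a ha
      have h1 : ¬(0 < x + a ∧ x + a < 1) := fun h' => by linarith [h'.2, ha.1]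
      have h2 : ¬(0 < x - a ∧ x - a < 1) := fun h' => by linarith [h'.2, ha.2]
      unfold Sqa_i Sqa_d
      rw [if_neg h1, if_neg h2, if_neg (by linarith), if_neg (by linarith)]

private theorem Sqa_ind (x y : ℝ) : ind sqo (x, y) = Sqa_i x * Sqa_i y := by
  classical
  unfold ind Sqa_i
  by_cases h1 : 0 < x ∧ x < 1
  · by_cases h2 : 0 < y ∧ y < 1
    · rw [if_pos h1, if_pos h2, if_pos (show (x, y) ∈ sqo from ⟨h1, h2⟩), one_mul]
    · rw [if_neg h2, if_neg (fun h => h2 h.2), mul_zero]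
  · rw [if_neg h1, if_neg (fun h => h1 h.1), zero_mul]

private theorem Sqa_qq (w : V) :
    (qq ℤ ((1, 0) : V) (0, 1)).coeff w = Sqa_d w.1 * Sqa_d w.2 := by
  classical
  have h1 : qq ℤ ((1, 0) : V) (0, 1) =
      single ((1, 1) : V) 1 - single ((1, 0) : V) 1 - single ((0, 1) : V) 1 + single ((0, 0) : V) 1 := by
    have h2 : (single ((1, 0) : V) (1 : ℤ)) * single ((0, 1) : V) 1 = single ((1, 1) : V) 1 := by
      rw [single_mul_single]
      simp
    have h3 : (single ((0, 0) : V) (1 : ℤ)) = 1 := rfl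
    unfold qq
    rw [sub_mul, mul_sub, mul_one, one_mul, h2, h3]
    abel
  obtain ⟨x, y⟩ := w
  rw [h1, coeff_add, coeff_sub, coeff_sub, coeff_single, coeff_single, coeff_single, coeff_single,
    Finsupp.add_apply, Finsupp.sub_apply, Finsupp.sub_apply, Finsupp.single_apply, Finsupp.single_apply,
    Finsupp.single_apply, Finsupp.single_apply]
  unfold Sqa_d
  by_cases hx0 : x = 0
  · by_cases hy0 : y = 0
    · subst hx0; subst hy0
      simp
    · by_cases hy1 : y = 1
      · subst hx0; subst hy1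
        simp
      · subst hx0
        simp [hy0, hy1, Ne.symm hy0, Ne.symm hy1]
  · by_cases hx1 : x = 1
    · by_cases hy0 : y = 0
      · subst hx1; subst hy0
        simp
      · by_cases hy1 : y = 1
        · subst hx1; subst hy1
          simp
        · subst hx1
          simp [hy0, hy1, Ne.symm hy0, Ne.symm hy1]
    · simp [hx0, hx1, Ne.symm hx0, Ne.symm hx1]

theorem sq1 (w : V) : Crn (ind sqo) w ((qq ℤ ((1, 0) : V) (0, 1)).coeff w) := by
  unfold Crn
  filter_upwards [Sqa_lim w.1] with a ha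
  filter_upwards [Sqa_lim w.2] with b hb
  rw [Sqa_qq, ← ha, ← hb]
  unfold md
  rw [Sqa_ind, Sqa_ind, Sqa_ind, Sqa_ind]
  ring

theorem ax_img (h : O2) (hA : Ax h) (z : V) : z ∈ act h '' sqo ↔ z - shf h ∈ sqo := by
  have h1 := h.h
  have h2 : h.t = 1 ∨ h.t = -1 := by
    have h3 := h.t_sq
    have h4 : (h.t - 1) * (h.t + 1) = 0 := by linear_combination h3
    rcases mul_eq_zero.mp h4 with h5 | h5
    · left; linarith
    · right; linarith
  have h6 : (h.a = 1 ∧ h.b = 0) ∨ (h.a = -1 ∧ h.b = 0) ∨ (h.a = 0 ∧ h.b = 1) ∨ (h.a = 0 ∧ h.b = -1) := by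
    rcases mul_eq_zero.mp hA with h3 | h3
    · have h4 : (h.b - 1) * (h.b + 1) = 0 := by
        rw [h3] at h1
        linear_combination h1
      rcases mul_eq_zero.mp h4 with h5 | h5
      · exact Or.inr (Or.inr (Or.inl ⟨h3, by linarith⟩))
      · exact Or.inr (Or.inr (Or.inr ⟨h3, by linarith⟩))
    · have h4 : (h.a - 1) * (h.a + 1) = 0 := by
        rw [h3] at h1
        linear_combination h1
      rcases mul_eq_zero.mp h4 with h5 | h5
      · exact Or.inl ⟨by linarith, h3⟩
      · exact Or.inr (Or.inl ⟨by linarith, h3⟩)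
  obtain ⟨x, y⟩ := z
  rw [mem_act_image, act_apply, O2.inv_a, O2.inv_b, O2.inv_t]
  unfold shf sqo
  simp only [Set.mem_ofPred_eq, Prod.fst_sub, Prod.snd_sub]
  have m1 : min (1 : ℝ) 0 = 0 := min_eq_right zero_le_one
  have m2 : min (-1 : ℝ) 0 = -1 := min_eq_left (by norm_num)
  have m3 : min (0 : ℝ) 0 = 0 := min_self 0
  rcases h2 with ht | ht <;> rcases h6 with ⟨ha, hb⟩ | ⟨ha, hb⟩ | ⟨ha, hb⟩ | ⟨ha, hb⟩ <;>
    rw [ht, ha, hb] <;>
    simp only [one_mul, mul_one, mul_zero, neg_zero, neg_neg, neg_one_mul, mul_neg, m1, m2, m3, zero_mul] <;>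
    constructor <;> rintro ⟨⟨h7, h8⟩, h9, h10⟩ <;>
    refine ⟨⟨?_, ?_⟩, ?_, ?_⟩ <;> linarith

theorem crn_ax (h : O2) (hA : Ax h) (w : V) : Crn (ind (act h '' sqo)) w ((BB h).coeff w) := by
  have h1 : (BB h).coeff w = (qq ℤ ((1, 0) : V) (0, 1)).coeff (w - shf h) := by
    unfold BB
    rw [if_pos hA, coeff_single_mul_eq_mul_coeff (w - shf h), one_mul]
    intro m' _
    constructor
    · rintro rfl
      abel
    · rintro rfl
      abel
  have h2 : ind (act h '' sqo) = fun z => ind sqo (z - shf h) := by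
    classical
    funext z
    unfold ind
    by_cases hz : z - shf h ∈ sqo
    · rw [if_pos hz, if_pos ((ax_img h hA z).mpr hz)]
    · rw [if_neg hz, if_neg (fun h' => hz ((ax_img h hA z).mp h'))]
  rw [h1, h2]
  exact crn_shift (sq1 _)

end Pool.Agent.SQG
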