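import Pool.Agent.SQG.Defs

/-!
# SQG module Tbm: transport of TB by isometries

`rl g l` is the image of the line `l` under `g`: the normal vector is rotated.
PROOF. For `g : O2`, `act g '' Ln l = Ln (rl g l)`: with `n = (l.1, l.2.1)`, `z ∈ Ln l` means `n . z = l.2.2`, and
`(act g n) . (act g z) = n . z` (from `g.h` and `g.t_sq`: `linear_combination`).  `mvH g 0` is a homeomorphism with
underlying function `act g` (up to `+ 0`; or use `mvH`'s analogue), so frontiers and closed sets are mapped to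
frontiers and closed sets (`Homeomorph.image_frontier`, `Homeomorph.isClosed_image`).  `act g '' C ∩ Ln l` is the
image of `C ∩ Ln (rl g⁻¹ l)`, finite.  Nondegeneracy: `rl g l` has normal vector of the same length
(`(rl g l).1 ^ 2 + (rl g l).2.1 ^ 2 = l.1 ^ 2 + l.2.1 ^ 2`).
`tb_mv`: the same with the translation by `c`: `mv g c '' Ln l = Ln (a, b, l.2.2 + a * c.1 + b * c.2)` where
`(a, b) = act g (l.1, l.2.1)`.  (Suggestion: prove the statement for `mv g c` with explicit `T'`, `C' = mv g c '' C`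
and specialise `c = 0` to get `tb_act`.)
-/

set_option autoImplicit false

open AddMonoidAlgebra Filter Topology

namespace Pool.Agent.SQG

/-- The image of a line. -/
noncomputable def rl (g : O2) (l : ℝ × ℝ × ℝ) : ℝ × ℝ × ℝ :=
  ((act g (l.1, l.2.1)).1, (act g (l.1, l.2.1)).2, l.2.2)

private noncomputable def Tbm_rlc (g : O2) (c : V) (l : ℝ × ℝ × ℝ) : ℝ × ℝ × ℝ :=
  ((act g (l.1, l.2.1)).1, (act g (l.1, l.2.1)).2,
    l.2.2 + ((act g (l.1, l.2.1)).1 * c.1 + (act g (l.1, l.2.1)).2 * c.2))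

private theorem Tbm_nd (g : O2) (c : V) {l : ℝ × ℝ × ℝ} (h : Nd l) : Nd (Tbm_rlc g c l) := by
  unfold Nd at *
  by_contra hc
  push Not at hc
  obtain ⟨h1, h2⟩ := hc
  simp only [Tbm_rlc, act_apply] at h1 h2
  have e1 : l.1 = 0 := by
    have h3 := g.h
    linear_combination g.a * h1 + g.b * h2 - l.1 * h3
  have e2 : l.2.1 = 0 := by
    have h3 := g.h
    have h4 := g.t_sq
    linear_combination (-(g.t * g.b)) * h1 + g.t * g.a * h2 - l.2.1 * h3 -
      l.2.1 * (g.a * g.a + g.b * g.b) * h4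
  rcases h with h | h
  · exact h e1
  · exact h e2

private theorem Tbm_mem (g : O2) (c : V) {l : ℝ × ℝ × ℝ} {z : V} (h : z ∈ Ln l) :
    mv g c z ∈ Ln (Tbm_rlc g c l) := by
  have h0 : l.1 * z.1 + l.2.1 * z.2 = l.2.2 := h
  have h3 := g.h
  have h4 := g.t_sq
  show (Tbm_rlc g c l).1 * (mv g c z).1 + (Tbm_rlc g c l).2.1 * (mv g c z).2 = (Tbm_rlc g c l).2.2
  simp only [Tbm_rlc, mv, act_apply, Prod.fst_add, Prod.snd_add]
  linear_combination h0 + (l.1 * z.1 + l.2.1 * z.2) * h3 +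
    l.2.1 * z.2 * (g.a * g.a + g.b * g.b) * h4

private theorem Tbm_gen {U : Set V} {T : Finset (ℝ × ℝ × ℝ)} {C : Set V} (h : TB U T C) (g : O2) (c : V) :
    TB (mv g c '' U) (T.image (Tbm_rlc g c)) (mv g c '' C) := by
  refine ⟨?_, ?_, ?_, ?_⟩
  · exact (mvH g c).isClosed_image.2 h.cl
  · intro l hl
    have hnd : Nd (l.1 * g.a + l.2.1 * g.b, -(l.1 * g.t * g.b) + l.2.1 * g.t * g.a,
        l.2.2 - l.1 * c.1 - l.2.1 * c.2) := by
      unfold Nd at *
      by_contra hc
      push Not at hc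
      obtain ⟨h1, h2⟩ := hc
      simp only at h1 h2
      have e1 : l.1 = 0 := by
        have h3 := g.h
        have h4 := g.t_sq
        linear_combination g.a * h1 - g.t * g.b * h2 - l.1 * h3 +
          (l.2.1 * g.a * g.b - l.1 * g.b * g.b) * h4
      have e2 : l.2.1 = 0 := by
        have h3 := g.h
        have h4 := g.t_sq
        linear_combination g.b * h1 + g.t * g.a * h2 - l.2.1 * h3 +
          (l.1 * g.a * g.b - l.2.1 * g.a * g.a) * h4
      rcases hl with h | h
      · exact h e1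
      · exact h e2
    refine ((h.fin _ hnd).image (mv g c)).subset ?_
    rintro _ ⟨⟨z, hz, rfl⟩, hz2⟩
    refine ⟨z, ⟨hz, ?_⟩, rfl⟩
    have h5 : l.1 * (mv g c z).1 + l.2.1 * (mv g c z).2 = l.2.2 := hz2
    simp only [mv, act_apply, Prod.fst_add, Prod.snd_add] at h5
    show (l.1 * g.a + l.2.1 * g.b) * z.1 + (-(l.1 * g.t * g.b) + l.2.1 * g.t * g.a) * z.2 =
      l.2.2 - l.1 * c.1 - l.2.1 * c.2
    linear_combination h5
  · intro l hl
    rw [Finset.mem_image] at hl
    obtain ⟨l', hl', rfl⟩ := hl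
    exact Tbm_nd g c (h.nd l' hl')
  · have h1 : frontier (mv g c '' U) = mv g c '' frontier U := ((mvH g c).image_frontier U).symm
    rw [h1]
    rintro _ ⟨z, hz, rfl⟩
    rcases h.fr hz with hz | hz
    · exact Or.inl ⟨z, hz, rfl⟩
    · right
      simp only [Set.mem_iUnion] at hz ⊢
      obtain ⟨l, hl, hzl⟩ := hz
      exact ⟨Tbm_rlc g c l, Finset.mem_image_of_mem _ hl, Tbm_mem g c hzl⟩

theorem tb_act {U : Set V} {T : Finset (ℝ × ℝ × ℝ)} {C : Set V} (h : TB U T C) (g : O2) :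
    TB (act g '' U) (T.image (rl g)) (act g '' C) := by
  have h1 := Tbm_gen h g 0
  have e1 : mv g 0 = (act g : V → V) := by
    funext z
    simp [mv]
  have e2 : Tbm_rlc g 0 = rl g := by
    funext l
    simp [Tbm_rlc, rl]
  rw [e1, e2] at h1
  exact h1

theorem tb_mv {U : Set V} {T : Finset (ℝ × ℝ × ℝ)} {C : Set V} (h : TB U T C) (g : O2) (c : V) :
    ∃ T' C', TB (mv g c '' U) T' C' :=
  ⟨_, _, Tbm_gen h g c⟩

end Pool.Agent.SQG
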