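import Pool.Agent.SQG.Crz
import Pool.Agent.SQG.Tbm
import Pool.Agent.SQG.Sqa

/-!
# SQG module Sqb: corner values of all rotated unit squares

PROOF. `tb_sqo`: frontier of `sqo = Ioo 0 1 ×ˢ Ioo 0 1` is contained in the four lines: `closure sqo = sq`-like
(`closure_prod_eq`, `closure_Ioo`) and a point of `closure sqo` on none of the four lines is in `sqo`.  `C = ∅`.
`crn_sq`: if `Ax h` use `crn_ax`.  Otherwise `BB h = 0` and no line of `T.image (rl h)` (`T` the four lines) is
horizontal: `(rl h (1, 0, *)).1 = h.a ≠ 0`, `(rl h (0, 1, *)).1 = - h.t * h.b ≠ 0`; use `tb_act` and `crn_hor`.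
-/

set_option autoImplicit false

open AddMonoidAlgebra Filter Topology

namespace Pool.Agent.SQG

/-- The lines of the sides of the unit square. -/
noncomputable def Tsq : Finset (ℝ × ℝ × ℝ) := {(1, 0, 0), (1, 0, 1), (0, 1, 0), (0, 1, 1)}

private theorem sqo_prod : sqo = Set.Ioo (0 : ℝ) 1 ×ˢ Set.Ioo (0 : ℝ) 1 := rfl

private theorem sq_prod : sq = Set.Icc (0 : ℝ) 1 ×ˢ Set.Icc (0 : ℝ) 1 := rfl

theorem isOpen_sqo : IsOpen sqo := by
  rw [sqo_prod]
  exact isOpen_Ioo.prod isOpen_Ioo

theorem closure_sqo : closure sqo = sq := by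
  rw [sqo_prod, sq_prod, closure_prod_eq, closure_Ioo (zero_ne_one)]

theorem interior_sq : interior sq = sqo := by
  rw [sqo_prod, sq_prod, interior_prod_eq, interior_Icc]

theorem tb_sqo : TB sqo Tsq ∅ := by
  refine ⟨isClosed_empty, fun l _ => ?_, fun l hl => ?_, fun z hz => ?_⟩
  · rw [Set.empty_inter]
    exact Set.finite_empty
  · simp only [Tsq, Finset.mem_insert, Finset.mem_singleton] at hl
    rcases hl with rfl | rfl | rfl | rfl
    · exact Or.inl one_ne_zero
    · exact Or.inl one_ne_zero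
    · exact Or.inr one_ne_zero
    · exact Or.inr one_ne_zero
  · rw [frontier, closure_sqo, isOpen_sqo.interior_eq] at hz
    obtain ⟨⟨⟨h1, h2⟩, h3, h4⟩, h5⟩ := hz
    right
    simp only [Tsq, Finset.mem_insert, Finset.mem_singleton, Set.iUnion_iUnion_eq_or_left,
      Set.iUnion_iUnion_eq_left, Set.mem_union, Ln, Set.mem_ofPred_eq]
    by_contra hcon
    push Not at hcon
    obtain ⟨k1, k2, k3, k4⟩ := hcon
    apply h5
    refine ⟨⟨lt_of_le_of_ne h1 ?_, lt_of_le_of_ne h2 ?_⟩, lt_of_le_of_ne h3 ?_, lt_of_le_of_ne h4 ?_⟩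
    · intro h; apply k1; rw [← h]; ring
    · intro h; apply k2; rw [h]; ring
    · intro h; apply k3; rw [← h]; ring
    · intro h; apply k4; rw [h]; ring

theorem crn_sq (h : O2) (w : V) : Crn (ind (act h '' sqo)) w ((BB h).coeff w) := by
  by_cases hA : Ax h
  · exact crn_ax h hA w
  · have hB : BB h = 0 := if_neg hA
    rw [hB]
    have hab : h.a ≠ 0 ∧ h.b ≠ 0 := by
      constructor
      · intro h0; apply hA; unfold Ax; rw [h0, zero_mul]
      · intro h0; apply hA; unfold Ax; rw [h0, mul_zero]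
    have ht : h.t ≠ 0 := by
      intro h0
      have := h.t_sq
      rw [h0] at this
      norm_num at this
    have hop : IsOpen (act h '' sqo) := by
      have h1 : act h '' sqo = mv h 0 '' sqo := by
        apply Set.image_congr
        intro z _
        unfold mv
        rw [add_zero]
      rw [h1]
      exact (mvH h 0).isOpenMap _ isOpen_sqo
    have hz : ((0 : AddMonoidAlgebra ℤ V).coeff w) = 0 := rfl
    rw [hz]
    refine crn_hor hop (tb_act tb_sqo h) w ?_
    intro l hl hl0
    exfalso
    rw [Finset.mem_image] at hl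
    obtain ⟨l', hl', rfl⟩ := hl
    simp only [Tsq, Finset.mem_insert, Finset.mem_singleton] at hl'
    have h2 : (rl h l').1 = h.a * l'.1 - h.t * h.b * l'.2.1 := rfl
    rw [h2] at hl0
    rcases hl' with rfl | rfl | rfl | rfl
    · simp only [mul_one, mul_zero, sub_zero] at hl0
      exact hab.1 hl0
    · simp only [mul_one, mul_zero, sub_zero] at hl0
      exact hab.1 hl0
    · simp only [mul_one, mul_zero, zero_sub, neg_eq_zero] at hl0
      exact mul_ne_zero ht hab.2 hl0
    · simp only [mul_one, mul_zero, zero_sub, neg_eq_zero] at hl0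
      exact mul_ne_zero ht hab.2 hl0

end Pool.Agent.SQG
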