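import Pool.Agent.SQG.Geo
import Pool.Agent.SQG.Inf
import Pool.Agent.SQG.Inja
import Pool.Agent.SQG.Injb
import Pool.Agent.SQG.Fnb
import Pool.Agent.SQG.Kld

/-!
# SQG: the main theorem in coordinates
-/

set_option autoImplicit false

open AddMonoidAlgebra

namespace Pool.Agent.SQG

/-- The hypothesis on the linear parts (for `g i0 = 1`). -/
def HypG (p : ℕ) (g : Fin p → O2) : Prop :=
  (∀ k ∈ Subgroup.closure (Set.range g), k.s = 1 → IsOfFinOrder k → k = 1 ∨ k = -1) ∨
  (p % 4 = 3 ∧ (∀ i, (g i).s = 1) ∧ ∀ k ∈ Subgroup.closure (Set.range g), IsOfFinOrder k → Ax k) ∨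
  (∃ (Γ : Subgroup O2) (_ : Fintype Γ) (g' : Fin p → Γ), (∀ i, (g' i : O2) = g i) ∧
      ¬ ((p : ℤ) ^ (Set.ncard (Set.range fun h : Γ => ln (h : O2)))) ∣ ND p g') ∨
  Inj p g

theorem gen {p : ℕ} (hp : p.Prime) (hp2 : p ≠ 2) {U : Set V} {g : Fin p → O2} {c : Fin p → V}
    (hT : Til p U g c) {T : Finset (ℝ × ℝ × ℝ)} {C : Set V} (hB : TB U T C) (i0 : Fin p) (h1 : g i0 = 1)
    (hyp : HypG p g) :
    (∀ i, (g i).b = 0) ∨ (p % 4 = 3 ∧ (∀ i, (g i).s = 1) ∧ ∀ i, Ax (g i)) := by
  obtain ⟨F, D⟩ := geo hT hB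
  rcases hyp with hA | ⟨hp4, hr, hA⟩ | ⟨Γ, inst, g', hg', hd⟩ | hI
  · by_cases hb : ∀ i, (g i).b = 0
    · left
      exact hb
    · exfalso
      push Not at hb
      obtain ⟨i1, hi1⟩ := hb
      by_cases hK : ∃ σ : O2, σ.s = -1 ∧ ∀ i, g i = 1 ∨ g i = -1 ∨ g i = σ ∨ g i = -σ
      · obtain ⟨σ, hs, hσ⟩ := hK
        have hi2 : g i1 = σ ∨ g i1 = -σ := by
          rcases hσ i1 with h | h | h | h
          · exact absurd (by rw [h]; rfl) hi1
          · exact absurd (by rw [h]; simp) hi1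
          · exact Or.inl h
          · exact Or.inr h
        have hb : σ.b ≠ 0 := by
          intro h
          rcases hi2 with h2 | h2
          · exact hi1 (by rw [h2, h])
          · exact hi1 (by rw [h2]; simp [h])
        obtain ⟨Γ, inst, g', hg', hd⟩ := kld hp hp2 g i0 h1 σ hs hb hσ ⟨i1, hi2⟩
        have D' : Dat p (fun i => (g' i : O2)) c F := by
          simpa only [hg'] using D
        exact fnb hp hp2 Γ g' c F D' hd
      · exact inf hp hp2 D (inja hp hp2 g i0 h1 hA hK)
  · by_cases hb : ∀ i, Ax (g i)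
    · right
      exact ⟨hp4, hr, hb⟩
    · push Not at hb
      exact (inf hp hp2 D (injb hp hp4 g i0 h1 hr hA hb)).elim
  · have D' : Dat p (fun i => (g' i : O2)) c F := by
      simpa only [hg'] using D
    exact (fnb hp hp2 Γ g' c F D' hd).elim
  · exact (inf hp hp2 D hI).elim

/-! ### Matrices -/

/-- The matrix of an element of `O2`. -/
noncomputable def toM (g : O2) : Matrix (Fin 2) (Fin 2) ℝ := !![g.a, -(g.t * g.b); g.b, g.t * g.a]

theorem toM_one : toM 1 = 1 := by
  ext i j
  fin_cases i <;> fin_cases j <;> simp [toM]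

theorem toM_mul (g h : O2) : toM (g * h) = toM g * toM h := by
  have h3 := g.t_sq
  ext i j
  fin_cases i <;> fin_cases j <;> simp [toM, Matrix.mul_apply, Fin.sum_univ_two]
  · ring
  · linear_combination (-(g.a * h.b * h.t)) * h3
  · linear_combination (-(g.b * h.b * h.t)) * h3

theorem toM_tr (g : O2) : toM g⁻¹ = (toM g).transpose := by
  have h3 := g.t_sq
  ext i j
  fin_cases i <;> fin_cases j <;> simp [toM]
  linear_combination g.b * h3

theorem toM_neg (g : O2) : toM (-g) = -toM g := by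
  ext i j
  fin_cases i <;> fin_cases j <;> simp [toM]

theorem toM_det (g : O2) : (toM g).det = g.t := by
  have h3 := g.h
  simp only [toM, Matrix.det_fin_two_of]
  linear_combination g.t * h3

theorem t_one (g : O2) (h : g.t = 1) : g.s = 1 := by
  rcases Int.units_eq_one_or g.s with h1 | h1
  · exact h1
  · exfalso
    unfold O2.t at h
    rw [h1] at h
    norm_num at h

theorem toM_inj {g h : O2} (hh : toM g = toM h) : g = h := by
  have ha : g.a = h.a := by
    have := congrFun (congrFun hh 0) 0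
    simpa [toM] using this
  have hb : g.b = h.b := by
    have := congrFun (congrFun hh 1) 0
    simpa [toM] using this
  have ht : g.t = h.t := by
    rw [← toM_det, ← toM_det, hh]
  refine O2.ext' ha hb ?_
  rcases Int.units_eq_one_or g.s with h1 | h1 <;> rcases Int.units_eq_one_or h.s with h2 | h2 <;>
    simp [O2.t, h1, h2] at ht ⊢ <;> norm_num at ht

theorem ex_toM (m : Matrix (Fin 2) (Fin 2) ℝ) (hm : m * m.transpose = 1) : ∃ g : O2, toM g = m := by
  have h00 : m 0 0 * m 0 0 + m 0 1 * m 0 1 = 1 := by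
    have := congrFun (congrFun hm 0) 0
    simpa [Matrix.mul_apply, Fin.sum_univ_two] using this
  have h01 : m 0 0 * m 1 0 + m 0 1 * m 1 1 = 0 := by
    have := congrFun (congrFun hm 0) 1
    simpa [Matrix.mul_apply, Fin.sum_univ_two] using this
  have hm' : m.transpose * m = 1 := mul_eq_one_comm.1 hm
  have k00 : m 0 0 * m 0 0 + m 1 0 * m 1 0 = 1 := by
    have := congrFun (congrFun hm' 0) 0
    simpa [Matrix.mul_apply, Fin.sum_univ_two] using this
  have hd : m.det * m.det = 1 := by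
    have h1 : (m * m.transpose).det = 1 := by rw [hm, Matrix.det_one]
    rwa [Matrix.det_mul, Matrix.det_transpose] at h1
  have hdet : m.det = m 0 0 * m 1 1 - m 0 1 * m 1 0 := Matrix.det_fin_two m
  have e1 : m.det * m 0 0 = m 1 1 := by
    rw [hdet]
    linear_combination m 1 1 * h00 - m 0 1 * h01
  have e2 : m.det * m 1 0 = -m 0 1 := by
    rw [hdet]
    linear_combination m 1 1 * h01 * 1 - m 0 1 * 0 + (-(m 0 1)) * (by
      have := congrFun (congrFun hm 1) 1
      simpa [Matrix.mul_apply, Fin.sum_univ_two] using this : m 1 0 * m 1 0 + m 1 1 * m 1 1 = 1)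
  rcases mul_self_eq_one_iff.1 hd with h | h
  · refine ⟨⟨m 0 0, m 1 0, 1, k00⟩, ?_⟩
    rw [h] at e1 e2
    ext i j
    fin_cases i <;> fin_cases j <;> simp [toM, O2.t]
    · linarith
    · linarith
  · refine ⟨⟨m 0 0, m 1 0, -1, k00⟩, ?_⟩
    rw [h] at e1 e2
    ext i j
    fin_cases i <;> fin_cases j <;> simp [toM, O2.t]
    · linarith
    · linarith

end Pool.Agent.SQG
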